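import Pool.Agent.Lib.HY.Blue
import Pool.Agent.Lib.MP_689e73_mp.Newton

/-! Angular moments of a ball, and the Taylor minorant of the cosine. -/

open MeasureTheory Set Metric

noncomputable section

namespace Pool.Agent.Lib.HY

open Pool.Agent.Lib.MP_f7be6d_mp Pool.Agent.Lib.MP_f7be6d_mp.Unit

namespace ANG2

lemma ang (j : ℕ) : ∫⁻ θ in Ioo (-Real.pi) Real.pi,
    ENNReal.ofReal (Real.sin θ * Real.cos θ ^ (2 * j)) = ENNReal.ofReal (2 / (2 * j + 1)) := by
  have hp := Real.pi_pos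
  have hc : ∀ θ, 0 ≤ Real.cos θ ^ (2 * j) := fun θ => by rw [pow_mul]; positivity
  have e1 : ∫⁻ θ in Ioo (-Real.pi) Real.pi, ENNReal.ofReal (Real.sin θ * Real.cos θ ^ (2 * j))
      = ∫⁻ θ in Ioo (-Real.pi) Real.pi, (Ioo 0 Real.pi).indicator
        (fun θ => ENNReal.ofReal (Real.sin θ * Real.cos θ ^ (2 * j))) θ := by
    refine setLIntegral_congr_fun measurableSet_Ioo fun θ hθ => ?_
    by_cases h : θ ∈ Ioo 0 Real.pi
    · rw [indicator_of_mem h]
    · rw [indicator_of_notMem h]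
      have h1 : θ ≤ 0 := not_lt.1 fun h2 => h ⟨h2, hθ.2⟩
      exact ENNReal.ofReal_of_nonpos (mul_nonpos_of_nonpos_of_nonneg
        (Real.sin_nonpos_of_nonpos_of_neg_pi_le h1 hθ.1.le) (hc θ))
  rw [e1, lintegral_indicator measurableSet_Ioo, Measure.restrict_restrict measurableSet_Ioo,
    inter_eq_left.2 (Ioo_subset_Ioo_left (by linarith)), ← ofReal_integral_eq_lintegral_ofReal]
  · congr 1
    rw [← integral_Ioc_eq_integral_Ioo, ← intervalIntegral.integral_of_le hp.le]
    have hd : ∀ θ ∈ uIcc 0 Real.pi, HasDerivAt (fun θ => -(Real.cos θ ^ (2 * j + 1)) / (2 * j + 1))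
        (Real.sin θ * Real.cos θ ^ (2 * j)) θ := fun θ _ => by
      have := (((Real.hasDerivAt_cos θ).fun_pow (2 * j + 1)).fun_neg).div_const ((2 * j + 1 : ℝ))
      refine this.congr_deriv ?_
      rw [Nat.add_sub_cancel]; push_cast; field_simp
    rw [intervalIntegral.integral_eq_sub_of_hasDerivAt hd
      (Continuous.intervalIntegrable (by fun_prop) _ _), Real.cos_pi, Real.cos_zero, pow_succ,
      pow_mul]
    field_simp; norm_num
  · exact (Continuous.integrableOn_Icc (by fun_prop)).mono_set Ioo_subset_Icc_self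
  · filter_upwards [ae_restrict_mem measurableSet_Ioo] with θ hθ
    exact mul_nonneg (Real.sin_nonneg_of_nonneg_of_le_pi hθ.1.le hθ.2.le) (hc θ)

lemma axis {r : ℝ} (hr : 0 < r) (j q : ℕ) :
    ∫⁻ v in ball (0 : E3) r, ENNReal.ofReal (v 0 ^ (2 * j) * (‖v‖ ^ q / ‖v‖))
      = ENNReal.ofReal (4 * Real.pi * r ^ (2 * j + q + 2) / ((2 * j + 1) * (2 * j + q + 2))) := by
  have hp := Real.pi_pos
  have hG : Measurable (fun p : ℝ × ℝ => (Iio r).indicator (fun _ => (1 : ENNReal)) p.2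
      * ENNReal.ofReal (p.1 ^ (2 * j) * (p.2 ^ q / p.2))) :=
    ((measurable_const.indicator measurableSet_Iio).comp measurable_snd).mul
      (Measurable.ennreal_ofReal (by fun_prop))
  have h1 := Pool.Agent.Lib.MP_689e73_mp.spherical hG
  have e1 : ∫⁻ v in ball (0 : E3) r, ENNReal.ofReal (v 0 ^ (2 * j) * (‖v‖ ^ q / ‖v‖))
      = ∫⁻ v : E3, (Iio r).indicator (fun _ => (1 : ENNReal)) ‖v‖
        * ENNReal.ofReal (v 0 ^ (2 * j) * (‖v‖ ^ q / ‖v‖)) := by
    rw [← lintegral_indicator measurableSet_ball]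
    refine lintegral_congr fun v => ?_
    by_cases h : ‖v‖ < r
    · rw [indicator_of_mem (mem_ball_zero_iff.2 h), indicator_of_mem (mem_Iio.2 h), one_mul]
    · rw [indicator_of_notMem (mt mem_ball_zero_iff.1 h), indicator_of_notMem (mt mem_Iio.1 h),
        zero_mul]
  have e2 : ∀ ρ ∈ Ioi (0 : ℝ), ∫⁻ θ in Ioo (-Real.pi) Real.pi, ENNReal.ofReal ρ
      * (ENNReal.ofReal (2 * Real.pi) * (ENNReal.ofReal (ρ * Real.sin θ)
        * ((Iio r).indicator (fun _ => (1 : ENNReal)) ρ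
          * ENNReal.ofReal ((ρ * Real.cos θ) ^ (2 * j) * (ρ ^ q / ρ)))))
      = (Iio r).indicator (fun ρ => ENNReal.ofReal
        (4 * Real.pi / (2 * j + 1) * ρ ^ (2 * j + q + 1))) ρ := by
    intro ρ hρ
    have hρ0 : 0 < ρ := hρ
    by_cases h : ρ ∈ Iio r
    · have e3 : ∀ θ, ENNReal.ofReal ρ * (ENNReal.ofReal (2 * Real.pi)
          * (ENNReal.ofReal (ρ * Real.sin θ) * ((Iio r).indicator (fun _ => (1 : ENNReal)) ρ
            * ENNReal.ofReal ((ρ * Real.cos θ) ^ (2 * j) * (ρ ^ q / ρ)))))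
          = ENNReal.ofReal (2 * Real.pi * ρ ^ (2 * j + q + 1))
            * ENNReal.ofReal (Real.sin θ * Real.cos θ ^ (2 * j)) := by
        intro θ
        rw [indicator_of_mem h, one_mul, ← ENNReal.ofReal_mul' (by rw [pow_mul]; positivity),
          ← ENNReal.ofReal_mul (by positivity), ← ENNReal.ofReal_mul hρ0.le,
          ← ENNReal.ofReal_mul (by positivity)]
        congr 1
        rw [mul_pow]; field_simp; ring
      simp only [e3]
      rw [lintegral_const_mul' _ _ ENNReal.ofReal_ne_top, ang, indicator_of_mem h,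
        ← ENNReal.ofReal_mul (by positivity)]
      congr 1; ring
    · simp [indicator_of_notMem h]
  rw [e1, h1, setLIntegral_congr_fun measurableSet_Ioi e2, lintegral_indicator measurableSet_Iio,
    Measure.restrict_restrict measurableSet_Iio, Iio_inter_Ioi,
    ← ofReal_integral_eq_lintegral_ofReal]
  · congr 1
    rw [← integral_Ioc_eq_integral_Ioo, ← intervalIntegral.integral_of_le hr.le,
      intervalIntegral.integral_const_mul, integral_pow]
    push_cast; field_simp; ring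
  · exact (Continuous.integrableOn_Icc (by fun_prop)).mono_set Ioo_subset_Icc_self
  · filter_upwards [ae_restrict_mem measurableSet_Ioo] with ρ hρ
    have := hρ.1
    positivity

lemma step {f g : ℝ → ℝ} (hd : ∀ x, HasDerivAt f (g x) x) (h0 : f 0 = 0)
    (hg : ∀ x, 0 ≤ x → 0 ≤ g x) {x : ℝ} (hx : 0 ≤ x) : 0 ≤ f x := by
  have hm : MonotoneOn f (Ici 0) := monotoneOn_of_deriv_nonneg (convex_Ici 0)
    (fun y _ => (hd y).continuousAt.continuousWithinAt)
    (fun y _ => (hd y).differentiableAt.differentiableWithinAt)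
    (fun y hy => by rw [(hd y).deriv]; exact hg y (interior_subset hy))
  rw [← h0]; exact hm self_mem_Ici hx hx

lemma cos_ge {x : ℝ} (hx : 0 ≤ x) : 1 - x ^ 2 / 2 + x ^ 4 / 24 - x ^ 6 / 720 ≤ Real.cos x := by
  have p : ∀ (n : ℕ) (y : ℝ), HasDerivAt (fun y : ℝ => y ^ n) (n * y ^ (n - 1)) y :=
    fun n y => hasDerivAt_pow n y
  have h4 : ∀ y, 0 ≤ y → 0 ≤ 1 - y ^ 2 / 2 + y ^ 4 / 24 - Real.cos y := fun y hy =>
    step (f := fun y => 1 - y ^ 2 / 2 + y ^ 4 / 24 - Real.cos y)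
      (g := fun y => Real.sin y - (y - y ^ 3 / 6))
      (fun y => (((((p 2 y).div_const 2).const_sub 1).fun_add ((p 4 y).div_const 24)).fun_sub
        (Real.hasDerivAt_cos y)).congr_deriv (by norm_num; ring)) (by simp)
      (fun y hy => sub_nonneg.2 (Real.sin_ge_sub_cube hy)) hy
  have h5 : ∀ y, 0 ≤ y → 0 ≤ y - y ^ 3 / 6 + y ^ 5 / 120 - Real.sin y := fun y hy =>
    step (f := fun y => y - y ^ 3 / 6 + y ^ 5 / 120 - Real.sin y)
      (fun y => ((((hasDerivAt_id' y).fun_sub ((p 3 y).div_const 6)).fun_add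
        ((p 5 y).div_const 120)).fun_sub (Real.hasDerivAt_sin y)).congr_deriv (by norm_num; ring))
      (by simp) h4 hy
  have h6 := step (f := fun y => Real.cos y - (1 - y ^ 2 / 2 + y ^ 4 / 24 - y ^ 6 / 720))
      (fun y => ((Real.hasDerivAt_cos y).fun_sub (((((p 2 y).div_const 2).const_sub 1).fun_add
        ((p 4 y).div_const 24)).fun_sub ((p 6 y).div_const 720))).congr_deriv (by norm_num; ring))
      (by simp) h5 hx
  linarith

end ANG2

theorem st_COS2 : St_COS := by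
  intro y
  rcases le_total 0 y with h | h
  · exact ANG2.cos_ge h
  · have := ANG2.cos_ge (neg_nonneg.2 h)
    rw [Real.cos_neg] at this
    linarith

theorem st_ANG2 : St_ANG := by
  intro k r j q hr
  obtain ⟨Q, hQ⟩ := Pool.Agent.Lib.MP_689e73_mp.exists_iso k
  have h0 : ∀ v : E3, 0 ≤ inner ℝ k v ^ (2 * j) * (‖v‖ ^ q / ‖v‖) := fun v => by
    rw [pow_mul]; positivity
  have hm : Measurable (fun v : E3 => inner ℝ k v ^ (2 * j) * (‖v‖ ^ q / ‖v‖)) := by fun_prop
  have hk : 0 ≤ ‖k‖ ^ (2 * j) := by positivity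
  have e : ∫⁻ v in ball (0 : E3) r, ENNReal.ofReal (inner ℝ k v ^ (2 * j) * (‖v‖ ^ q / ‖v‖))
      = ENNReal.ofReal (4 * Real.pi * ‖k‖ ^ (2 * j) * r ^ (2 * j + q + 2)
        / ((2 * j + 1) * (2 * j + q + 2))) := by
    rw [← Q.measurePreserving.setLIntegral_comp_preimage measurableSet_ball hm.ennreal_ofReal,
      Q.preimage_ball, map_zero]
    have e1 : ∀ v : E3, ENNReal.ofReal (inner ℝ k (Q v) ^ (2 * j) * (‖Q v‖ ^ q / ‖Q v‖))
        = ENNReal.ofReal (‖k‖ ^ (2 * j)) * ENNReal.ofReal (v 0 ^ (2 * j) * (‖v‖ ^ q / ‖v‖)) := by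
      intro v
      have e2 : inner ℝ k (Q v) = ‖k‖ * v 0 := by
        conv_lhs => rw [← hQ]
        rw [Q.inner_map_map, real_inner_smul_left, Pool.Agent.Lib.MP_689e73_mp.e0,
          EuclideanSpace.inner_single_left]
        simp
      rw [e2, Q.norm_map, ← ENNReal.ofReal_mul hk, mul_pow, mul_assoc]
    simp only [e1]
    rw [lintegral_const_mul' _ _ ENNReal.ofReal_ne_top, ANG2.axis hr, ← ENNReal.ofReal_mul hk]
    congr 1; ring
  refine ⟨⟨hm.aestronglyMeasurable, ?_⟩, ?_⟩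
  · rw [hasFiniteIntegral_iff_ofReal (Filter.Eventually.of_forall h0), e]
    exact ENNReal.ofReal_lt_top
  · rw [integral_eq_lintegral_of_nonneg_ae (Filter.Eventually.of_forall h0)
      hm.aestronglyMeasurable, e, ENNReal.toReal_ofReal (by positivity)]

end Pool.Agent.Lib.HY
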