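import Pool.Agent.Lib.HY.Blue
import Pool.Agent.Lib.ION.NEWTON

/-! The uniform ball of radius one half and its potential. -/

open MeasureTheory Set Metric

noncomputable section

namespace Pool.Agent.Lib.HY

open Pool.Agent.Lib.MP_f7be6d_mp Pool.Agent.Lib.MP_f7be6d_mp.Unit

namespace BALL

lemma rad (g : ℝ → ℝ) : ∫ x : E3, mu x * g ‖x‖ = 24 * ∫ y in (0 : ℝ)..1 / 2, y ^ 2 * g y := by
  have e := integral_fun_norm_addHaar (volume : Measure E3)
    fun y => (if y < 1 / 2 then 6 / Real.pi else 0) * g y
  have e2 : ∫ y in Ioi (0 : ℝ), y ^ (3 - 1) • ((if y < 1 / 2 then 6 / Real.pi else 0) * g y) =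
      6 / Real.pi * ∫ y in (0 : ℝ)..1 / 2, y ^ 2 * g y := by
    rw [intervalIntegral.integral_of_le (by norm_num), integral_Ioc_eq_integral_Ioo,
      ← Ioi_inter_Iio, ← setIntegral_indicator measurableSet_Iio, ← integral_const_mul]
    congr 1; funext y
    by_cases hy : y < 1 / 2
    · rw [indicator_of_mem (mem_Iio.2 hy), if_pos hy, smul_eq_mul]; ring
    · rw [indicator_of_notMem (mt mem_Iio.1 hy), if_neg hy]; simp
  rw [finrank_E3, volume_real_ball3 _ zero_le_one, e2] at e
  refine e.trans ?_
  simp only [nsmul_eq_mul, smul_eq_mul]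
  field_simp
  push_cast; ring

lemma piece {f g : ℝ → ℝ} {a b : ℝ} (h : a ≤ b) (hg : Continuous g) (e : EqOn f g (Icc a b)) :
    IntervalIntegrable f volume a b ∧ ∫ y in a..b, f y = ∫ y in a..b, g y :=
  ⟨(hg.continuousOn.congr e).intervalIntegrable_of_Icc h,
    intervalIntegral.integral_congr (by rwa [uIcc_of_le h])⟩

lemma newt {r : ℝ} (hr : 0 ≤ r) : 24 * ∫ y in (0 : ℝ)..1 / 2, y ^ 2 * (max r y)⁻¹ = PP r := by
  have p : ∀ b, 0 ≤ b → b ≤ r → IntervalIntegrable (fun y => y ^ 2 * (max r y)⁻¹) volume 0 b ∧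
      ∫ y in (0 : ℝ)..b, y ^ 2 * (max r y)⁻¹ = b ^ 3 / 3 * r⁻¹ := fun b h0 hb => by
    obtain ⟨a1, a2⟩ := piece (f := fun y => y ^ 2 * (max r y)⁻¹) (g := fun y => y ^ 2 * r⁻¹) h0
      (by fun_prop) fun y hy => by simp only [max_eq_left (hy.2.trans hb)]
    refine ⟨a1, ?_⟩
    rw [a2, intervalIntegral.integral_mul_const, integral_pow]
    norm_num
  unfold PP
  split_ifs with h
  · obtain ⟨a1, a2⟩ := p r hr le_rfl
    obtain ⟨b1, b2⟩ := piece (f := fun y => y ^ 2 * (max r y)⁻¹) (g := fun y => y) h.le
      continuous_id fun y hy => by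
        simp only [max_eq_right hy.1]
        rw [sq, mul_self_mul_inv]
    rw [← intervalIntegral.integral_add_adjacent_intervals a1 b1, a2, b2, integral_id]
    have : r ^ 3 / 3 * r⁻¹ = r ^ 2 / 3 := by
      rcases eq_or_ne r 0 with h0 | h0
      · simp [h0]
      · field_simp
    rw [this]; ring
  · rw [(p _ (by norm_num) (not_lt.1 h)).2]; ring

end BALL

open BALL in
theorem st_BALL : St_BALL := by
  have hp := Real.pi_pos
  have hi : Integrable mu := by
    have : mu = (ball (0 : E3) (1 / 2)).indicator fun _ => 6 / Real.pi := by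
      funext x; simp only [mu, indicator, mem_ball_zero_iff]
    rw [this, integrable_indicator_iff measurableSet_ball]
    exact integrableOn_const measure_ball_lt_top.ne
  refine ⟨Coul.of_bdd hi (A := 6 / Real.pi) fun x => ?_, ?_, fun x => ?_, ?_⟩
  · unfold mu
    split_ifs
    · exact (abs_of_pos (by positivity)).le
    · rw [abs_zero]; positivity
  · have := rad fun _ => 1
    simp only [mul_one, integral_pow] at this
    rw [this]; norm_num
  · have h := ION.newton_nn (γ := fun y => if y < 1 / 2 then 6 / Real.pi else 0)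
      (Measurable.ite measurableSet_Iio measurable_const measurable_const)
      (fun t => by split_ifs <;> positivity) 0 x
    simp only [sub_zero, MP_689e73_mp.psi] at h
    rw [← newt (norm_nonneg x), ← rad fun y => (max ‖x‖ y)⁻¹]
    refine Eq.trans ?_ h
    unfold pot mu
    simp only [div_eq_inv_mul _ ‖x - _‖]
  · rw [rad, (piece (g := fun y => 3 * y ^ 2 - 4 * y ^ 4) (by norm_num) (by fun_prop)
      fun y hy => ?_).2, intervalIntegral.integral_sub (Continuous.intervalIntegrable (by fun_prop) _ _)
        (Continuous.intervalIntegrable (by fun_prop) _ _), intervalIntegral.integral_const_mul,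
      intervalIntegral.integral_const_mul, integral_pow, integral_pow]
    · norm_num
    · simp only [PP]
      split_ifs with h
      · ring
      · rw [le_antisymm hy.2 (not_lt.1 h)]; norm_num

end Pool.Agent.Lib.HY
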