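import Pool.Agent.Lib.HY.Blue

/-! The Coulomb part does not depend on the numbering of the nuclei. -/

open MeasureTheory Set Metric

noncomputable section

namespace Pool.Agent.Lib.HY

open Pool.Agent.Lib.MP_f7be6d_mp Pool.Agent.Lib.MP_f7be6d_mp.Unit

namespace CG

lemma half_sum {k : ℕ} (f : Fin k → Fin k → ℝ) (hs : ∀ i j, f i j = f j i) (h0 : ∀ i, f i i = 0) :
    ∑ i, ∑ j with i < j, f i j = 1 / 2 * ∑ i, ∑ j, f i j := by
  have e1 : ∑ i, ∑ j with i < j, f i j = ∑ i, ∑ j, if i < j then f i j else 0 := by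
    simp only [Finset.sum_filter]
  have e2 : ∑ i, ∑ j with i < j, f i j = ∑ i, ∑ j, if j < i then f i j else 0 := by
    rw [e1, Finset.sum_comm]
    simp only [hs]
  have e3 : ∑ i, ∑ j, f i j = (∑ i, ∑ j, if i < j then f i j else 0)
      + ∑ i, ∑ j, if j < i then f i j else 0 := by
    simp only [← Finset.sum_add_distrib]
    refine Finset.sum_congr rfl fun i _ => Finset.sum_congr rfl fun j _ => ?_
    rcases lt_trichotomy i j with h | h | h
    · rw [if_pos h, if_neg h.not_gt, add_zero]
    · rw [h, h0]; simp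
    · rw [if_pos h, if_neg h.not_gt, zero_add]
  linarith

end CG

theorem st_CG : St_CG := by
  intro n k e ρ
  have hV : ∀ x, nucV (fun _ => 1) (fun j => cc (e j)) x = Vl 1 n x := by
    intro x
    unfold nucV Vl cc
    rw [← Equiv.sum_comp e]
  have hU : nucU (fun _ => 1) (fun j => cc (e j)) = UU n := by
    unfold nucU UU
    rw [CG.half_sum (fun i j => 1 * 1 / ‖cc (e i) - cc (e j)‖)
      (fun i j => by rw [norm_sub_rev]) (fun i => by simp), ← Equiv.sum_comp e]
    congr 1
    refine Finset.sum_congr rfl fun i _ => ?_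
    rw [← Equiv.sum_comp e]
    simp only [mul_one]
  unfold Cg CC
  simp only [hV, hU]

end Pool.Agent.Lib.HY
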