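import Pool.Agent.Lib.HY.B_MAIN

/-! Lower bound for the exchange energy of the plane-wave state with an explicit constant. -/

open MeasureTheory Set Metric
open scoped ComplexConjugate

noncomputable section

namespace Pool.Agent.Lib.HY

open Pool.Agent.Lib.MP_f7be6d_mp Pool.Agent.Lib.MP_f7be6d_mp.Unit

namespace EXC

lemma re_vw {L w : ℝ} (hw : 0 < w) (hL : 0 < L) (m : Fin 3 → ℤ) {x y : E3} (hx : x ∈ cube w L)
    (hy : y ∈ cube w L) : (vw L w m x * conj (vw L w m y)).re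
      = L⁻¹ ^ 3 * Real.cos (inner ℝ ((2 * Real.pi / L) • zv m) (x - y)) := by
  rw [real_inner_smul_left]
  set θ : ℝ := 2 * Real.pi / L * inner ℝ (zv m) (x - y) with hθ
  have e1 : ∀ i, eta L w (m i) (x i) * conj (eta L w (m i) (y i))
      = ((L⁻¹ : ℝ) : ℂ) * Complex.exp (((2 * Real.pi * m i / L * (x i - y i) : ℝ) : ℂ)
        * Complex.I) := by
    intro i
    have h1 : (((√L)⁻¹ * (√L)⁻¹ : ℝ) : ℂ) = ((L⁻¹ : ℝ) : ℂ) := by
      rw [← mul_inv, Real.mul_self_sqrt hL.le]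
    have h2 : ew L (m i) (x i) * conj (ew L (m i) (y i))
        = Complex.exp (((2 * Real.pi * m i / L * (x i - y i) : ℝ) : ℂ) * Complex.I) := by
      unfold ew
      rw [← Complex.exp_conj, ← Complex.exp_add]
      congr 1
      simp only [map_mul, Complex.conj_ofReal, Complex.conj_I]
      push_cast; ring
    unfold eta
    rw [chi_one hw (hx i).1 (hx i).2.le, chi_one hw (hy i).1 (hy i).2.le, map_mul,
      Complex.conj_ofReal, ← h1, ← h2]
    push_cast; ring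
  have e2 : vw L w m x * conj (vw L w m y)
      = ((L⁻¹ ^ 3 : ℝ) : ℂ) * Complex.exp (θ * Complex.I) := by
    unfold vw
    rw [map_prod, ← Finset.prod_mul_distrib]
    simp only [e1]
    rw [Finset.prod_mul_distrib, ← Complex.exp_sum, ← Finset.sum_mul, ← Complex.ofReal_sum]
    congr 1
    · simp
    · congr 3
      rw [hθ, PiLp.inner_apply, Finset.mul_sum]
      refine Finset.sum_congr rfl fun i _ => ?_
      simp only [zv, PiLp.sub_apply, RCLike.inner_apply, conj_trivial]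
      ring
  rw [e2, Complex.re_ofReal_mul, Complex.exp_ofReal_mul_I_re]

/-- Taylor minorant of the cosine -/
def cp (y : ℝ) : ℝ := 1 - y ^ 2 / 2 + y ^ 4 / 24 - y ^ 6 / 720

lemma gm_low (hC : St_COS) {N : ℕ} {L w G : ℝ} (hw : 0 < w) (hL : 0 < L)
    (md : Fin N → (Fin 3 → ℤ) × Fin 2) {x y : E3} (hx : x ∈ cube w L) (hy : y ∈ cube w L)
    (hG : 0 ≤ G) :
    L⁻¹ ^ 3 * (∑ p, cp (inner ℝ ((2 * Real.pi / L) • zv (md p).1) (x - y))) * G - G ^ 2 / 2
      ≤ ∑ t, ∑ t', ‖gm (orb L w md) x t y t'‖ ^ 2 := by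
  have e : gm (orb L w md) x 0 y 0 + gm (orb L w md) x 1 y 1
      = ∑ p, vw L w (md p).1 x * conj (vw L w (md p).1 y) := by
    unfold gm
    rw [← Finset.sum_add_distrib]
    refine Finset.sum_congr rfl fun p _ => ?_
    unfold orb
    generalize (md p).2 = s
    fin_cases s <;> simp
  have h1 : L⁻¹ ^ 3 * (∑ p, cp (inner ℝ ((2 * Real.pi / L) • zv (md p).1) (x - y)))
      ≤ (gm (orb L w md) x 0 y 0 + gm (orb L w md) x 1 y 1).re := by
    rw [e, Complex.re_sum, Finset.mul_sum]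
    refine Finset.sum_le_sum fun p _ => ?_
    rw [re_vw hw hL _ hx hy]
    exact mul_le_mul_of_nonneg_left (hC _) (by positivity)
  have h2 := (Complex.re_le_norm _).trans
    (norm_add_le (gm (orb L w md) x 0 y 0) (gm (orb L w md) x 1 y 1))
  have h3 := mul_le_mul_of_nonneg_right (h1.trans h2) hG
  simp only [Fin.sum_univ_two]
  nlinarith [sq_nonneg (‖gm (orb L w md) x 0 y 0‖ - G / 2),
    sq_nonneg (‖gm (orb L w md) x 1 y 1‖ - G / 2),
    sq_nonneg ‖gm (orb L w md) x 0 y 1‖, sq_nonneg ‖gm (orb L w md) x 1 y 0‖]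

/-- `f` is integrable on the ball with integral `a` -/
def HI (r : ℝ) (f : E3 → ℝ) (a : ℝ) : Prop :=
  IntegrableOn f (ball 0 r) ∧ ∫ v in ball (0 : E3) r, f v = a

lemma HI.add {r a b : ℝ} {f g : E3 → ℝ} (hf : HI r f a) (hg : HI r g b) :
    HI r (fun v => f v + g v) (a + b) :=
  ⟨hf.1.add hg.1, by rw [integral_add hf.1 hg.1, hf.2, hg.2]⟩

lemma HI.cmul {r a : ℝ} {f : E3 → ℝ} (c : ℝ) (hf : HI r f a) :
    HI r (fun v => c * f v) (c * a) :=
  ⟨hf.1.const_mul c, by rw [integral_const_mul, hf.2]⟩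

lemma HI.sum {r : ℝ} {N : ℕ} {a : Fin N → ℝ} {f : Fin N → E3 → ℝ} (hf : ∀ p, HI r (f p) (a p)) :
    HI r (fun v => ∑ p, f p v) (∑ p, a p) :=
  ⟨integrable_finsetSum _ fun p _ => (hf p).1, by
    rw [integral_finsetSum _ fun p _ => (hf p).1]
    exact Finset.sum_congr rfl fun p _ => (hf p).2⟩

lemma HI.congr {r a b : ℝ} {f g : E3 → ℝ} (hf : HI r f a) (h1 : ∀ v, g v = f v) (h2 : b = a) :
    HI r g b := by
  rw [show g = f from funext h1, h2]; exact hf

lemma mode (hA : St_ANG) (k : E3) {r : ℝ} (hr : 0 < r) :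
    HI r (fun v => cp (inner ℝ k v) * (1 - ‖v‖ ^ 2 / r ^ 2) / ‖v‖)
      (4 * Real.pi * r ^ 2 * (1 / 4 - (‖k‖ ^ 2 * r ^ 2 / 72 - ‖k‖ ^ 4 * r ^ 4 / 2880
        + ‖k‖ ^ 6 * r ^ 6 / 201600))) := by
  have T : ∀ j q : ℕ, HI r _ _ := fun j q => hA k r j q hr
  refine ((((T 0 0).add ((T 1 0).cmul (-1 / 2))).add (((T 2 0).cmul (1 / 24)).add
    ((T 3 0).cmul (-1 / 720)))).add (((((T 0 2).add ((T 1 2).cmul (-1 / 2))).add
      (((T 2 2).cmul (1 / 24)).add ((T 3 2).cmul (-1 / 720))))).cmul (-1 / r ^ 2))).congr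
    (fun v => ?_) ?_
  · unfold cp; ring
  · push_cast; field_simp; ring

lemma sqG (hA : St_ANG) {r : ℝ} (hr : 0 < r) :
    HI r (fun v => (1 - ‖v‖ ^ 2 / r ^ 2) ^ 2 / ‖v‖) (4 * Real.pi * r ^ 2 / 6) := by
  have T : ∀ j q : ℕ, HI r _ _ := fun j q => hA 0 r j q hr
  refine (((T 0 0).add ((T 0 2).cmul (-2 / r ^ 2))).add ((T 0 4).cmul (1 / r ^ 4))).congr
    (fun v => ?_) ?_
  · ring
  · push_cast; field_simp; ring

lemma exch (hA : St_ANG) (hC : St_COS) {N : ℕ} {L w r t : ℝ} (hw : 0 < w) (hwL : w ≤ L)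
    (hr : 0 < r) (hrt : w + r ≤ t) (htL : 2 * t ≤ L) {md : Fin N → (Fin 3 → ℤ) × Fin 2}
    (hmd : Function.Injective md) :
    (L - 2 * t) ^ 3 * (L⁻¹ ^ 3 * (8 / 9) * (∑ p, 4 * Real.pi * r ^ 2 * (1 / 4
        - (‖(2 * Real.pi / L) • zv (md p).1‖ ^ 2 * r ^ 2 / 72
          - ‖(2 * Real.pi / L) • zv (md p).1‖ ^ 4 * r ^ 4 / 2880
          + ‖(2 * Real.pi / L) • zv (md p).1‖ ^ 6 * r ^ 6 / 201600)))
        + -32 / 81 * (4 * Real.pi * r ^ 2 / 6))
      ≤ ∫ q, exk (orb L w md) q ∂(volume.prod volume) := by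
  have hL : 0 < L := lt_of_lt_of_le hw hwL
  have hi := integrable_exk (orb_orb hw hwL hmd)
  obtain ⟨hFi, hFv⟩ := ((HI.sum fun p => mode hA ((2 * Real.pi / L) • zv (md p).1) hr).cmul
    (L⁻¹ ^ 3 * (8 / 9))).add ((sqG hA hr).cmul (-32 / 81))
  set F : E3 → ℝ := fun v => L⁻¹ ^ 3 * (8 / 9) * (∑ p,
    cp (inner ℝ ((2 * Real.pi / L) • zv (md p).1) v) * (1 - ‖v‖ ^ 2 / r ^ 2) / ‖v‖)
      + -32 / 81 * ((1 - ‖v‖ ^ 2 / r ^ 2) ^ 2 / ‖v‖) with hF
  have hHi : Integrable ((ball (0 : E3) r).indicator F) :=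
    (integrable_indicator_iff measurableSet_ball).2 hFi
  have hgi : Integrable (fun q : E3 × E3 => ind t (L - t) q.2
      * (ball (0 : E3) r).indicator F (q.1 - q.2)) (volume.prod volume) :=
    (integrable_ind t (L - t)).convolution_integrand (ContinuousLinearMap.mul ℝ ℝ) hHi
  have hle : ∀ q : E3 × E3, ind t (L - t) q.2 * (ball (0 : E3) r).indicator F (q.1 - q.2)
      ≤ exk (orb L w md) q := by
    intro q
    have hex : 0 ≤ exk (orb L w md) q := by unfold exk; positivity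
    by_cases h1 : q.2 ∈ cube t (L - t)
    · by_cases h2 : q.1 - q.2 ∈ ball (0 : E3) r
      · rw [ind_of_mem h1, indicator_of_mem h2, one_mul]
        rw [mem_ball_zero_iff] at h2
        have h3 : q.2 ∈ cube (w + r) (L - r) := cube_mono hrt (by linarith) h1
        have h4 : q.2 ∈ cube w L := ball_subset_cube h3 (mem_ball_self hr)
        have h5 : q.1 ∈ cube w L := ball_subset_cube h3 (by
          rw [mem_ball, dist_eq_norm]; exact h2)
        have hG : 0 ≤ 8 / 9 * (1 - ‖q.1 - q.2‖ ^ 2 / r ^ 2) := by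
          refine mul_nonneg (by norm_num) (sub_nonneg.2 ?_)
          rw [div_le_one (by positivity)]
          exact pow_le_pow_left₀ (norm_nonneg _) h2.le 2
        have h6 := div_le_div_of_nonneg_right (gm_low hC hw hL md h5 h4 hG)
          (norm_nonneg (q.1 - q.2))
        refine le_trans (le_of_eq ?_) h6
        simp only [hF, ← Finset.sum_div, ← Finset.sum_mul]
        ring
      · rw [indicator_of_notMem h2, mul_zero]; exact hex
    · rw [ind_of_notMem h1, zero_mul]; exact hex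
  refine le_trans (le_of_eq ?_) (integral_mono hgi hi hle)
  rw [integral_prod_symm _ hgi]
  simp only [integral_const_mul, integral_sub_right_eq_self ((ball (0 : E3) r).indicator F)]
  rw [integral_mul_const, integral_ind (by linarith), integral_indicator measurableSet_ball, hFv]
  congr 1
  ring

/-- the loss of a mode -/
def QQ (κ : ℝ) : ℝ := 2 * κ / 9 - 4 * κ ^ 2 / 45 + 32 * κ ^ 3 / 1575

lemma QQ_mono {a b : ℝ} (h : a ≤ b) : QQ a ≤ QQ b := by
  have h1 : 0 ≤ 2 / 9 - 4 * (a + b) / 45 + 32 * (a ^ 2 + a * b + b ^ 2) / 1575 := by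
    nlinarith [sq_nonneg (a - b), sq_nonneg (a + b - 3)]
  have h2 := mul_nonneg (sub_nonneg.2 h) h1
  unfold QQ
  linarith

lemma int_QQ {K : ℝ} (M : ℝ) : ∫ y in (0 : ℝ)..M, y ^ 2 * QQ (y ^ 2 / K ^ 2)
    = 2 / 45 * M ^ 5 / K ^ 2 - 4 / 315 * M ^ 7 / K ^ 4 + 32 / 14175 * M ^ 9 / K ^ 6 := by
  have e : ∀ y : ℝ, y ^ 2 * QQ (y ^ 2 / K ^ 2)
      = 2 / 9 / K ^ 2 * y ^ 4 - 4 / 45 / K ^ 4 * y ^ 6 + 32 / 1575 / K ^ 6 * y ^ 8 := by
    intro y; unfold QQ; ring
  simp only [e]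
  rw [intervalIntegral.integral_add (Continuous.intervalIntegrable (by fun_prop) _ _)
      (Continuous.intervalIntegrable (by fun_prop) _ _),
    intervalIntegral.integral_sub (Continuous.intervalIntegrable (by fun_prop) _ _)
      (Continuous.intervalIntegrable (by fun_prop) _ _),
    intervalIntegral.integral_const_mul, intervalIntegral.integral_const_mul,
    intervalIntegral.integral_const_mul, integral_pow, integral_pow, integral_pow]
  push_cast; ring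

end EXC

open EXC

theorem st_EXC (hM : St_MODES) (hA : St_ANG) (hC : St_COS) : St_EXC := by
  refine ⟨200000, fun n hn w hw hw1 => ?_⟩
  have hn' : (200000 : ℝ) ≤ n := by exact_mod_cast hn
  have hn0 : (0 : ℝ) < n := by linarith
  have hg := gF_ge
  have hg' := gF_le
  have hpi := Real.pi_gt_d4
  have hpi' := Real.pi_le_four
  set K := gF * 1 * n / (2 * Real.pi) with hK
  have hK1 : 60000 ≤ K := by
    rw [hK, le_div_iff₀ (by positivity)]
    nlinarith
  have hK0 : 0 < K := by linarith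
  have hK3 : 8 * Real.pi * K ^ 3 = 3 * n ^ 3 := by
    rw [hK, div_pow, mul_pow, mul_pow, gF_cube]; field_simp; ring
  obtain ⟨md, hmd, hf⟩ := hM (n ^ 3) K hK0 (by push_cast; linarith)
  refine ⟨md, hmd, ?_, ?_⟩
  · have h1 := hf (fun y => y ^ 2) (by fun_prop)
      (fun a ha b _ hab => pow_le_pow_left₀ ha hab 2) (fun y _ => sq_nonneg y)
    simp only [← pow_add, integral_pow] at h1
    refine h1.trans (le_of_eq ?_)
    push_cast; ring
  have h1 := hf (fun y => QQ (y ^ 2 / K ^ 2)) (by unfold QQ; fun_prop)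
    (fun a ha b _ hab => QQ_mono (div_le_div_of_nonneg_right (pow_le_pow_left₀ ha hab 2)
      (sq_nonneg K)))
    (fun y _ => le_trans (le_of_eq (by unfold QQ; ring))
      (QQ_mono (a := 0) (div_nonneg (sq_nonneg y) (sq_nonneg K))))
  rw [int_QQ] at h1
  have hr : 0 < 4 / gF := by positivity
  have hr1 : 4 / gF ≤ 2 := by rw [div_le_iff₀ (by linarith)]; linarith
  have h2 := exch hA hC (L := n) (t := 3) hw (by linarith) hr (by linarith) (by linarith) hmd
  have e1 : ∀ m : Fin 3 → ℤ, ‖(2 * Real.pi / n) • zv m‖ ^ 2 * (4 / gF) ^ 2 / 72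
      - ‖(2 * Real.pi / n) • zv m‖ ^ 4 * (4 / gF) ^ 4 / 2880
      + ‖(2 * Real.pi / n) • zv m‖ ^ 6 * (4 / gF) ^ 6 / 201600 = QQ (‖zv m‖ ^ 2 / K ^ 2) := by
    intro m
    have e2 : ‖(2 * Real.pi / n) • zv m‖ = gF * (‖zv m‖ / K) := by
      rw [norm_smul, Real.norm_of_nonneg (by positivity), hK]; field_simp
    rw [e2]; unfold QQ; field_simp; ring
  simp only [e1, ← Finset.mul_sum, Finset.sum_sub_distrib, Finset.sum_const, Finset.card_univ,
    Fintype.card_fin, nsmul_eq_mul] at h2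
  push_cast at h2
  set S := ∑ p, QQ (‖zv (md p).1‖ ^ 2 / K ^ 2) with hS
  obtain ⟨ρ, hρ1, hρ2, hρ⟩ : ∃ ρ : ℝ, 1 ≤ ρ ∧ ρ ≤ 10001 / 10000 ∧ K + 6 = ρ * K :=
    ⟨(K + 6) / K, by rw [le_div_iff₀ hK0]; linarith, by rw [div_le_iff₀ hK0]; linarith,
      by field_simp⟩
  have h3 : S ≤ 1021 / 10000 * n ^ 3 := by
    refine h1.trans ?_
    have e3 : 8 * Real.pi * (2 / 45 * (K + 6) ^ 5 / K ^ 2 - 4 / 315 * (K + 6) ^ 7 / K ^ 4
        + 32 / 14175 * (K + 6) ^ 9 / K ^ 6)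
        = (2 / 45 * ρ ^ 5 - 4 / 315 * ρ ^ 7 + 32 / 14175 * ρ ^ 9) * (8 * Real.pi * K ^ 3) := by
      rw [hρ]; field_simp
    rw [e3, hK3, ← mul_assoc]
    refine mul_le_mul_of_nonneg_right ?_ (by positivity)
    have a5 : ρ ^ 5 ≤ (10001 / 10000) ^ 5 := pow_le_pow_left₀ (by linarith) hρ2 5
    have a9 : ρ ^ 9 ≤ (10001 / 10000) ^ 9 := pow_le_pow_left₀ (by linarith) hρ2 9
    have a7 : 1 ≤ ρ ^ 7 := one_le_pow₀ hρ1
    norm_num at a5 a9
    linarith
  have h4 : 131246 / 100000 ≤ Real.pi * (4 / gF) ^ 2 / 4 := by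
    rw [div_pow, le_div_iff₀ (by norm_num), ← mul_div_assoc, le_div_iff₀ (by positivity)]
    nlinarith
  have h5 : 9997 / 10000 * (n : ℝ) ^ 3 ≤ (n - 2 * 3) ^ 3 := by
    have a1 : (9999 / 10000 * n : ℝ) ^ 3 ≤ (n - 2 * 3) ^ 3 :=
      pow_le_pow_left₀ (by positivity) (by linarith) 3
    have a2 : (0 : ℝ) ≤ n ^ 3 := by positivity
    linarith
  set A := 4 * Real.pi * (4 / gF) ^ 2 with hAA
  have hA1 : 20999 / 1000 ≤ A := by rw [hAA]; linarith
  have h6 : A * (65623 / 1000000) ≤ (n : ℝ)⁻¹ ^ 3 * (8 / 9) * (A * (n ^ 3 * (1 / 4) - S))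
      + -32 / 81 * (A / 6) := by
    have a1 : A * (1479 / 10000 * n ^ 3) ≤ A * (n ^ 3 * (1 / 4) - S) :=
      mul_le_mul_of_nonneg_left (by linarith) (by linarith)
    have a2 := mul_le_mul_of_nonneg_left a1
      (show 0 ≤ (n : ℝ)⁻¹ ^ 3 * (8 / 9) by positivity)
    have a3 : (n : ℝ)⁻¹ ^ 3 * (8 / 9) * (A * (1479 / 10000 * n ^ 3))
        = 8 / 9 * (1479 / 10000) * A := by field_simp
    linarith
  have h7 := mul_le_mul h5 (le_trans (mul_le_mul_of_nonneg_right hA1 (by norm_num)) h6)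
    (by norm_num) (pow_nonneg (by linarith) 3)
  have a2 : (0 : ℝ) ≤ n ^ 3 := by positivity
  linarith

end Pool.Agent.Lib.HY
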