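import Pool.Agent.Lib.HY.Blue

/-! Gaussian sums against the full Gaussian integral. -/

open MeasureTheory Set Metric

noncomputable section

namespace Pool.Agent.Lib.HY

namespace LARGE

lemma ee_eq (t : ℝ) : ee t = fun u => Real.exp (-t ^ 2 * u ^ 2) := by
  funext u; unfold ee; congr 1; ring

lemma ee_nn (t u : ℝ) : 0 ≤ ee t u := (Real.exp_pos _).le

lemma ee_int (t : ℝ) (ht : 0 < t) : Integrable (ee t) := by
  rw [ee_eq]; exact integrable_exp_neg_mul_sq (by positivity)

lemma ee_val (t : ℝ) (ht : 0 < t) : ∫ u, ee t u = √Real.pi / t := by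
  rw [ee_eq, integral_gaussian, Real.sqrt_div Real.pi_pos.le, Real.sqrt_sq ht.le]

lemma sh_int (t a : ℝ) (ht : 0 < t) : Integrable (fun x => ee t (x - a)) :=
  (ee_int t ht).comp_sub_right a

lemma sh_val (t a : ℝ) (ht : 0 < t) : ∫ x, ee t (x - a) = √Real.pi / t := by
  rw [integral_sub_right_eq_self (ee t) a, ee_val t ht]

lemma ee_even (t x y : ℝ) : ee t (x - y) = ee t (y - x) := by
  unfold ee; congr 1; ring

lemma iv_le (t a b : ℝ) (ht : 0 < t) (hb : 0 ≤ b) :
    ∫ x in (0 : ℝ)..b, ee t (x - a) ≤ √Real.pi / t := by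
  rw [intervalIntegral.integral_of_le hb, ← sh_val t a ht]
  exact setIntegral_le_integral (sh_int t a ht) (Filter.Eventually.of_forall fun _ => ee_nn _ _)

lemma iv_nn (t a b : ℝ) (hb : 0 ≤ b) : 0 ≤ ∫ x in (0 : ℝ)..b, ee t (x - a) :=
  intervalIntegral.integral_nonneg hb fun _ _ => ee_nn _ _

lemma ee_le (t u : ℝ) : ee t u ≤ Real.exp (1 / 4) * Real.exp (t * u) := by
  unfold ee
  rw [← Real.exp_add]
  apply Real.exp_le_exp.2
  nlinarith [sq_nonneg (t * u + 1 / 2)]

lemma left_le (t a : ℝ) (ht : 0 < t) :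
    ∫ x in Iic (0 : ℝ), ee t (x - a) ≤ Real.exp (1 / 4) * Real.exp (-(t * a)) / t := by
  have h1 : ∀ x, ee t (x - a) ≤ (Real.exp (1 / 4) * Real.exp (-(t * a))) * Real.exp (t * x) := by
    intro x
    refine (ee_le t _).trans (le_of_eq ?_)
    rw [← Real.exp_add, ← Real.exp_add, ← Real.exp_add]; congr 1; ring
  calc ∫ x in Iic (0 : ℝ), ee t (x - a)
      ≤ ∫ x in Iic (0 : ℝ), (Real.exp (1 / 4) * Real.exp (-(t * a))) * Real.exp (t * x) :=
        setIntegral_mono (sh_int t a ht).integrableOn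
          ((integrableOn_exp_mul_Iic ht 0).const_mul _) h1
    _ = _ := by
        rw [integral_const_mul, integral_exp_mul_Iic ht]; simp; ring

lemma right_le (t a b : ℝ) (ht : 0 < t) :
    ∫ x in Ioi b, ee t (x - a) ≤ Real.exp (1 / 4) * Real.exp (-(t * (b - a))) / t := by
  have h1 : ∀ x, ee t (x - a) ≤ (Real.exp (1 / 4) * Real.exp (t * a)) * Real.exp (-t * x) := by
    intro x
    rw [ee_even]
    refine (ee_le t _).trans (le_of_eq ?_)
    rw [← Real.exp_add, ← Real.exp_add, ← Real.exp_add]; congr 1; ring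
  have ht' : -t < 0 := by linarith
  calc ∫ x in Ioi b, ee t (x - a)
      ≤ ∫ x in Ioi b, (Real.exp (1 / 4) * Real.exp (t * a)) * Real.exp (-t * x) :=
        setIntegral_mono (sh_int t a ht).integrableOn
          ((integrableOn_exp_mul_Ioi ht' b).const_mul _) h1
    _ = _ := by
        rw [integral_const_mul, integral_exp_mul_Ioi ht']
        have : Real.exp (-(t * (b - a))) = Real.exp (t * a) * Real.exp (-t * b) := by
          rw [← Real.exp_add]; congr 1; ring
        rw [this]; field_simp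

lemma iv_ge (t a b : ℝ) (ht : 0 < t) :
    √Real.pi / t - Real.exp (1 / 4) * Real.exp (-(t * a)) / t
      - Real.exp (1 / 4) * Real.exp (-(t * (b - a))) / t ≤ ∫ x in (0 : ℝ)..b, ee t (x - a) := by
  have hi := sh_int t a ht
  have h1 := intervalIntegral.integral_Iic_add_Ioi (b := 0) hi.integrableOn hi.integrableOn
  have h2 := intervalIntegral.integral_interval_add_Ioi (a := 0) (b := b) hi.integrableOn
    hi.integrableOn
  rw [sh_val t a ht] at h1
  have h3 := left_le t a ht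
  have h4 := right_le t a b ht
  linarith

lemma geo (n : ℕ) (t : ℝ) (ht : 0 < t) :
    ∑ i ∈ Finset.range n, Real.exp (-(t * ((i : ℝ) + 1 / 2))) ≤ 1 + 1 / t := by
  have hq : Real.exp (-t) < 1 := Real.exp_lt_one_iff.2 (by linarith)
  have hq0 := (Real.exp_pos (-t)).le
  have h1 : ∀ i : ℕ, Real.exp (-(t * ((i : ℝ) + 1 / 2))) ≤ Real.exp (-t) ^ i := by
    intro i
    rw [← Real.exp_nat_mul]
    apply Real.exp_le_exp.2
    nlinarith
  have h2 : Real.exp (-t) ≤ (1 + t)⁻¹ := by
    rw [Real.exp_neg]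
    exact inv_anti₀ (by linarith) (by have := Real.add_one_le_exp t; linarith)
  calc ∑ i ∈ Finset.range n, Real.exp (-(t * ((i : ℝ) + 1 / 2)))
      ≤ ∑ i ∈ Finset.range n, Real.exp (-t) ^ i := Finset.sum_le_sum fun i _ => h1 i
    _ ≤ ∑' i : ℕ, Real.exp (-t) ^ i :=
        (summable_geometric_of_lt_one hq0 hq).sum_le_tsum _ fun _ _ => by positivity
    _ = (1 - Real.exp (-t))⁻¹ := tsum_geometric_of_lt_one hq0 hq
    _ ≤ (1 - (1 + t)⁻¹)⁻¹ := by
        refine inv_anti₀ ?_ (by linarith)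
        have : (1 + t)⁻¹ < 1 := inv_lt_one_of_one_lt₀ (by linarith)
        linarith
    _ = 1 + 1 / t := by
        have h3 : 1 - (1 + t)⁻¹ = t / (1 + t) := by field_simp; ring
        rw [h3]; field_simp; ring

lemma geo2 (n : ℕ) (t : ℝ) (ht : 0 < t) :
    ∑ i ∈ Finset.range n, Real.exp (-(t * ((n : ℝ) - ((i : ℝ) + 1 / 2)))) ≤ 1 + 1 / t := by
  rw [← Finset.sum_range_reflect]
  refine le_trans (le_of_eq (Finset.sum_congr rfl fun i hi => ?_)) (geo n t ht)
  have hi' := Finset.mem_range.1 hi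
  have : ((n - 1 - i : ℕ) : ℝ) = n - 1 - i := by
    rw [Nat.sub_sub, Nat.cast_sub (by omega)]; push_cast; ring
  rw [this]; congr 1; ring

end LARGE

open LARGE in
theorem st_LARGE : St_LARGE := by
  refine ⟨2 * Real.exp (1 / 4), by positivity, fun n t ht => ?_⟩
  have hn : (0 : ℝ) ≤ n := Nat.cast_nonneg n
  have hD : ∀ x : ℝ, ∫ y in (0 : ℝ)..n, ee t (x - y) = ∫ y in (0 : ℝ)..n, ee t (y - x) := by
    intro x; simp_rw [ee_even t x]
  refine ⟨?_, ?_, ?_, ?_, ?_⟩
  · unfold DD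
    exact intervalIntegral.integral_nonneg hn fun x _ => by rw [hD]; exact iv_nn _ _ _ hn
  · unfold DD
    have h := intervalIntegral.norm_integral_le_of_norm_le_const (a := 0) (b := (n : ℝ))
      (C := √Real.pi / t) (f := fun x => ∫ y in (0 : ℝ)..n, ee t (x - y)) (fun x _ => by
        rw [hD, Real.norm_eq_abs, abs_of_nonneg (iv_nn _ _ _ hn)]
        exact iv_le _ _ _ ht hn)
    rw [sub_zero, abs_of_nonneg hn, mul_comm] at h
    exact (le_abs_self _).trans h
  · exact Finset.sum_nonneg fun i _ => iv_nn _ _ _ hn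
  · calc BB n t ≤ ∑ _i : Fin n, √Real.pi / t := Finset.sum_le_sum fun i _ => iv_le _ _ _ ht hn
      _ = _ := by simp
  · have h1 : ∑ i : Fin n, (√Real.pi / t
        - Real.exp (1 / 4) * Real.exp (-(t * (((i : ℕ) : ℝ) + 1 / 2))) / t
        - Real.exp (1 / 4) * Real.exp (-(t * ((n : ℝ) - (((i : ℕ) : ℝ) + 1 / 2)))) / t)
        ≤ BB n t := Finset.sum_le_sum fun i _ => iv_ge _ _ _ ht
    refine le_trans ?_ h1
    rw [Finset.sum_sub_distrib, Finset.sum_sub_distrib, ← Finset.sum_div, ← Finset.sum_div,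
      ← Finset.sum_div, ← Finset.mul_sum, ← Finset.mul_sum,
      Fin.sum_univ_eq_sum_range (fun i => Real.exp (-(t * ((i : ℝ) + 1 / 2)))) n,
      Fin.sum_univ_eq_sum_range (fun i => Real.exp (-(t * ((n : ℝ) - ((i : ℝ) + 1 / 2))))) n]
    have g1 := div_le_div_of_nonneg_right
      (mul_le_mul_of_nonneg_left (geo n t ht) (Real.exp_pos (1 / 4)).le) ht.le
    have g2 := div_le_div_of_nonneg_right
      (mul_le_mul_of_nonneg_left (geo2 n t ht) (Real.exp_pos (1 / 4)).le) ht.le
    have e1 : (∑ _i : Fin n, √Real.pi) / t = n * (√Real.pi / t) := by simp; ring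
    have e2 : 2 * Real.exp (1 / 4) * (1 + 1 / t) / t =
        Real.exp (1 / 4) * (1 + 1 / t) / t + Real.exp (1 / 4) * (1 + 1 / t) / t := by ring
    rw [e1, e2]
    linarith

end Pool.Agent.Lib.HY
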