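import Pool.Agent.Lib.HY.Blue

open MeasureTheory Set Metric Filter Topology

noncomputable section

namespace Pool.Agent.Lib.HY

open Pool.Agent.Lib.MP_f7be6d_mp Pool.Agent.Lib.MP_f7be6d_mp.Unit

namespace MAD

theorem icc {f : ℝ → ℝ} (hf : IntegrableOn f (Ioi 0)) {a b : ℝ} (ha : 0 ≤ a) :
    IntegrableOn f (Icc a b) :=
  (integrableOn_Icc_iff_integrableOn_Ioc).2 (hf.mono_set fun _ hx => lt_of_le_of_lt ha hx.1)

theorem ii {f : ℝ → ℝ} (hf : IntegrableOn f (Ioi 0)) {a b : ℝ} (ha : 0 ≤ a) (hab : a ≤ b) :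
    IntervalIntegrable f volume a b :=
  (intervalIntegrable_iff_integrableOn_Icc_of_le hab).2 (icc hf ha)

theorem piece {f G G' : ℝ → ℝ} (hf : IntegrableOn f (Ioi 0)) {a b : ℝ} (ha : 0 ≤ a) (hab : a ≤ b)
    (hG : ∀ x ∈ Icc a b, HasDerivAt G (G' x) x) (h : ∀ x ∈ Ioo a b, f x ≤ G' x) :
    ∫ x in a..b, f x ≤ G b - G a :=
  intervalIntegral.integral_le_sub_of_hasDeriv_right_of_le hab
    (fun x hx => (hG x hx).continuousAt.continuousWithinAt)
    (fun x hx => (hG x (Ioo_subset_Icc_self hx)).hasDerivWithinAt) (icc hf ha) h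

theorem d_inv (E : ℝ) {t : ℝ} (ht : t ≠ 0) :
    HasDerivAt (fun t : ℝ => E / t ^ 2) (-(2 * E / t ^ 3)) t := by
  have := (hasDerivAt_const t E).div (hasDerivAt_pow 2 t) (pow_ne_zero 2 ht)
  refine this.congr_deriv ?_
  simp only [Nat.cast_ofNat, Nat.add_one_sub_one, pow_one]
  field_simp
  ring

theorem exp_pi : Real.exp (-Real.pi) ≤ 433 / 10000 := by
  have h1 := Real.exp_one_gt_d9
  have h2 := Real.pi_gt_d4
  have h3 := Real.quadratic_le_exp_of_nonneg (x := 0.1415) (by norm_num)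
  have h4 : Real.exp 1 ^ 3 * Real.exp 0.1415 ≤ Real.exp Real.pi := by
    rw [← Real.exp_nat_mul, ← Real.exp_add]
    apply Real.exp_le_exp.2
    push_cast; linarith
  have h5 : (2.7182818283 : ℝ) ^ 3 ≤ Real.exp 1 ^ 3 := by gcongr
  have h6 : (2.7182818283 : ℝ) ^ 3 * (1 + 0.1415 + 0.1415 ^ 2 / 2) ≤
      Real.exp 1 ^ 3 * Real.exp 0.1415 := by gcongr
  rw [Real.exp_neg, inv_le_comm₀ (Real.exp_pos _) (by norm_num)]
  refine le_trans (by norm_num) (h6.trans h4)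

theorem cube {B D x e : ℝ} (hD0 : 0 ≤ D) (hD : D ≤ x) (hB0 : 0 ≤ B) (hB : B ≤ x) (he : x - e ≤ B) :
    -2 * B ^ 3 + D ^ 3 ≤ -x ^ 3 + 6 * x ^ 2 * e := by
  have h1 : D ^ 3 ≤ x ^ 3 := by gcongr
  have hx : 0 ≤ x := hD0.trans hD
  have h2 : x ^ 2 + x * B + B ^ 2 ≤ 3 * x ^ 2 := by nlinarith
  have h3 : (x - B) * (x ^ 2 + x * B + B ^ 2) ≤ e * (3 * x ^ 2) :=
    mul_le_mul (by linarith) h2 (by positivity) (by linarith)
  nlinarith

/-- the integral of a function with the three majorants -/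
theorem three {f : ℝ → ℝ} (hf : IntegrableOn f (Ioi 0)) {N c E k t₀ s : ℝ} (hN : 0 ≤ N)
    (hE : 0 ≤ E) (hk : 0 ≤ k) (h0 : 0 < t₀) (hs : t₀ ≤ s)
    (h1 : ∀ t, 0 < t → t ≤ t₀ → f t ≤ (c - 1) * N)
    (h2 : ∀ t, t₀ ≤ t → t ≤ s →
      f t ≤ -N + k * N * (s / t) ^ 3 * Real.exp (-(s ^ 4 / t ^ 2)) + 2 * E / t ^ 3)
    (h3 : ∀ t, s ≤ t → f t ≤ k * N * Real.exp (-t ^ 2) - N * (s / t) ^ 3 + 2 * E / t ^ 3) :
    ∫ t in Ioi 0, f t ≤ N * (c * t₀ - 3 / 2 * s + k * Real.exp (-s ^ 2) / s) + E / t₀ ^ 2 := by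
  have hs0 : 0 < s := h0.trans_le hs
  have p1 := piece hf (G := fun t => (c - 1) * N * t) (G' := fun _ => (c - 1) * N) le_rfl h0.le
    (fun x _ => by simpa using (hasDerivAt_id x).const_mul ((c - 1) * N))
    (fun x hx => h1 x hx.1 hx.2.le)
  have p2 := piece hf
    (G := fun t => -N * t + k * N / (2 * s) * Real.exp (-(s ^ 4 / t ^ 2)) - E / t ^ 2)
    (G' := fun t => -N + k * N * (s / t) ^ 3 * Real.exp (-(s ^ 4 / t ^ 2)) + 2 * E / t ^ 3) h0.le hs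
    (fun x hx => by
      have hx0 : x ≠ 0 := (h0.trans_le hx.1).ne'
      have := (((hasDerivAt_id x).const_mul (-N)).add
        ((d_inv (s ^ 4) hx0).neg.exp.const_mul (k * N / (2 * s)))).sub (d_inv E hx0)
      refine this.congr_deriv ?_
      simp only [Pi.neg_apply]
      field_simp
      ring)
    (fun x hx => h2 x hx.1.le hx.2.le)
  have p3 : ∀ R, s ≤ R → ∫ t in s..R, f t ≤ _ := fun R hR => piece hf
    (G := fun t => -(k * N / (2 * s)) * Real.exp (-t ^ 2) + (N * s ^ 3 / 2) / t ^ 2 - E / t ^ 2)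
    (G' := fun t => k * N * (t / s) * Real.exp (-t ^ 2) - N * (s / t) ^ 3 + 2 * E / t ^ 3) hs0.le hR
    (fun x hx => by
      have hx0 : x ≠ 0 := (hs0.trans_le hx.1).ne'
      have := (((hasDerivAt_pow 2 x).neg.exp.const_mul (-(k * N / (2 * s)))).add
        (d_inv (N * s ^ 3 / 2) hx0)).sub (d_inv E hx0)
      refine this.congr_deriv ?_
      simp only [Pi.neg_apply, Nat.cast_ofNat, Nat.add_one_sub_one, pow_one]
      field_simp
      ring)
    (fun x hx => by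
      have a1 : 1 ≤ x / s := (one_le_div hs0).2 hx.1.le
      have a2 : k * N * 1 * Real.exp (-x ^ 2) ≤ k * N * (x / s) * Real.exp (-x ^ 2) := by gcongr
      have := h3 x hx.1.le
      linarith)
  have lim := intervalIntegral_tendsto_integral_Ioi 0 hf (tendsto_id (x := atTop))
  have lim2 : Tendsto (fun R : ℝ => N * (c * t₀ - 3 / 2 * s + k * Real.exp (-s ^ 2) / s)
      + E / t₀ ^ 2 + (N * s ^ 3 / 2) / R ^ 2) atTop
      (𝓝 (N * (c * t₀ - 3 / 2 * s + k * Real.exp (-s ^ 2) / s) + E / t₀ ^ 2 + 0)) :=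
    tendsto_const_nhds.add (tendsto_const_nhds.div_atTop (tendsto_pow_atTop two_ne_zero))
  rw [add_zero] at lim2
  refine le_of_tendsto_of_tendsto lim lim2 ?_
  filter_upwards [eventually_ge_atTop s] with R hR
  have q3 := p3 R hR
  have e1 := intervalIntegral.integral_add_adjacent_intervals (ii hf le_rfl h0.le) (ii hf h0.le hs)
  have e2 := intervalIntegral.integral_add_adjacent_intervals (ii hf le_rfl hs0.le)
    (ii hf hs0.le hR)
  have e3 : s ^ 4 / s ^ 2 = s ^ 2 := by field_simp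
  have e4 : N * s ^ 3 / 2 / s ^ 2 = N * s / 2 := by field_simp
  have e5 : N * (k * Real.exp (-s ^ 2) / s) = 2 * (k * N / (2 * s) * Real.exp (-s ^ 2)) := by
    field_simp
  have b1 : 0 ≤ k * N / (2 * s) * Real.exp (-(s ^ 4 / t₀ ^ 2)) := by positivity
  have b2 : 0 ≤ k * N / (2 * s) * Real.exp (-R ^ 2) := by positivity
  have b3 : 0 ≤ E / R ^ 2 := by positivity
  simp only [e3, e4, id] at p1 p2 q3 ⊢
  rw [mul_add, e5]
  linarith

end MAD

open MAD in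
theorem st_MAD (hR : St_REP) (hS : St_SMALL) (hL : St_LARGE) (hT : St_THETA) : St_MAD := by
  obtain ⟨c, hc, hS⟩ := hS
  obtain ⟨d, hd, hL⟩ := hL
  have hpi := Real.pi_gt_d4
  obtain ⟨s, hs⟩ : ∃ s, s = √Real.pi := ⟨_, rfl⟩
  have hss : s ^ 2 = Real.pi := by rw [hs]; exact Real.sq_sqrt Real.pi_pos.le
  have hs1 : 1 ≤ s := by rw [hs]; exact Real.one_le_sqrt.2 (by linarith)
  have hs0 : 0 < s := by linarith
  obtain ⟨t₀, ht⟩ : ∃ t₀ : ℝ, t₀ = 1 / (1 + 2500 * c) := ⟨_, rfl⟩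
  have h0 : 0 < t₀ := by rw [ht]; positivity
  have h1 : t₀ ≤ 1 := by rw [ht, div_le_one (by positivity)]; linarith
  have h2 : c * t₀ ≤ 4 / 10000 := by
    rw [ht, mul_one_div, div_le_iff₀ (by positivity)]; linarith
  obtain ⟨F, hF⟩ : ∃ F : ℝ, F = 3 * s ^ 2 * d * (1 + 1 / t₀) := ⟨_, rfl⟩
  have hF0 : 0 ≤ F := by rw [hF]; positivity
  obtain ⟨n₀, hn₀⟩ := exists_nat_ge (2500 * (F / t₀ ^ 2))
  refine ⟨n₀, fun n hn => ?_⟩
  have hn' : (n₀ : ℝ) ≤ n := Nat.cast_le.2 hn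
  have hn0 : (0 : ℝ) ≤ n := Nat.cast_nonneg n
  obtain ⟨hi, he⟩ := hR n
  have hBD : ∀ t, t₀ ≤ t → -2 * BB n t ^ 3 + DD n t ^ 3 ≤
      -(n ^ 3 * (s / t) ^ 3) + 2 * (F * n ^ 2) / t ^ 3 := fun t htt => by
    have ht0 : 0 < t := h0.trans_le htt
    obtain ⟨a1, a2, a3, a4, a5⟩ := hL n t ht0
    have a6 := cube a1 a2 a3 a4 a5
    rw [← hs] at a6
    have a7 : 6 * (n * (s / t)) ^ 2 * (d * (1 + 1 / t) / t) ≤
        6 * (n * (s / t)) ^ 2 * (d * (1 + 1 / t₀) / t) := by gcongr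
    have a8 : 6 * (n * (s / t)) ^ 2 * (d * (1 + 1 / t₀) / t) = 2 * (F * n ^ 2) / t ^ 3 := by
      rw [hF]; field_simp; ring
    rw [mul_pow] at a6
    linarith
  have key := three hi (N := (n : ℝ) ^ 3) (c := c) (E := F * n ^ 2) (k := 654 / 100) (t₀ := t₀)
    (s := s) (by positivity) (by positivity) (by norm_num) h0 (h1.trans hs1)
    (fun t a b => by
      have := hS n t a (b.trans h1)
      unfold HT; linarith)
    (fun t a b => by
      have a1 := (hT n t (h0.trans_le a)).2 (hs ▸ b)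
      have a2 := hBD t a
      have e : Real.pi ^ 2 = s ^ 4 := by rw [← hss]; ring
      rw [← hs, e] at a1
      unfold HT; linarith)
    (fun t a => by
      have a1 := (hT n t (hs0.trans_le a)).1 (hs ▸ a)
      have a2 := hBD t ((h1.trans hs1).trans a)
      unfold HT; linarith)
  rw [← he, ← hs, hss] at key
  have b1 : 654 / 100 * Real.exp (-Real.pi) / s ≤ 9015 / 100000 * s := by
    rw [div_le_iff₀ hs0]
    have := exp_pi
    nlinarith
  have b2 : F * n ^ 2 / t₀ ^ 2 ≤ 4 / 10000 * n ^ 3 := by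
    have : F / t₀ ^ 2 ≤ 4 / 10000 * n := by linarith
    calc F * (n : ℝ) ^ 2 / t₀ ^ 2 = F / t₀ ^ 2 * (n : ℝ) ^ 2 := by ring
      _ ≤ 4 / 10000 * (n : ℝ) * (n : ℝ) ^ 2 := by gcongr
      _ = _ := by ring
  have hN : (0 : ℝ) ≤ n ^ 3 := by positivity
  have b3 : (n : ℝ) ^ 3 * (c * t₀ - 3 / 2 * s + 654 / 100 * Real.exp (-Real.pi) / s) ≤
      n ^ 3 * (-(14094 / 10000) * s) := by
    gcongr; linarith
  have b4 : (n : ℝ) ^ 3 * 1 ≤ n ^ 3 * s := by gcongr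
  refine le_of_mul_le_mul_left ?_ hs0
  linarith

end Pool.Agent.Lib.HY
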