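import Pool.Agent.Lib.HY.Blue

/-! Assembly: concavity in the dilation and the intermediate value theorem. -/

open MeasureTheory Set Metric

noncomputable section

namespace Pool.Agent.Lib.HY

open Pool.Agent.Lib.MP_f7be6d_mp Pool.Agent.Lib.MP_f7be6d_mp.Unit

lemma gF_le : gF ≤ 30937 / 10000 := by
  refine le_of_pow_le_pow_left₀ (n := 3) (by norm_num) (by norm_num) ?_
  rw [gF_cube]
  nlinarith [Real.pi_lt_d6, Real.pi_pos]

lemma gam_le : gam ≤ 57426 / 10000 := by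
  have h0 : 0 ≤ gF := le_trans (by norm_num) gF_ge
  rw [gam_eq]
  nlinarith [gF_le]

lemma ind_tf (n : ℕ) : IsTFDensity (n ^ 3) (ind 0 n) where
  nonneg := ind_nonneg _ _
  memL53 := (coul_ind _ _).mem
  memL1 := integrable_ind _ _
  mass := by
    rw [integral_ind (Nat.cast_nonneg n)]
    push_cast
    simp

lemma KT_ind (n : ℕ) : KT (ind 0 n) = gam * n ^ 3 := by
  have e : ∀ x, ind 0 n x ^ (5 / 3 : ℝ) = ind 0 n x := by
    intro x
    by_cases h : x ∈ cube 0 (n : ℝ)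
    · rw [ind_of_mem h, Real.one_rpow]
    · rw [ind_of_notMem h, Real.zero_rpow (by norm_num)]
  unfold KT
  simp only [e]
  rw [integral_ind (Nat.cast_nonneg n), sub_zero]

lemma KT_nonneg {N : ℕ} {ρ : E3 → ℝ} (h : IsTFDensity N ρ) : 0 ≤ KT ρ :=
  mul_nonneg (le_trans (by norm_num) gam_ge)
    (integral_nonneg fun x => Real.rpow_nonneg (h.nonneg x) _)

lemma cc_injective {n : ℕ} : Function.Injective (cc (n := n)) := by
  intro j j' h
  by_contra hne
  have h1 := le_dist_ctr (a := 1) one_pos (idx_injective.ne hne)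
  unfold cc at h
  rw [h, sub_self, norm_zero] at h1
  exact absurd h1 (by norm_num)

theorem goal (hSCT : St_SCT) (hSCQ : St_SCQ) (hCG : St_CG) (hTFL : St_TFL) (hMAD : St_MAD)
    (hQU : St_QU) : Goal := by
  intro e B
  obtain ⟨n1, h1⟩ := hTFL (50 / 83) (1 / 1000) (by norm_num) (by norm_num)
  obtain ⟨n2, h2⟩ := hTFL (2 / 5) 1 (by norm_num) (by norm_num)
  obtain ⟨n3, h3⟩ := hMAD
  obtain ⟨n4, h4⟩ := exists_nat_ge (1000 * (|e| + |B| + 1))
  obtain ⟨n, hn, u, hu, hkin, hW⟩ := hQU (max (max n1 n2) (max n3 n4))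
  have hn1 : n1 ≤ n := ((le_max_left _ _).trans (le_max_left _ _)).trans hn
  have hn2 : n2 ≤ n := ((le_max_right _ _).trans (le_max_left _ _)).trans hn
  have hn3 : n3 ≤ n := ((le_max_left _ _).trans (le_max_right _ _)).trans hn
  have hn4 : n4 ≤ n := ((le_max_right _ _).trans (le_max_right _ _)).trans hn
  have ha := abs_nonneg e
  have hb := abs_nonneg B
  have hnr : 1000 * (|e| + |B| + 1) ≤ (n : ℝ) := h4.trans (by exact_mod_cast hn4)
  have hn1r : (1 : ℝ) ≤ n := by linarith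
  have hn3r : 1000 * (|e| + |B| + 1) ≤ (n : ℝ) ^ 3 :=
    hnr.trans (le_self_pow₀ hn1r (by norm_num))
  have hnpos : 1 ≤ n := by exact_mod_cast hn1r
  have hcard : Fintype.card (Fin 3 → Fin n) = n ^ 3 := by
    simp only [Fintype.card_fun, Fintype.card_fin]
  set ε : Fin (n ^ 3) ≃ (Fin 3 → Fin n) := (Fintype.equivFinOfCardEq hcard).symm
  have : Nonempty {ρ : E3 → ℝ // IsTFDensity (n ^ 3) ρ} := ⟨⟨_, ind_tf n⟩⟩
  set F : ℝ → {ρ : E3 → ℝ // IsTFDensity (n ^ 3) ρ} → ℝ := fun s ρ => s * KT ρ.1 + CC n ρ.1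
    with hF
  have hbdd : ∀ s, 4 / 25 < s → BddBelow (range (F s)) := by
    intro s hs
    refine ⟨(9 / 5 - 39244 / 100000 / (2 / 5) ^ 3 - 1) * n ^ 3, ?_⟩
    rintro _ ⟨ρ, rfl⟩
    have a1 := h2 n hn2 ρ.1 ρ.2
    have a2 := mul_le_mul_of_nonneg_right hs.le (KT_nonneg ρ.2)
    simp only [hF]
    linarith
  set g : ℝ → ℝ := fun s => ⨅ ρ, F s ρ with hg
  have hconc : ConcaveOn ℝ (Ioi (4 / 25 : ℝ)) g := by
    refine ⟨convex_Ioi _, fun x hx y hy a b ha hb hab => ?_⟩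
    refine le_ciInf fun ρ => ?_
    have a1 := mul_le_mul_of_nonneg_left (ciInf_le (hbdd x hx) ρ) ha
    have a2 := mul_le_mul_of_nonneg_left (ciInf_le (hbdd y hy) ρ) hb
    have e1 : F (a • x + b • y) ρ = a * F x ρ + b * F y ρ := by
      simp only [hF, smul_eq_mul]
      linear_combination (-(CC n ρ.1)) * hab
    rw [e1]
    exact add_le_add a1 a2
  have hsub : Icc (1 / 5 : ℝ) ((50 / 83) ^ 2) ⊆ Ioi (4 / 25) := fun s hs =>
    lt_of_lt_of_le (by norm_num) hs.1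
  have hcont : ContinuousOn (fun s => s * g s) (Icc (1 / 5 : ℝ) ((50 / 83) ^ 2)) :=
    continuousOn_id.mul ((hconc.continuousOn isOpen_Ioi).mono hsub)
  have hlow : 3 / 1000 * (n : ℝ) ^ 3 ≤ g ((50 / 83) ^ 2) := by
    refine le_ciInf fun ρ => le_trans ?_ (h1 n hn1 ρ.1 ρ.2)
    exact mul_le_mul_of_nonneg_right (by norm_num) (by positivity)
  have hup : g (1 / 5) ≤ -(1 / 4) * (n : ℝ) ^ 3 := by
    refine (ciInf_le (hbdd _ (by norm_num)) ⟨_, ind_tf n⟩).trans ?_
    simp only [hF]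
    rw [KT_ind]
    have a1 := h3 n hn3
    have a2 := mul_le_mul_of_nonneg_right gam_le (show (0 : ℝ) ≤ n ^ 3 by positivity)
    linarith
  obtain ⟨s, hs, hse⟩ := intermediate_value_Icc (by norm_num) hcont
    (show e ∈ Icc (1 / 5 * g (1 / 5)) ((50 / 83) ^ 2 * g ((50 / 83) ^ 2)) from
      ⟨by linarith [neg_abs_le e], by linarith [le_abs_self e]⟩)
  have hs0 : 0 < s := lt_of_lt_of_le (by norm_num) hs.1
  refine ⟨n ^ 3, fun j => s⁻¹ • cc (ε j), Nat.one_le_pow _ _ hnpos, ?_, ?_, ?_⟩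
  · exact (smul_right_injective E3 (inv_ne_zero hs0.ne')).comp (cc_injective.comp ε.injective)
  · rw [hSCT _ _ _ s hs0, ← hse]
    have hm : Monotone fun x : ℝ => ((s * x : ℝ) : EReal) := fun x y h =>
      EReal.coe_le_coe_iff.2 (mul_le_mul_of_nonneg_left h hs0.le)
    have hc : ContinuousAt (fun x : ℝ => ((s * x : ℝ) : EReal)) (⨅ ρ, F s ρ) :=
      (continuous_coe_real_ereal.comp (continuous_const.mul continuous_id)).continuousAt
    have := hm.map_ciInf_of_continuousAt hc (hbdd s (hsub hs))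
    simp only [hg]
    rw [this]
    refine iInf_congr fun ρ => ?_
    rw [hCG]
    simp only [hF]
    congr 1
    ring
  · refine lt_of_le_of_lt (hSCQ _ _ _ u s hu hs0) ?_
    rw [EReal.coe_lt_coe_iff, hCG]
    have hk0 : 0 ≤ kin u := Finset.sum_nonneg fun _ _ => Finset.sum_nonneg fun _ _ =>
      Finset.sum_nonneg fun _ _ => integral_nonneg fun _ => sq_nonneg _
    have a1 : s * kin u ≤ (50 / 83) ^ 2 * (57436 / 10000 * n ^ 3) :=
      mul_le_mul hs.2 hkin hk0 (by norm_num)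
    have a2 : s * kin u + (CC n (dens u) - 1 / 2 * ∫ q, exk u q ∂(volume.prod volume))
        ≤ -(1 / 100 * n ^ 3) := by nlinarith
    have a3 := mul_le_mul_of_nonneg_left a2 hs0.le
    have a4 := mul_le_mul_of_nonneg_right hs.1 (show (0 : ℝ) ≤ 1 / 100 * n ^ 3 by positivity)
    nlinarith [neg_abs_le B]

end Pool.Agent.Lib.HY
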