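import Pool.Agent.Lib.HY.Blue

/-! Filling the Fermi ball: sums of a monotone function over the modes. -/

open MeasureTheory Set Metric

noncomputable section

namespace Pool.Agent.Lib.HY

open Pool.Agent.Lib.MP_f7be6d_mp Pool.Agent.Lib.MP_f7be6d_mp.Unit

namespace MODES

lemma int_ball {f : ℝ → ℝ} (hc : Continuous f) (h0 : ∀ y, 0 ≤ y → 0 ≤ f y) {r : ℝ} (hr : 0 < r) :
    ∫ x in closedBall (0 : E3) r, f (‖x‖ + 2)
      ≤ 4 * Real.pi * ∫ y in (0 : ℝ)..(r + 2), y ^ 2 * f y := by
  have e : ∫ x in closedBall (0 : E3) r, f (‖x‖ + 2)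
      = ∫ x : E3, (Iic r).indicator (fun y : ℝ => f (y + 2)) ‖x‖ := by
    rw [← integral_indicator measurableSet_closedBall]
    congr 1; funext x
    by_cases hx : ‖x‖ ≤ r
    · rw [indicator_of_mem (mem_closedBall_zero_iff.2 hx), indicator_of_mem (mem_Iic.2 hx)]
    · rw [indicator_of_notMem (mt mem_closedBall_zero_iff.1 hx),
        indicator_of_notMem (mt mem_Iic.1 hx)]
  rw [e, integral_fun_norm_addHaar, finrank_E3, volume_real_ball3 _ zero_le_one]
  have e2 : ∫ y in Ioi (0 : ℝ), y ^ (3 - 1) • (Iic r).indicator (fun y : ℝ => f (y + 2)) y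
      = ∫ y in (0 : ℝ)..r, y ^ 2 * f (y + 2) := by
    rw [intervalIntegral.integral_of_le hr.le, ← Ioi_inter_Iic,
      ← setIntegral_indicator measurableSet_Iic]
    congr 1; funext y
    by_cases hy : y ∈ Iic r
    · rw [indicator_of_mem hy, indicator_of_mem hy, smul_eq_mul]
    · rw [indicator_of_notMem hy, indicator_of_notMem hy, smul_zero]
  rw [e2]
  have h1 : ∫ y in (0 : ℝ)..r, y ^ 2 * f (y + 2)
      ≤ ∫ y in (0 : ℝ)..r, (y + 2) ^ 2 * f (y + 2) := by
    refine intervalIntegral.integral_mono_on hr.le (Continuous.intervalIntegrable (by fun_prop) _ _)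
      (Continuous.intervalIntegrable (by fun_prop) _ _) fun y hy => ?_
    exact mul_le_mul_of_nonneg_right (pow_le_pow_left₀ hy.1 (by linarith) 2)
      (h0 _ (by linarith [hy.1]))
  rw [intervalIntegral.integral_comp_add_right (fun y : ℝ => y ^ 2 * f y) 2, zero_add] at h1
  have hi : ∀ a b : ℝ, IntervalIntegrable (fun y : ℝ => y ^ 2 * f y) volume a b :=
    fun a b => Continuous.intervalIntegrable (by fun_prop) _ _
  have h2 := intervalIntegral.integral_add_adjacent_intervals (hi 0 2) (hi 2 (r + 2))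
  have h3 : 0 ≤ ∫ y in (0 : ℝ)..2, y ^ 2 * f y :=
    intervalIntegral.integral_nonneg (by norm_num) fun y hy =>
      mul_nonneg (sq_nonneg y) (h0 y hy.1)
  have h4 := mul_le_mul_of_nonneg_left (h1.trans (show _ ≤ ∫ y in (0 : ℝ)..(r + 2), y ^ 2 * f y by
    linarith)) (show 0 ≤ 4 * Real.pi by positivity)
  refine le_trans (le_of_eq ?_) h4
  simp only [nsmul_eq_mul, smul_eq_mul]
  push_cast; ring

end MODES

theorem st_MODES : St_MODES := by
  classical
  intro N K hK hN
  set A : Finset (Fin 3 → ℤ) :=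
    (Fintype.piFinset fun _ : Fin 3 => Finset.Icc (-⌈K + 2⌉) ⌈K + 2⌉).filter
      fun m => ‖zv m‖ ≤ K + 2 with hA
  have hmem : ∀ m, m ∈ A ↔ ‖zv m‖ ≤ K + 2 := by
    intro m
    rw [hA, Finset.mem_filter, and_iff_right_iff_imp, Fintype.mem_piFinset]
    intro h i
    have h1 := abs_le.1 ((abs_apply_le (zv m) i).trans (h.trans (Int.le_ceil _)))
    simp only [zv] at h1
    rw [Finset.mem_Icc]
    exact ⟨by exact_mod_cast h1.1, by exact_mod_cast h1.2⟩
  have hcard : 4 * Real.pi / 3 * K ^ 3 ≤ A.card := by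
    rw [← volume_real_ball3 0 hK.le]
    have hsub : ball (0 : E3) K ⊆ ⋃ m ∈ A, cell 1 m := by
      intro x hx
      have h1 := mem_cell_floor one_pos x
      refine mem_biUnion (Finset.mem_coe.2 ((hmem _).2 ?_)) h1
      have h2 := norm_sub_zv_le h1
      have h3 := norm_sub_le x (x - zv fun i => ⌊x i / 1⌋)
      rw [sub_sub_cancel] at h3
      rw [mem_ball_zero_iff] at hx
      linarith
    calc volume.real (ball (0 : E3) K) ≤ volume.real (⋃ m ∈ A, cell 1 m) :=
          measureReal_mono hsub (measure_biUnion_lt_top A.finite_toSet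
            fun m _ => (volume_bx_ne_top _ _).lt_top).ne
      _ ≤ ∑ m ∈ A, volume.real (cell 1 m) := measureReal_biUnion_finset_le _ _
      _ = A.card := by simp [volume_real_cell zero_le_one]
  have hle : Fintype.card (Fin N) ≤ (A ×ˢ (Finset.univ : Finset (Fin 2))).card := by
    rw [Fintype.card_fin, Finset.card_product, Finset.card_univ, Fintype.card_fin]
    have : (N : ℝ) ≤ (A.card * 2 : ℕ) := by push_cast; linarith
    exact_mod_cast this
  obtain ⟨g, hg⟩ := Function.Embedding.exists_of_card_le_finset hle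
  have hgA : ∀ p, g p ∈ A ×ˢ (Finset.univ : Finset (Fin 2)) := fun p =>
    Finset.mem_coe.1 (hg ⟨p, rfl⟩)
  refine ⟨g, g.injective, fun f hc hm h0 => ?_⟩
  have hsum : ∑ m ∈ A, f ‖zv m‖ ≤ 4 * Real.pi * ∫ y in (0 : ℝ)..(K + 6), y ^ 2 * f y := by
    have hi : IntegrableOn (fun x : E3 => f (‖x‖ + 2)) (closedBall 0 (K + 4)) :=
      (Continuous.continuousOn (by fun_prop)).integrableOn_compact (isCompact_closedBall _ _)
    have hsub : ∀ m ∈ A, cell 1 m ⊆ closedBall (0 : E3) (K + 4) := by
      intro m hm x hx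
      have h2 := norm_sub_zv_le hx
      have h3 := norm_add_le (x - zv m) (zv m)
      rw [sub_add_cancel] at h3
      rw [mem_closedBall_zero_iff]
      linarith [(hmem m).1 hm]
    calc ∑ m ∈ A, f ‖zv m‖ ≤ ∑ m ∈ A, ∫ x in cell 1 m, f (‖x‖ + 2) := by
          refine Finset.sum_le_sum fun m hm' => ?_
          have h1 := setIntegral_mono_on (μ := volume) (s := cell 1 m)
            (f := fun _ => f ‖zv m‖) (integrableOn_const (volume_bx_ne_top _ _))
            (hi.mono_set (hsub m hm')) (measurableSet_cell 1 m) fun x hx => by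
              have h2 := norm_sub_zv_le hx
              have h3 := norm_sub_le x (x - zv m)
              rw [sub_sub_cancel] at h3
              exact hm (norm_nonneg _) (mem_Ici.2 (by positivity)) (by linarith)
          rwa [setIntegral_const, volume_real_cell zero_le_one, one_pow, one_smul] at h1
      _ = ∫ x in ⋃ m ∈ A, cell 1 m, f (‖x‖ + 2) :=
          (integral_biUnion_finset A (fun m _ => measurableSet_cell 1 m)
            (fun m _ m' _ h => disjoint_cell one_pos h)
            fun m hm' => hi.mono_set (hsub m hm')).symm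
      _ ≤ ∫ x in closedBall (0 : E3) (K + 4), f (‖x‖ + 2) :=
          setIntegral_mono_set hi (Filter.Eventually.of_forall fun x => h0 _ (by positivity))
            (Filter.Eventually.of_forall (iUnion₂_subset hsub))
      _ ≤ _ := by
          have := MODES.int_ball hc h0 (r := K + 4) (by linarith)
          rwa [show K + 4 + 2 = K + 6 by ring] at this
  calc ∑ p, f ‖zv (g p).1‖ = ∑ q ∈ Finset.univ.map g, f ‖zv q.1‖ := by
        rw [Finset.sum_map]
    _ ≤ ∑ q ∈ A ×ˢ (Finset.univ : Finset (Fin 2)), f ‖zv q.1‖ := by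
        refine Finset.sum_le_sum_of_subset_of_nonneg (fun q hq => ?_)
          fun _ _ _ => h0 _ (norm_nonneg _)
        obtain ⟨p, _, rfl⟩ := Finset.mem_map.1 hq
        exact hgA p
    _ = 2 * ∑ m ∈ A, f ‖zv m‖ := by
        rw [Finset.sum_product, Finset.mul_sum]
        simp
    _ ≤ _ := by linarith

end Pool.Agent.Lib.HY
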