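import Pool.Agent.Lib.HY.Blue

/-! Onsager's lower bound with smeared unit charges. -/

open MeasureTheory Set Metric

noncomputable section

namespace Pool.Agent.Lib.HY

open Pool.Agent.Lib.MP_f7be6d_mp Pool.Agent.Lib.MP_f7be6d_mp.Unit

namespace ONS

lemma abs_mu (x : E3) : |mu x| ≤ 6 / Real.pi := by
  have := Real.pi_pos
  unfold mu
  split_ifs
  · rw [abs_of_pos (by positivity)]
  · rw [abs_zero]; positivity

lemma coul_tr (h : St_BALL) (c : E3) : Coul (fun x => mu (x - c)) :=
  Coul.of_bdd (h.1.int.comp_sub_right c) fun _ => abs_mu _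

lemma coul_nu (h : St_BALL) (n : ℕ) : Coul (nu n) := by
  refine Coul.of_bdd (A := ∑ _j : Fin 3 → Fin n, 6 / Real.pi)
    (integrable_finsetSum _ fun j _ => (coul_tr h (cc j)).int) fun x => ?_
  exact (Finset.abs_sum_le_sum_abs _ _).trans (Finset.sum_le_sum fun j _ => abs_mu _)

lemma pot_tr (h : St_BALL) (c x : E3) : pot (fun y => mu (y - c)) x = PP ‖x - c‖ := by
  rw [← h.2.2.1]
  unfold pot
  rw [← integral_sub_right_eq_self (fun y => mu y / ‖x - c - y‖) c]
  congr 1; funext y
  congr 2; abel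

lemma pot_nu (h : St_BALL) (n : ℕ) (x : E3) :
    pot (nu n) x = ∑ j : Fin 3 → Fin n, PP ‖x - cc j‖ := by
  simp only [← pot_tr h]
  unfold pot nu
  rw [← integral_finsetSum _ fun j _ => (coul_tr h (cc j)).integrable_pot x]
  congr 1; funext y
  rw [Finset.sum_div]

lemma WW_eq (v : E3) : WW v = 1 / ‖v‖ - PP ‖v‖ := by
  unfold WW PP
  split_ifs <;> ring

lemma WS_eq (h : St_BALL) (n : ℕ) (x : E3) : WS n x = Vl 1 n x - pot (nu n) x := by
  rw [pot_nu h]
  unfold WS Vl
  rw [← Finset.sum_sub_distrib]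
  exact Finset.sum_congr rfl fun j _ => WW_eq _

lemma one_le {n : ℕ} {i j : Fin 3 → Fin n} (hij : i ≠ j) : 1 ≤ ‖cc i - cc j‖ :=
  le_dist_ctr one_pos fun e => hij (idx_injective e)

lemma pair (h : St_BALL) {n : ℕ} (i j : Fin 3 → Fin n) :
    ∫ x, mu (x - cc i) * PP ‖x - cc j‖ = (if i = j then 12 / 5 else 0) + 1 / ‖cc i - cc j‖ := by
  by_cases hij : i = j
  · subst hij
    rw [integral_sub_right_eq_self (fun y => mu y * PP ‖y‖) (cc i), h.2.2.2]
    simp
  · have h1 := one_le hij
    have e : (fun x => mu (x - cc i) * PP ‖x - cc j‖) = fun x => mu (x - cc i) / ‖cc j - x‖ := by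
      funext x
      by_cases hx : ‖x - cc i‖ < 1 / 2
      · have h2 : ‖cc i - cc j‖ ≤ ‖x - cc i‖ + ‖x - cc j‖ := by
          have := norm_sub_le (x - cc j) (x - cc i)
          rw [show x - cc j - (x - cc i) = cc i - cc j by abel] at this
          linarith
        unfold PP
        rw [if_neg (by linarith), norm_sub_rev (cc j)]
        ring
      · unfold mu
        rw [if_neg hx]; simp
    have h3 := pot_tr h (cc i) (cc j)
    unfold pot at h3
    rw [e, h3, if_neg hij, zero_add, norm_sub_rev]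
    unfold PP
    rw [if_neg (by linarith)]

lemma self_nu (h : St_BALL) (n : ℕ) : cI (nu n) (nu n) = 12 / 5 * n ^ 3 + 2 * UU n := by
  have hi : ∀ i j : Fin 3 → Fin n, Integrable (fun x => mu (x - cc i) * PP ‖x - cc j‖) := by
    intro i j
    simp only [← pot_tr h]
    exact integrable_mul_pot (coul_tr h (cc i)).int (coul_tr h (cc j))
  rw [cI_eq_pot (coul_nu h n).int (coul_nu h n)]
  have e : (fun x => nu n x * pot (nu n) x) = fun x =>
      ∑ i : Fin 3 → Fin n, ∑ j : Fin 3 → Fin n, mu (x - cc i) * PP ‖x - cc j‖ := by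
    funext x
    rw [pot_nu h, nu, Finset.sum_mul_sum]
  rw [e, integral_finsetSum _ fun i _ => integrable_finsetSum _ fun j _ => hi i j]
  have e2 : ∀ i : Fin 3 → Fin n, ∫ x, ∑ j : Fin 3 → Fin n, mu (x - cc i) * PP ‖x - cc j‖
      = 12 / 5 + ∑ j : Fin 3 → Fin n, 1 / ‖cc i - cc j‖ := by
    intro i
    rw [integral_finsetSum _ fun j _ => hi i j]
    simp only [pair h, Finset.sum_add_distrib, Finset.sum_ite_eq, Finset.mem_univ, if_true]
  simp only [e2, Finset.sum_add_distrib, Finset.sum_const, Finset.card_univ, Fintype.card_fun,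
    Fintype.card_fin, nsmul_eq_mul]
  unfold UU
  push_cast
  ring

end ONS

theorem st_ONS (hB : St_BALL) : St_ONS := by
  intro n ρ hρ
  have hν := ONS.coul_nu hB n
  have i1 := integrable_Vl_mul hρ 1 n
  have i2 := integrable_mul_pot hρ.int hν
  have e : (fun x => ρ x * WS n x) = fun x => Vl 1 n x * ρ x - ρ x * pot (nu n) x := by
    funext x
    rw [ONS.WS_eq hB]; ring
  refine ⟨hν, ?_, ?_⟩
  · rw [e]; exact i1.sub i2
  · rw [e, integral_sub i1 i2, cI_sub_self hρ hν, ONS.self_nu hB, ← cI_eq_pot hρ.int hν]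
    unfold CC
    apply le_of_eq; ring

end Pool.Agent.Lib.HY
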