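import Pool.Agent.Lib.HY.B_MAIN

/-! The plane-wave trial state of the base lattice. -/

open MeasureTheory Set Metric

noncomputable section

namespace Pool.Agent.Lib.HY

open Pool.Agent.Lib.MP_f7be6d_mp Pool.Agent.Lib.MP_f7be6d_mp.Unit

theorem st_QU (hM : St_MAD) (hW : St_WIN) (hX : St_EXC) : St_QU := by
  intro n₀
  obtain ⟨n1, h1⟩ := hM
  obtain ⟨c, hc, h2⟩ := hW
  obtain ⟨n3, h3⟩ := hX
  have hCw := Cw_nonneg
  obtain ⟨m0, hm0⟩ := exists_nat_ge (6000000 + 6000 * Cw + 220000 * c)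
  set m := max (max n₀ n1) (max n3 m0) with hm
  have hmr : 6000000 + 6000 * Cw + 220000 * c ≤ (m : ℝ) :=
    hm0.trans (by exact_mod_cast (le_max_right _ _).trans (le_max_right _ _))
  have hm1 : (2 : ℝ) ≤ m := by linarith
  have hmp : (0 : ℝ) < m := by linarith
  have hmn : m ≤ m ^ 4 := Nat.le_self_pow (by norm_num) m
  have hmn' : (m : ℝ) ≤ (m : ℝ) ^ 4 := by exact_mod_cast hmn
  have hn0 : n₀ ≤ m ^ 4 := ((le_max_left _ _).trans (le_max_left _ _)).trans hmn
  have hn1 : n1 ≤ m ^ 4 := ((le_max_right _ _).trans (le_max_left _ _)).trans hmn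
  have hn3 : n3 ≤ m ^ 4 := ((le_max_left _ _).trans (le_max_right _ _)).trans hmn
  have hw : (0 : ℝ) < 1 / (m : ℝ) ^ 3 := by positivity
  have hw4 : 1 / (m : ℝ) ^ 3 ≤ 1 / 4 := by
    refine one_div_le_one_div_of_le (by norm_num) ?_
    have := pow_le_pow_left₀ (by norm_num) hm1 3
    linarith
  set n : ℕ := m ^ 4 with hn
  have hnr : (n : ℝ) = (m : ℝ) ^ 4 := by rw [hn]; push_cast; rfl
  have hnb : (6000000 : ℝ) ≤ n := by rw [hnr]; linarith
  have hnp : (0 : ℝ) < n := by linarith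
  set w := 1 / (m : ℝ) ^ 3 with hwd
  obtain ⟨md, hmd, hS, hE⟩ := h3 n hn3 w hw (by linarith)
  have hwL : w ≤ n := by linarith
  have hn3' : (0 : ℝ) ≤ (n : ℝ) ^ 3 := by positivity
  refine ⟨n, hn0, orb n w md, orb_orb hw hwL hmd, ?_, ?_⟩
  · have a1 := kin_orb hw hwL md
    have a2 := kin_num one_pos hnp rfl (K_ge (by linarith)) hS
    have e1 : w * n = m := by rw [hwd, hnr]; field_simp
    have a3 : Cw / (w * n) ≤ 1 / 6000 := by
      rw [e1, div_le_iff₀ hmp]; linarith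
    have a4 := mul_le_mul_of_nonneg_left a3 hn3'
    have a5 := mul_le_mul_of_nonneg_right gam_le hn3'
    have a6 := mul_le_mul_of_nonneg_right gam_le (sq_nonneg (n : ℝ))
    have a7 := mul_le_mul_of_nonneg_right hnb (sq_nonneg (n : ℝ))
    have a8 := sq_nonneg (n : ℝ)
    push_cast at a1
    linarith
  · have hd : dens (orb n w md) = chi3 n w := by
      funext x
      rw [dens_orb hnp]
      push_cast
      rw [div_self (by positivity), one_mul]
    have a1 := h2 n w (by exact_mod_cast (show (1 : ℝ) ≤ n by linarith)) hw hw4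
    have a2 := h1 n hn1
    have e1 : w * n ^ 2 = m ^ 5 := by rw [hwd, hnr]; field_simp
    have a3 : 2 + Real.log n ≤ 6 * m := by
      rw [hnr, Real.log_pow]
      have := Real.log_le_sub_one_of_pos hmp
      push_cast
      linarith
    have a4 : (2 + Real.log n) ^ 3 ≤ (6 * m) ^ 3 :=
      pow_le_pow_left₀ (by linarith [Real.log_natCast_nonneg n]) a3 3
    have a5 : (m : ℝ) ^ 5 * (2 + Real.log n) ^ 3 ≤ m ^ 5 * (6 * m) ^ 3 :=
      mul_le_mul_of_nonneg_left a4 (by positivity)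
    have a6 : (m : ℝ) ^ 8 ≤ m ^ 11 := pow_le_pow_right₀ (by linarith) (by norm_num)
    have a7 : (m : ℝ) ^ 10 ≤ m ^ 11 := pow_le_pow_right₀ (by linarith) (by norm_num)
    have a8 : ((m : ℝ) ^ 5 + 1) ^ 2 ≤ (2 * m ^ 5) ^ 2 :=
      pow_le_pow_left₀ (by positivity) (by linarith [one_le_pow₀ (n := 5) (show (1 : ℝ) ≤ m by
        linarith)]) 2
    have a9 : c * ((m : ℝ) ^ 5 * (2 + Real.log n) ^ 3 + (m ^ 5 + 1) ^ 2) ≤ c * (220 * m ^ 11) :=
      mul_le_mul_of_nonneg_left (by linarith) hc.le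
    have a10 : 220000 * c * (m : ℝ) ^ 11 ≤ m * m ^ 11 :=
      mul_le_mul_of_nonneg_right (by linarith) (by positivity)
    have e2 : (n : ℝ) ^ 3 = m * m ^ 11 := by rw [hnr]; ring
    rw [e1] at a1
    rw [hd]
    linarith

end Pool.Agent.Lib.HY
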