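import Pool.Agent.Lib.HY.Blue

/-! The cell integral of the screened potential. -/

open MeasureTheory Set Metric

noncomputable section

namespace Pool.Agent.Lib.HY

open Pool.Agent.Lib.MP_f7be6d_mp Pool.Agent.Lib.MP_f7be6d_mp.Unit

namespace RAD

/-- radial integration over a ball -/
lemma rad (g : ℝ → ℝ) (r : ℝ) :
    ∫ x : E3, (if ‖x‖ < r then g ‖x‖ else 0) = 4 * Real.pi * ∫ y in Ioo (0 : ℝ) r, y ^ 2 * g y := by
  have e := integral_fun_norm_addHaar (volume : Measure E3) (fun y : ℝ => if y < r then g y else 0)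
  rw [e, finrank_E3, volume_real_ball3 _ zero_le_one]
  have e2 : ∫ y in Ioi (0 : ℝ), y ^ (3 - 1) • (if y < r then g y else 0)
      = ∫ y in Ioo (0 : ℝ) r, y ^ 2 * g y := by
    rw [← Ioi_inter_Iio, ← setIntegral_indicator measurableSet_Iio]
    congr 1; funext y
    by_cases hy : y < r
    · rw [indicator_of_mem (mem_Iio.2 hy), if_pos hy, smul_eq_mul]
    · rw [indicator_of_notMem (mt mem_Iio.1 hy), if_neg hy, smul_zero]
  rw [e2]
  simp only [nsmul_eq_mul, smul_eq_mul]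
  push_cast
  ring

lemma pw {u : ℝ} (hu : 0 ≤ u) :
    (1 + u) ^ (5 / 2 : ℝ) ≤ 1 + 5 / 2 * u + 15 / 8 * u ^ 2 + 5 / 16 * u ^ 3 := by
  have h0 : 0 ≤ 1 + u := by linarith
  refine le_of_sq_le_sq ?_ (by positivity)
  rw [← Real.rpow_natCast, ← Real.rpow_mul h0]
  have e : (5 / 2 : ℝ) * ((2 : ℕ) : ℝ) = ((5 : ℕ) : ℝ) := by norm_num
  rw [e, Real.rpow_natCast]
  have h4 : 0 ≤ u ^ 4 := by positivity
  have h5 : 0 ≤ u ^ 5 := by positivity
  have h6 : 0 ≤ u ^ 6 := by positivity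
  nlinarith

lemma gle {y : ℝ} (hy : 0 < y) : (1 / y + 4 * y ^ 2) ^ (5 / 2 : ℝ) ≤
    y ^ (-(5 / 2 : ℝ)) * (1 + 10 * y ^ 3 + 30 * y ^ 6 + 20 * y ^ 9) := by
  have e : 1 / y + 4 * y ^ 2 = y⁻¹ * (1 + 4 * y ^ 3) := by field_simp
  rw [e, Real.mul_rpow (inv_nonneg.2 hy.le) (by positivity), Real.inv_rpow hy.le,
    ← Real.rpow_neg hy.le]
  refine mul_le_mul_of_nonneg_left ?_ (Real.rpow_nonneg hy.le _)
  have := pw (u := 4 * y ^ 3) (by positivity)
  linarith [this, (by ring : (4 * y ^ 3) ^ 2 = 16 * y ^ 6), (by ring : (4 * y ^ 3) ^ 3 = 64 * y ^ 9)]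

lemma RR_eq (x : E3) :
    RR x = if ‖x‖ < 1 / 2 then (1 / ‖x‖ + 4 * ‖x‖ ^ 2) ^ (5 / 2 : ℝ) else 0 := by
  unfold RR WW
  by_cases h : ‖x‖ < 1 / 2
  · rw [if_pos h, if_pos h, if_pos h]
    congr 1
    ring
  · rw [if_neg h, if_neg h]

lemma int_RR : Integrable RR := by
  have hm : Measurable RR := by
    rw [funext RR_eq]
    refine Measurable.ite (measurableSet_lt measurable_norm measurable_const) ?_ measurable_const
    exact (((measurable_const.div measurable_norm).add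
      (measurable_const.mul (measurable_norm.pow_const 2))).pow_const _)
  refine ((integrable_hsing (1 / 2)).const_mul 3).mono' hm.aestronglyMeasurable
    (Filter.Eventually.of_forall fun x => ?_)
  rw [RR_eq]
  by_cases h : ‖x‖ < 1 / 2
  · rw [if_pos h, Real.norm_of_nonneg (Real.rpow_nonneg (by positivity) _)]
    unfold hsing
    rw [indicator_of_mem (mem_ball_zero_iff.2 h)]
    rcases (norm_nonneg x).eq_or_lt with h0 | h0
    · rw [← h0]
      simp only [div_zero, ne_eq, OfNat.ofNat_ne_zero, not_false_eq_true, zero_pow, mul_zero,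
        add_zero]
      rw [Real.zero_rpow (by norm_num)]
      positivity
    · refine (gle h0).trans ?_
      rw [mul_comm]
      refine mul_le_mul_of_nonneg_right ?_ (Real.rpow_nonneg h0.le _)
      have h3 : ‖x‖ ^ 3 ≤ (1 / 2) ^ 3 := pow_le_pow_left₀ h0.le h.le 3
      have h6 : ‖x‖ ^ 6 ≤ (1 / 2) ^ 6 := pow_le_pow_left₀ h0.le h.le 6
      have h9 : ‖x‖ ^ 9 ≤ (1 / 2) ^ 9 := pow_le_pow_left₀ h0.le h.le 9
      norm_num at h3 h6 h9 ⊢
      linarith
  · rw [if_neg h, norm_zero]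
    exact mul_nonneg (by norm_num) (hsing_nonneg _ _)

/-- the majorant -/
def hh (y : ℝ) : ℝ :=
  y ^ (-(1 / 2 : ℝ)) + 10 * y ^ (5 / 2 : ℝ) + 30 * y ^ (11 / 2 : ℝ) + 20 * y ^ (17 / 2 : ℝ)

lemma le_hh {y : ℝ} (hy : 0 < y) : y ^ 2 * (1 / y + 4 * y ^ 2) ^ (5 / 2 : ℝ) ≤ hh y := by
  refine (mul_le_mul_of_nonneg_left (gle hy) (sq_nonneg y)).trans (le_of_eq ?_)
  have k : ∀ (m : ℕ) (c : ℝ), c = -(5 / 2) + m → y ^ c = y ^ (-(5 / 2 : ℝ)) * y ^ m := by
    intro m c hc
    rw [hc, Real.rpow_add hy, Real.rpow_natCast]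
  unfold hh
  rw [k 2 (-(1 / 2)) (by norm_num), k 5 (5 / 2) (by norm_num), k 8 (11 / 2) (by norm_num),
    k 11 (17 / 2) (by norm_num)]
  ring

lemma half_pow (m : ℕ) (c : ℝ) (hc : c = 1 / 2 + m) :
    (1 / 2 : ℝ) ^ c = √(1 / 2) * (1 / 2) ^ m := by
  rw [hc, Real.rpow_add (by norm_num), Real.rpow_natCast, Real.sqrt_eq_rpow]

lemma ii {c : ℝ} (hc : -1 < c) : IntervalIntegrable (fun y : ℝ => y ^ c) volume 0 (1 / 2) :=
  intervalIntegral.intervalIntegrable_rpow' hc

lemma int_hh : IntervalIntegrable hh volume 0 (1 / 2) :=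
  (((ii (by norm_num)).add ((ii (by norm_num)).const_mul 10)).add
    ((ii (by norm_num)).const_mul 30)).add ((ii (by norm_num)).const_mul 20)

lemma val {c : ℝ} (m : ℕ) (hc : c + 1 = 1 / 2 + m) :
    ∫ y in (0 : ℝ)..(1 / 2), y ^ c = √(1 / 2) * (1 / 2) ^ m / (1 / 2 + m) := by
  have hm : (0 : ℝ) ≤ m := Nat.cast_nonneg m
  rw [integral_rpow (Or.inl (by linarith)), Real.zero_rpow (by linarith), sub_zero,
    half_pow m _ hc, hc]

lemma val_hh : ∫ y in (0 : ℝ)..(1 / 2), hh y =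
    √(1 / 2) * (2 + 20 / 56 + 60 / 832 + 40 / 9728) := by
  unfold hh
  rw [intervalIntegral.integral_add (((ii (by norm_num)).add ((ii (by norm_num)).const_mul 10)).add
      ((ii (by norm_num)).const_mul 30)) ((ii (by norm_num)).const_mul 20),
    intervalIntegral.integral_add ((ii (by norm_num)).add ((ii (by norm_num)).const_mul 10))
      ((ii (by norm_num)).const_mul 30),
    intervalIntegral.integral_add (ii (by norm_num)) ((ii (by norm_num)).const_mul 10),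
    intervalIntegral.integral_const_mul, intervalIntegral.integral_const_mul,
    intervalIntegral.integral_const_mul, val 0 (by norm_num), val 3 (by norm_num),
    val 6 (by norm_num), val 9 (by norm_num)]
  push_cast
  ring

end RAD

theorem st_RAD : St_RAD := by
  refine ⟨RAD.int_RR, ?_⟩
  rw [funext RAD.RR_eq, RAD.rad (fun y => (1 / y + 4 * y ^ 2) ^ (5 / 2 : ℝ))]
  have h1 : ∫ y in Ioo (0 : ℝ) (1 / 2), y ^ 2 * (1 / y + 4 * y ^ 2) ^ (5 / 2 : ℝ)
      ≤ ∫ y in Ioo (0 : ℝ) (1 / 2), RAD.hh y := by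
    refine integral_mono_of_nonneg ?_ ?_ ?_
    · filter_upwards [ae_restrict_mem measurableSet_Ioo] with y hy
      have := hy.1
      exact mul_nonneg (sq_nonneg _) (Real.rpow_nonneg (by positivity) _)
    · exact RAD.int_hh.1.mono_set Ioo_subset_Ioc_self
    · filter_upwards [ae_restrict_mem measurableSet_Ioo] with y hy
      exact RAD.le_hh hy.1
  rw [← integral_Ioc_eq_integral_Ioo (f := RAD.hh),
    ← intervalIntegral.integral_of_le (by norm_num), RAD.val_hh] at h1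
  have hs : √(1 / 2 : ℝ) ≤ 7071068 / 10000000 := by
    rw [Real.sqrt_le_iff]
    norm_num
  have hp := Real.pi_lt_d6
  have hp0 := Real.pi_pos
  have h2 : √(1 / 2 : ℝ) * (2 + 20 / 56 + 60 / 832 + 40 / 9728) ≤ 17206526 / 10000000 := by
    linarith
  have h3 := mul_le_mul_of_nonneg_left (h1.trans h2) (by positivity : 0 ≤ 4 * Real.pi)
  linarith

end Pool.Agent.Lib.HY
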