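import Pool.Agent.Lib.HY.Blue

/-! Gaussian representation of the Madelung energy of the cube. -/

open MeasureTheory Set Metric

noncomputable section

namespace Pool.Agent.Lib.HY

open Pool.Agent.Lib.MP_f7be6d_mp Pool.Agent.Lib.MP_f7be6d_mp.Unit

namespace REP

lemma gk_prod (t : ℝ) (v : E3) : gk 1 t v = ∏ i, ee t (v i) := by
  unfold gk ee
  rw [← Real.exp_sum, EuclideanSpace.real_norm_sq_eq, Finset.mul_sum]
  congr 1
  refine Finset.sum_congr rfl fun i _ => ?_
  ring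

lemma ind_prod (L : ℝ) (x : E3) :
    ind 0 L x = ∏ i, (Ico (0 : ℝ) L).indicator (fun _ => (1 : ℝ)) (x i) := by
  by_cases h : x ∈ cube 0 L
  · rw [ind_of_mem h]
    refine (Finset.prod_eq_one fun i _ => ?_).symm
    exact indicator_of_mem (show x i ∈ Ico (0 : ℝ) L from mem_cube.1 h i) _
  · rw [ind_of_notMem h]
    rw [mem_cube, not_forall] at h
    obtain ⟨i, hi⟩ := h
    refine (Finset.prod_eq_zero (Finset.mem_univ i) ?_).symm
    exact indicator_of_notMem (show x i ∉ Ico (0 : ℝ) L from hi) _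

lemma int_ind {L : ℝ} (hL : 0 ≤ L) (f : ℝ → ℝ) :
    ∫ x, (Ico (0 : ℝ) L).indicator (fun _ => (1 : ℝ)) x * f x = ∫ x in (0 : ℝ)..L, f x := by
  have e : (fun x => (Ico (0 : ℝ) L).indicator (fun _ => (1 : ℝ)) x * f x)
      = (Ico (0 : ℝ) L).indicator f := by
    funext x
    by_cases h : x ∈ Ico (0 : ℝ) L
    · rw [indicator_of_mem h, indicator_of_mem h, one_mul]
    · rw [indicator_of_notMem h, indicator_of_notMem h, zero_mul]
  rw [e, integral_indicator measurableSet_Ico, intervalIntegral.integral_of_le hL,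
    integral_Ico_eq_integral_Ioc]

lemma int_cube {L : ℝ} (hL : 0 ≤ L) (f : Fin 3 → ℝ → ℝ) :
    ∫ x : E3, ind 0 L x * ∏ i, f i (x i) = ∏ i, ∫ y in (0 : ℝ)..L, f i y := by
  have e : (fun x : E3 => ind 0 L x * ∏ i, f i (x i))
      = fun x : E3 => ∏ i, (fun (i : Fin 3) (y : ℝ) =>
        (Ico (0 : ℝ) L).indicator (fun _ => (1 : ℝ)) y * f i y) i (x i) := by
    funext x
    rw [ind_prod, ← Finset.prod_mul_distrib]
  rw [e]
  refine (integral_E3_prod (𝕜 := ℝ) (fun (i : Fin 3) (y : ℝ) =>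
    (Ico (0 : ℝ) L).indicator (fun _ => (1 : ℝ)) y * f i y)).trans ?_
  exact Finset.prod_congr rfl fun i _ => int_ind hL (f i)

lemma sum_prod3 {n : ℕ} (F : Fin 3 → Fin n → ℝ) :
    ∑ j : Fin 3 → Fin n, ∏ i, F i (j i) = ∏ i, ∑ a, F i a := by
  rw [Finset.prod_univ_sum, Fintype.piFinset_univ]

lemma cc_apply {n : ℕ} (j : Fin 3 → Fin n) (i : Fin 3) : cc j i = ((j i : ℕ) : ℝ) + 1 / 2 := by
  unfold cc
  rw [ctr_apply, one_mul]
  simp [idx]

lemma cc_inj {n : ℕ} {i j : Fin 3 → Fin n} (h : i ≠ j) : cc i - cc j ≠ 0 := by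
  intro h0
  apply h
  funext k
  have h1 : cc i k = cc j k := by rw [sub_eq_zero.1 h0]
  rw [cc_apply, cc_apply, add_left_inj, Nat.cast_inj] at h1
  exact Fin.ext h1

lemma sumA (n : ℕ) (t : ℝ) :
    ∑ i : Fin 3 → Fin n, ∑ j : Fin 3 → Fin n, gk 1 t (cc i - cc j) = AA n t ^ 3 := by
  have e : ∀ i j : Fin 3 → Fin n, gk 1 t (cc i - cc j)
      = ∏ k, ee t (((i k : ℕ) : ℝ) - ((j k : ℕ) : ℝ)) := by
    intro i j
    rw [gk_prod]
    refine Finset.prod_congr rfl fun k _ => ?_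
    rw [PiLp.sub_apply, cc_apply, cc_apply]
    congr 1; ring
  simp only [e]
  have e2 : ∀ i : Fin 3 → Fin n, ∑ j : Fin 3 → Fin n, ∏ k, ee t (((i k : ℕ) : ℝ) - ((j k : ℕ) : ℝ))
      = ∏ k, ∑ b : Fin n, ee t (((i k : ℕ) : ℝ) - ((b : ℕ) : ℝ)) := fun i =>
    sum_prod3 (fun k (b : Fin n) => ee t (((i k : ℕ) : ℝ) - ((b : ℕ) : ℝ)))
  simp only [e2]
  rw [sum_prod3 (fun (_ : Fin 3) (a : Fin n) => ∑ b : Fin n, ee t (((a : ℕ) : ℝ) - ((b : ℕ) : ℝ))),
    Finset.prod_const, Finset.card_univ, Fintype.card_fin]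
  rfl

/-- off-diagonal Gaussian -/
def og {n : ℕ} (i j : Fin 3 → Fin n) (t : ℝ) : ℝ := if i = j then 0 else gk 1 t (cc i - cc j)

lemma og_spec {n : ℕ} (i j : Fin 3 → Fin n) : IntegrableOn (og i j) (Ioi 0) ∧
    ∫ t in Ioi (0 : ℝ), og i j t = √Real.pi / 2 * (1 / ‖cc i - cc j‖) := by
  by_cases h : i = j
  · have e : og i j = fun _ => 0 := by funext t; simp [og, h]
    rw [e, h]
    simp
  · have e : og i j = fun t => gk 1 t (cc i - cc j) := by funext t; simp [og, h]
    rw [e]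
    refine ⟨(integral_gk_scale (cc_inj h)).1, ?_⟩
    rw [(integral_gk_scale (cc_inj h)).2]; ring

lemma sum_og (n : ℕ) (t : ℝ) :
    ∑ i : Fin 3 → Fin n, ∑ j : Fin 3 → Fin n, og i j t = AA n t ^ 3 - n ^ 3 := by
  rw [← sumA]
  have e : ∀ i j : Fin 3 → Fin n, og i j t = gk 1 t (cc i - cc j) - if i = j then 1 else 0 := by
    intro i j
    by_cases h : i = j
    · simp [og, h, gk]
    · simp [og, h]
  simp only [e, Finset.sum_sub_distrib, Finset.sum_ite_eq, Finset.mem_univ, if_true]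
  simp

lemma partA (n : ℕ) : IntegrableOn (fun t => AA n t ^ 3 - (n : ℝ) ^ 3) (Ioi 0) ∧
    √Real.pi * UU n = ∫ t in Ioi (0 : ℝ), (AA n t ^ 3 - (n : ℝ) ^ 3) := by
  simp only [← sum_og]
  have hi : ∀ i : Fin 3 → Fin n, Integrable (fun t => ∑ j : Fin 3 → Fin n, og i j t)
      (volume.restrict (Ioi 0)) := fun i =>
    integrable_finsetSum _ fun j _ => (og_spec i j).1
  refine ⟨integrable_finsetSum _ fun i _ => hi i, ?_⟩
  rw [integral_finsetSum _ fun i _ => hi i, UU, ← mul_assoc, Finset.mul_sum]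
  refine Finset.sum_congr rfl fun i _ => ?_
  rw [integral_finsetSum _ fun j _ => (og_spec i j).1, Finset.mul_sum]
  refine Finset.sum_congr rfl fun j _ => ?_
  rw [(og_spec i j).2]; ring

lemma pot_rep {f : E3 → ℝ} (hf : Coul f) (c : E3) :
    IntegrableOn (fun t => ∫ x, f x * gk 1 t (x - c)) (Ioi 0) ∧
      √Real.pi / 2 * ∫ x, 1 / ‖x - c‖ * f x = ∫ t in Ioi (0 : ℝ), ∫ x, f x * gk 1 t (x - c) := by
  set F : E3 → ℝ → ℝ := fun x s => f x * gk 1 s (x - c) with hF
  have hne : ∀ᵐ x : E3, x - c ≠ 0 := by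
    have : ∀ᵐ y : E3, y ≠ c := by rw [ae_iff]; simp
    filter_upwards [this] with y hy
    exact sub_ne_zero.2 hy
  have hm : AEStronglyMeasurable (Function.uncurry F)
      (volume.prod (volume.restrict (Ioi 0))) := by
    refine AEStronglyMeasurable.mul hf.int.1.comp_fst ?_
    refine Continuous.aestronglyMeasurable ?_
    unfold gk; fun_prop
  have hi : Integrable (Function.uncurry F) (volume.prod (volume.restrict (Ioi 0))) := by
    rw [integrable_prod_iff hm]
    constructor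
    · filter_upwards [hne] with p hp
      exact (integral_gk_scale hp).1.const_mul (f p)
    · refine ((hf.integrable_pot c).abs.const_mul (√Real.pi / 2)).mono'
        hm.norm.integral_prod_right' ?_
      filter_upwards [hne] with p hp
      rw [Real.norm_of_nonneg (integral_nonneg fun y => norm_nonneg _)]
      have e : (fun s => ‖Function.uncurry F (p, s)‖) = fun s => |f p| * gk 1 s (p - c) := by
        funext z
        simp only [Function.uncurry, hF]
        rw [Real.norm_eq_abs, abs_mul, abs_of_pos (gk_pos _ _ _)]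
      rw [e, integral_const_mul, (integral_gk_scale hp).2, abs_div, abs_norm, norm_sub_rev c p]
      apply le_of_eq; ring
  constructor
  · exact hi.integral_prod_right
  · have := integral_integral_swap hi
    rw [← this, ← integral_const_mul]
    refine integral_congr_ae ?_
    filter_upwards [hne] with p hp
    simp only [hF]
    rw [integral_const_mul, (integral_gk_scale hp).2]; ring

lemma sumB (n : ℕ) (t : ℝ) :
    ∑ j : Fin 3 → Fin n, ∫ x, ind 0 n x * gk 1 t (x - cc j) = BB n t ^ 3 := by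
  have e : ∀ j : Fin 3 → Fin n, ∫ x, ind 0 n x * gk 1 t (x - cc j)
      = ∏ k, ∫ y in (0 : ℝ)..n, ee t (y - (((j k : ℕ) : ℝ) + 1 / 2)) := by
    intro j
    rw [← int_cube (Nat.cast_nonneg n) (fun k y => ee t (y - (((j k : ℕ) : ℝ) + 1 / 2)))]
    congr 1; funext x
    rw [gk_prod]
    congr 1
    refine Finset.prod_congr rfl fun k _ => ?_
    rw [PiLp.sub_apply, cc_apply]
  simp only [e]
  rw [sum_prod3 (fun (_ : Fin 3) (a : Fin n) =>
      ∫ y in (0 : ℝ)..n, ee t (y - (((a : ℕ) : ℝ) + 1 / 2))),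
    Finset.prod_const, Finset.card_univ, Fintype.card_fin]
  rfl

lemma partB (n : ℕ) : IntegrableOn (fun t => BB n t ^ 3) (Ioi 0) ∧
    √Real.pi / 2 * ∫ x, Vl 1 n x * ind 0 n x = ∫ t in Ioi (0 : ℝ), BB n t ^ 3 := by
  simp only [← sumB]
  have hc := coul_ind 0 (n : ℝ)
  refine ⟨integrable_finsetSum _ fun j _ => (pot_rep hc (cc j)).1, ?_⟩
  rw [integral_finsetSum _ fun j _ => (pot_rep hc (cc j)).1]
  have e : (fun x => Vl 1 n x * ind 0 n x)
      = fun x => ∑ j : Fin 3 → Fin n, 1 / ‖x - cc j‖ * ind 0 n x := by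
    funext x; unfold Vl cc; rw [Finset.sum_mul]
  rw [e, integral_finsetSum, Finset.mul_sum]
  · exact Finset.sum_congr rfl fun j _ => (pot_rep hc (cc j)).2
  · intro j _
    refine (hc.integrable_pot (cc j)).congr (Filter.Eventually.of_forall fun x => ?_)
    simp only
    rw [norm_sub_rev]; ring

lemma gJ_eq (n : ℕ) (t : ℝ) : gJ (ind 0 n) t = DD n t ^ 3 := by
  have hI := integrable_ind 0 (n : ℝ)
  have hi : Integrable (fun p : E3 × E3 => ind 0 n p.1 * ind 0 n p.2 * gk 1 t (p.1 - p.2))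
      (volume.prod volume) := by
    refine (hI.mul_prod hI).mul_bdd (c := 1) ?_ (Filter.Eventually.of_forall fun p => ?_)
    · have := continuous_gk 1 t
      exact Continuous.aestronglyMeasurable (by fun_prop)
    · rw [Real.norm_of_nonneg (gk_pos _ _ _).le]
      exact gk_le_one zero_le_one _ _
  unfold gJ
  rw [integral_prod _ hi]
  have e : ∀ x : E3, ∫ y, ind 0 n x * ind 0 n y * gk 1 t (x - y)
      = ind 0 n x * ∏ k, ∫ z in (0 : ℝ)..n, ee t (x k - z) := by
    intro x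
    rw [← int_cube (Nat.cast_nonneg n) (fun k z => ee t (x k - z)), ← integral_const_mul]
    congr 1; funext y
    rw [gk_prod, mul_assoc]
    rfl
  simp only [e]
  rw [int_cube (Nat.cast_nonneg n) (fun _ x => ∫ z in (0 : ℝ)..n, ee t (x - z)),
    Finset.prod_const, Finset.card_univ, Fintype.card_fin]
  rfl

lemma partD (n : ℕ) : IntegrableOn (fun t => DD n t ^ 3) (Ioi 0) ∧
    √Real.pi / 2 * cI (ind 0 n) (ind 0 n) = ∫ t in Ioi (0 : ℝ), DD n t ^ 3 := by
  simp only [← gJ_eq]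
  exact cI_eq_gJ (coul_ind 0 (n : ℝ))

end REP

theorem st_REP : St_REP := by
  intro n
  obtain ⟨a1, a2⟩ := REP.partA n
  obtain ⟨b1, b2⟩ := REP.partB n
  obtain ⟨d1, d2⟩ := REP.partD n
  have h2 : IntegrableOn (fun t => AA n t ^ 3 - (n : ℝ) ^ 3 - 2 * BB n t ^ 3) (Ioi 0) :=
    a1.sub (b1.const_mul 2)
  refine ⟨h2.add d1, ?_⟩
  unfold HT CC
  rw [integral_add h2 d1, integral_sub a1 (b1.const_mul 2), integral_const_mul, ← a2, ← b2, ← d2]
  ring

end Pool.Agent.Lib.HY
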