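import Pool.Agent.Lib.HY.B_SCT

/-! Scaling of the Hartree-Fock upper bound. -/

open MeasureTheory Set Metric
open scoped ComplexConjugate

noncomputable section

namespace Pool.Agent.Lib.HY

open Pool.Agent.Lib.MP_f7be6d_mp Pool.Agent.Lib.MP_f7be6d_mp.Unit

namespace SCQ2

variable {N : ℕ} {u : Fin N → E3 → Fin 2 → ℂ} {s : ℝ}

/-- dilated orbitals -/
def sc (s : ℝ) (u : Fin N → E3 → Fin 2 → ℂ) : Fin N → E3 → Fin 2 → ℂ :=
  fun p x t => ((√(s ^ 3) : ℝ) : ℂ) * u p (s • x) t

lemma cc_mul (hs : 0 < s) (a b : ℂ) :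
    ((√(s ^ 3) : ℝ) : ℂ) * a * conj (((√(s ^ 3) : ℝ) : ℂ) * b) = ((s ^ 3 : ℝ) : ℂ) * (a * conj b) := by
  have h : ((√(s ^ 3) : ℝ) : ℂ) * ((√(s ^ 3) : ℝ) : ℂ) = ((s ^ 3 : ℝ) : ℂ) := by
    rw [← Complex.ofReal_mul, Real.mul_self_sqrt (by positivity)]
  rw [map_mul, Complex.conj_ofReal, ← h]; ring

lemma norm_sc (hs : 0 < s) (a : ℂ) : ‖((√(s ^ 3) : ℝ) : ℂ) * a‖ ^ 2 = s ^ 3 * ‖a‖ ^ 2 := by
  rw [norm_mul, mul_pow, Complex.norm_real, Real.norm_of_nonneg (Real.sqrt_nonneg _),
    Real.sq_sqrt (by positivity)]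

lemma orb_sc (h : Orb u) (hs : 0 < s) : Orb (sc s u) where
  smooth p t := contDiff_const.mul ((h.smooth p t).comp (contDiff_const_smul s))
  compact p t := ((h.compact p t).comp_smul hs.ne').mul_left
  orth p q := by
    rw [← h.orth p q]
    unfold ip sc
    refine Finset.sum_congr rfl fun t _ => ?_
    simp only [cc_mul hs]
    rw [integral_const_mul, Measure.integral_comp_smul volume
      (fun x => u p x t * conj (u q x t)) s, finrank_E3, abs_of_pos (by positivity),
      Complex.real_smul, ← mul_assoc, ← Complex.ofReal_mul, mul_inv_cancel₀ (by positivity)]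
    simp

lemma dens_sc (hs : 0 < s) : dens (sc s u) = fun x => s ^ 3 * dens u (s • x) := by
  funext x
  unfold dens sc
  simp only [norm_sc hs, Finset.mul_sum]

lemma kin_sc (h : Orb u) (hs : 0 < s) : kin (sc s u) = s ^ 2 * kin u := by
  unfold kin
  simp only [Finset.mul_sum]
  refine Finset.sum_congr rfl fun a _ => Finset.sum_congr rfl fun p _ =>
    Finset.sum_congr rfl fun t _ => ?_
  have e : ∀ x, ‖dorb (sc s u) (EuclideanSpace.single a (1 : ℝ)) p x t‖ ^ 2
      = s ^ 5 * ‖dorb u (EuclideanSpace.single a (1 : ℝ)) p (s • x) t‖ ^ 2 := by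
    intro x
    have h1 := (((h.smooth p t).differentiable (by simp) (s • x)).hasFDerivAt.comp x
      ((hasFDerivAt_id x).const_smul s)).const_mul ((√(s ^ 3) : ℝ) : ℂ)
    have h2 : fderiv ℝ (fun y => sc s u p y t) x = _ := h1.fderiv
    unfold dorb
    rw [h2]
    simp only [smul_apply, ContinuousLinearMap.comp_apply, ContinuousLinearMap.id_apply, map_smul,
      smul_eq_mul]
    rw [norm_sc hs, norm_smul, Real.norm_of_nonneg hs.le]
    ring
  simp only [e]
  rw [integral_const_mul, SCT.int_sc hs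
    fun x => ‖dorb u (EuclideanSpace.single a (1 : ℝ)) p x t‖ ^ 2]
  field_simp

lemma exk_sc (h : Orb u) (hs : 0 < s) : ∫ w, exk (sc s u) w ∂(volume.prod volume)
    = s * ∫ w, exk u w ∂(volume.prod volume) := by
  have e : ∀ x y : E3, exk (sc s u) (x, y) = s ^ 7 * exk u (s • x, s • y) := by
    intro x y
    have e1 : ∀ t t', gm (sc s u) x t y t' = ((s ^ 3 : ℝ) : ℂ) * gm u (s • x) t (s • y) t' := by
      intro t t'
      unfold gm sc
      simp only [cc_mul hs, Finset.mul_sum]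
    unfold exk
    simp only [e1, norm_mul, mul_pow, Complex.norm_real,
      Real.norm_of_nonneg (pow_pos hs 3).le, ← Finset.mul_sum]
    rw [div_eq_mul_inv _ ‖s • x - s • y‖, SCT.inv_norm hs, div_eq_mul_inv]
    generalize ‖x - y‖⁻¹ = a
    field_simp
  rw [integral_prod _ (integrable_exk (orb_sc h hs)), integral_prod _ (integrable_exk h)]
  have e2 : ∀ x : E3, ∫ y, exk (sc s u) (x, y) = s ^ 4 * ∫ y, exk u (s • x, y) := by
    intro x
    simp only [e]
    rw [integral_const_mul, SCT.int_sc hs fun y => exk u (s • x, y)]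
    field_simp
  simp only [e2]
  rw [integral_const_mul, SCT.int_sc hs fun x => ∫ y, exk u (x, y)]
  field_simp

lemma tf_dens (h : Orb u) : IsTFDensity (⌈∫ x, dens u x⌉₊) (dens u) where
  nonneg x := by unfold dens; positivity
  memL53 := h.coul_dens.mem
  memL1 := h.coul_dens.int
  mass := Nat.le_ceil _

end SCQ2

open SCQ2

theorem st_SCQ2 : St_SCQ := by
  intro N k R u s h hs
  have ho := orb_sc h hs
  refine (iInf_le _ ⟨_, slater_isTest ho⟩).trans (le_of_eq ?_)
  have h1 := SCT.fun_sc R hs (tf_dens h)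
  have h2 := SCT.fun_sc (k := 0) (fun _ => 0) hs (tf_dens h)
  have hd := SCT.tf_sc hs (tf_dens h)
  have e1 : ∫ x : E3, (s ^ 3 * dens u (s • x)) ^ (5 / 3 : ℝ)
      = s ^ 2 * ∫ x, dens u x ^ (5 / 3 : ℝ) := by
    have e : (s ^ 3) ^ (5 / 3 : ℝ) = s ^ 5 := by
      rw [← Real.rpow_natCast, ← Real.rpow_mul hs.le, ← Real.rpow_natCast]; norm_num
    simp only [fun x : E3 =>
      Real.mul_rpow (z := 5 / 3) (pow_pos hs 3).le ((tf_dens h).nonneg (s • x)), e]
    rw [integral_const_mul, SCT.int_sc hs fun x => dens u x ^ (5 / 3 : ℝ)]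
    field_simp
  unfold tfFunctional KT gam at h1
  rw [e1, ← cI_eq_iter hd.memL1 (Coul.of_tf hd)] at h1
  simp only
  rw [quantumForm_slater ho, kin_sc h hs, exk_sc h hs, dens_sc hs]
  congr 1
  linarith

end Pool.Agent.Lib.HY
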