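import Pool.Agent.Lib.HY.Blue

/-! Scaling of the Thomas-Fermi energy. -/

open MeasureTheory Set Metric

noncomputable section

namespace Pool.Agent.Lib.HY

open Pool.Agent.Lib.MP_f7be6d_mp Pool.Agent.Lib.MP_f7be6d_mp.Unit

namespace SCT

lemma int_sc {s : ℝ} (hs : 0 < s) (f : E3 → ℝ) : ∫ x, f (s • x) = (s ^ 3)⁻¹ * ∫ x, f x := by
  rw [Measure.integral_comp_smul, finrank_E3, abs_of_pos (by positivity), smul_eq_mul]

lemma tf_sc {N : ℕ} {s : ℝ} (hs : 0 < s) {ρ : E3 → ℝ} (h : IsTFDensity N ρ) :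
    IsTFDensity N fun x => s ^ 3 * ρ (s • x) where
  nonneg x := mul_nonneg (by positivity) (h.nonneg _)
  memL53 := by
    refine MemLp.const_mul (MemLp.comp_of_map (f := fun x : E3 => s • x) ?_ (by fun_prop)) _
    rw [Measure.map_addHaar_smul _ hs.ne']
    exact h.memL53.smul_measure ENNReal.ofReal_ne_top
  memL1 := (h.memL1.comp_smul hs.ne').const_mul _
  mass := by
    rw [integral_const_mul, int_sc hs, mul_inv_cancel_left₀ (by positivity)]
    exact h.mass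

lemma inv_norm {s : ℝ} (hs : 0 < s) (x y : E3) : ‖s • x - s • y‖⁻¹ = s⁻¹ * ‖x - y‖⁻¹ := by
  rw [← smul_sub, norm_smul, Real.norm_of_nonneg hs.le, mul_inv]

lemma fun_sc {N k : ℕ} (R : Fin k → E3) {s : ℝ} (hs : 0 < s) {ρ : E3 → ℝ} (h : IsTFDensity N ρ) :
    tfFunctional (fun _ => 1) (fun j => s⁻¹ • R j) (fun x => s ^ 3 * ρ (s • x)) =
      s ^ 2 * KT ρ + s * Cg R ρ := by
  have h0 := hs.ne'
  have e1 : ∫ x : E3, (s ^ 3 * ρ (s • x)) ^ (5 / 3 : ℝ) = s ^ 2 * ∫ x, ρ x ^ (5 / 3 : ℝ) := by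
    have e : (s ^ 3) ^ (5 / 3 : ℝ) = s ^ 5 := by
      rw [← Real.rpow_natCast, ← Real.rpow_mul hs.le, ← Real.rpow_natCast]; norm_num
    simp only [fun x : E3 => Real.mul_rpow (z := 5 / 3) (pow_pos hs 3).le (h.nonneg (s • x)), e]
    rw [integral_const_mul, int_sc hs fun x => ρ x ^ (5 / 3 : ℝ)]
    field_simp
  have e2 : ∫ x : E3, nucV (fun _ => 1) (fun j => s⁻¹ • R j) x * (s ^ 3 * ρ (s • x)) =
      s * ∫ x, nucV (fun _ => 1) R x * ρ x := by
    have e : ∀ x : E3, nucV (fun _ => 1) (fun j => s⁻¹ • R j) x * (s ^ 3 * ρ (s • x)) =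
        s ^ 4 * (nucV (fun _ => 1) R (s • x) * ρ (s • x)) := fun x => by
      have : nucV (fun _ => 1) (fun j => s⁻¹ • R j) x = s * nucV (fun _ => 1) R (s • x) := by
        unfold nucV
        rw [Finset.mul_sum]
        refine Finset.sum_congr rfl fun j _ => ?_
        have := inv_norm (inv_pos.2 hs) (s • x) (R j)
        rw [inv_smul_smul₀ h0, inv_inv] at this
        rw [one_div, one_div, this]
      rw [this]; ring
    simp only [e]
    rw [integral_const_mul, int_sc hs fun x => nucV (fun _ => 1) R x * ρ x]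
    field_simp
  have e3 : ∫ x : E3, ∫ y : E3, s ^ 3 * ρ (s • x) * (s ^ 3 * ρ (s • y)) / ‖x - y‖ =
      s * cI ρ ρ := by
    have e : ∀ x : E3, ∫ y : E3, s ^ 3 * ρ (s • x) * (s ^ 3 * ρ (s • y)) / ‖x - y‖ =
        s ^ 4 * ∫ y, ρ (s • x) * ρ y / ‖s • x - y‖ := fun x => by
      have : ∀ y : E3, s ^ 3 * ρ (s • x) * (s ^ 3 * ρ (s • y)) / ‖x - y‖ =
          s ^ 7 * (ρ (s • x) * ρ (s • y) / ‖s • x - s • y‖) := fun y => by
        rw [div_eq_mul_inv _ ‖s • x - s • y‖, inv_norm hs, div_eq_mul_inv]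
        generalize ‖x - y‖⁻¹ = a
        field_simp
      simp only [this]
      rw [integral_const_mul, int_sc hs fun y => ρ (s • x) * ρ y / ‖s • x - y‖]
      field_simp
    simp only [e]
    rw [integral_const_mul, int_sc hs fun x => ∫ y, ρ x * ρ y / ‖x - y‖,
      cI_eq_iter h.memL1 (Coul.of_tf h)]
    field_simp
  have e4 : nucU (fun _ => 1) (fun j => s⁻¹ • R j) = s * nucU (fun _ => 1) R := by
    unfold nucU
    simp only [Finset.mul_sum, one_mul, one_div, inv_norm (inv_pos.2 hs), inv_inv]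
  unfold tfFunctional KT Cg gam
  rw [e1, e2, e3, e4]
  ring

end SCT

open SCT in
theorem st_SCT : St_SCT := by
  intro N k R s hs
  have hsur : Function.Surjective fun ρ : {ρ : E3 → ℝ // IsTFDensity N ρ} =>
      (⟨_, tf_sc hs ρ.2⟩ : {ρ : E3 → ℝ // IsTFDensity N ρ}) := fun ρ =>
    ⟨⟨_, tf_sc (inv_pos.2 hs) ρ.2⟩, Subtype.ext (funext fun x => by
      simp only [inv_smul_smul₀ hs.ne', inv_pow]
      exact mul_inv_cancel_left₀ (pow_pos hs 3).ne' _)⟩
  unfold tfEnergy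
  rw [← hsur.iInf_comp]
  exact iInf_congr fun ρ => by rw [fun_sc R hs ρ.2]

end Pool.Agent.Lib.HY
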