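import Pool.Agent.Lib.HY.Blue

open MeasureTheory Set Metric

noncomputable section

namespace Pool.Agent.Lib.HY

namespace SMALL

theorem exp3 (z : ℝ) : |Real.exp z - (1 + z + z ^ 2 / 2)| ≤ |z| ^ 3 * Real.exp |z| := by
  have h := Complex.norm_exp_sub_sum_le_norm_mul_exp (z : ℂ) 3
  have e : Complex.exp (z : ℂ) - ∑ m ∈ Finset.range 3, (z : ℂ) ^ m / (m.factorial : ℂ)
      = ((Real.exp z - (1 + z + z ^ 2 / 2) : ℝ) : ℂ) := by
    simp [Finset.sum_range_succ, Nat.factorial]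
  rw [e, Complex.norm_real, Complex.norm_real] at h
  simpa using h

/-- the constant of the pointwise bounds -/
def K : ℝ := 12 * Real.exp 9

theorem K_pos : 0 < K := by unfold K; positivity

theorem wt (p : ℝ) : Real.exp (-p ^ 2) * (2 * (2 * |p| + 1) ^ 3 * Real.exp (2 * |p| + 1))
    ≤ K * Real.exp (-|p|) := by
  have hq : 0 ≤ 2 * |p| + 1 := by positivity
  have h1 := Real.pow_div_factorial_le_exp (2 * |p| + 1) hq 3
  have h2 : (2 * |p| + 1) ^ 3 ≤ 6 * Real.exp (2 * |p| + 1) := by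
    have : ((3 : ℕ).factorial : ℝ) = 6 := by norm_num [Nat.factorial]
    rw [this] at h1
    linarith
  have h3 : Real.exp (-p ^ 2) * (Real.exp (2 * |p| + 1) * Real.exp (2 * |p| + 1))
      ≤ Real.exp 9 * Real.exp (-|p|) := by
    rw [← Real.exp_add, ← Real.exp_add, ← Real.exp_add]
    apply Real.exp_le_exp.2
    have := sq_abs p
    nlinarith [sq_nonneg (|p| - 5 / 2)]
  calc Real.exp (-p ^ 2) * (2 * (2 * |p| + 1) ^ 3 * Real.exp (2 * |p| + 1))
      ≤ Real.exp (-p ^ 2) * (2 * (6 * Real.exp (2 * |p| + 1)) * Real.exp (2 * |p| + 1)) := by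
        gcongr
    _ = 12 * (Real.exp (-p ^ 2) * (Real.exp (2 * |p| + 1) * Real.exp (2 * |p| + 1))) := by ring
    _ ≤ 12 * (Real.exp 9 * Real.exp (-|p|)) := by gcongr
    _ = K * Real.exp (-|p|) := by unfold K; ring

/-- first Taylor coefficient -/
def c1 (t u : ℝ) : ℝ := -(2 * t ^ 2 * u) * ee t u

/-- second Taylor coefficient -/
def c2 (t u : ℝ) : ℝ := (2 * (t * u) ^ 2 - 1) * t ^ 2 * ee t u

theorem ee_eq (t u : ℝ) : ee t u = Real.exp (-(t * u) ^ 2) := by
  unfold ee; congr 1; ring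

theorem q_le (p : ℝ) : 2 * |p| + 1 ≤ (2 * |p| + 1) ^ 3 * Real.exp (2 * |p| + 1) ∧
    (2 * |p| + 1) ^ 2 ≤ (2 * |p| + 1) ^ 3 * Real.exp (2 * |p| + 1) := by
  have hq : 1 ≤ 2 * |p| + 1 := by have := abs_nonneg p; linarith
  have he : 1 ≤ Real.exp (2 * |p| + 1) := Real.one_le_exp (by linarith)
  have h1 : (2 * |p| + 1) ^ 1 ≤ (2 * |p| + 1) ^ 3 := pow_le_pow_right₀ hq (by norm_num)
  have h2 : (2 * |p| + 1) ^ 2 ≤ (2 * |p| + 1) ^ 3 := pow_le_pow_right₀ hq (by norm_num)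
  have h3 : (2 * |p| + 1) ^ 3 ≤ (2 * |p| + 1) ^ 3 * Real.exp (2 * |p| + 1) :=
    le_mul_of_one_le_right (by positivity) he
  constructor <;> nlinarith

theorem c2_le (t u : ℝ) : |c2 t u| ≤ K * t ^ 2 * Real.exp (-|t * u|) := by
  have h := wt (t * u)
  have h2 := (q_le (t * u)).2
  unfold c2
  rw [ee_eq]
  set p := t * u
  have h3 : |2 * p ^ 2 - 1| ≤ (2 * |p| + 1) ^ 2 := by
    have := sq_abs p
    have := abs_nonneg p
    rw [abs_le]; constructor <;> nlinarith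
  have h4 : 0 ≤ (2 * |p| + 1) ^ 3 * Real.exp (2 * |p| + 1) := by positivity
  rw [abs_mul, abs_mul, abs_of_nonneg (sq_nonneg t), abs_of_pos (Real.exp_pos _)]
  calc |2 * p ^ 2 - 1| * t ^ 2 * Real.exp (-p ^ 2)
      ≤ (2 * (2 * |p| + 1) ^ 3 * Real.exp (2 * |p| + 1)) * t ^ 2 * Real.exp (-p ^ 2) := by
        gcongr; linarith
    _ = t ^ 2 * (Real.exp (-p ^ 2) * (2 * (2 * |p| + 1) ^ 3 * Real.exp (2 * |p| + 1))) := by ring
    _ ≤ t ^ 2 * (K * Real.exp (-|p|)) := by gcongr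
    _ = _ := by ring

theorem taylor {t : ℝ} (ht : 0 < t) (ht1 : t ≤ 1) (u h : ℝ) (hh : |h| ≤ 1) :
    |ee t (u + h) - (ee t u + c1 t u * h + c2 t u * h ^ 2)| ≤ K * t ^ 3 * Real.exp (-|t * u|) := by
  have hw := wt (t * u)
  have h1 := (q_le (t * u)).1
  have hs : |t * h| ≤ t := by
    rw [abs_mul, abs_of_pos ht]; exact mul_le_of_le_one_right ht.le hh
  have e0 : ee t (u + h) - (ee t u + c1 t u * h + c2 t u * h ^ 2) = Real.exp (-(t * u) ^ 2) *
      ((Real.exp (-(2 * (t * u) * (t * h) + (t * h) ^ 2)) -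
        (1 + -(2 * (t * u) * (t * h) + (t * h) ^ 2) + (-(2 * (t * u) * (t * h) + (t * h) ^ 2)) ^ 2 / 2))
        + (t * h) ^ 3 * (2 * (t * u) + (t * h) / 2)) := by
    have : ee t (u + h) = Real.exp (-(t * u) ^ 2) *
        Real.exp (-(2 * (t * u) * (t * h) + (t * h) ^ 2)) := by
      rw [← Real.exp_add]; unfold ee; congr 1; ring
    rw [this]; unfold c1 c2; rw [ee_eq]; ring
  rw [e0]
  set p := t * u
  set s := t * h
  have hp := abs_nonneg p
  have hs0 := abs_nonneg s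
  have hz : |-(2 * p * s + s ^ 2)| ≤ t * (2 * |p| + 1) := by
    have e : -(2 * p * s + s ^ 2) = -(s * (2 * p + s)) := by ring
    rw [e, abs_neg, abs_mul]
    have : |2 * p + s| ≤ 2 * |p| + 1 := by
      have := abs_add_le (2 * p) s
      rw [abs_mul, abs_two] at this
      linarith
    gcongr
  have hz1 : |-(2 * p * s + s ^ 2)| ≤ 2 * |p| + 1 :=
    hz.trans (mul_le_of_le_one_left (by positivity) ht1)
  have hR := exp3 (-(2 * p * s + s ^ 2))
  have hR2 : |-(2 * p * s + s ^ 2)| ^ 3 * Real.exp |-(2 * p * s + s ^ 2)| ≤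
      (t * (2 * |p| + 1)) ^ 3 * Real.exp (2 * |p| + 1) := by gcongr
  have hS : |s ^ 3 * (2 * p + s / 2)| ≤ t ^ 3 * (2 * |p| + 1) := by
    rw [abs_mul, abs_pow]
    have : |2 * p + s / 2| ≤ 2 * |p| + 1 := by
      have := abs_add_le (2 * p) (s / 2)
      rw [abs_mul, abs_two, abs_div, abs_two] at this
      linarith
    gcongr
  have hS2 : t ^ 3 * (2 * |p| + 1) ≤ t ^ 3 * ((2 * |p| + 1) ^ 3 * Real.exp (2 * |p| + 1)) := by
    gcongr
  rw [abs_mul, abs_of_pos (Real.exp_pos _)]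
  calc _ ≤ Real.exp (-p ^ 2) * (t ^ 3 * (2 * (2 * |p| + 1) ^ 3 * Real.exp (2 * |p| + 1))) := by
        gcongr
        refine (abs_add_le _ _).trans ?_
        have : (t * (2 * |p| + 1)) ^ 3 * Real.exp (2 * |p| + 1) =
          t ^ 3 * ((2 * |p| + 1) ^ 3 * Real.exp (2 * |p| + 1)) := by ring
        linarith
    _ = t ^ 3 * (Real.exp (-p ^ 2) * (2 * (2 * |p| + 1) ^ 3 * Real.exp (2 * |p| + 1))) := by ring
    _ ≤ t ^ 3 * (K * Real.exp (-|p|)) := by gcongr
    _ = _ := by ring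

theorem avg {f : ℝ → ℝ} (hf : Continuous f) {a b c M : ℝ}
    (h : ∀ x, |x| ≤ 1 / 2 → |f x - (a + b * x + c * x ^ 2)| ≤ M) :
    |(∫ x in (-(1 / 2) : ℝ)..(1 / 2), f x) - (a + c / 12)| ≤ M := by
  have e1 : ∫ x in (-(1 / 2) : ℝ)..(1 / 2), (a + b * x + c * x ^ 2) = a + c / 12 := by
    rw [intervalIntegral.integral_add, intervalIntegral.integral_add,
      intervalIntegral.integral_const_mul, intervalIntegral.integral_const_mul, integral_id,
      integral_pow]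
    · simp; ring
    all_goals exact Continuous.intervalIntegrable (by fun_prop) _ _
  rw [← e1, ← intervalIntegral.integral_sub (hf.intervalIntegrable _ _)
    (Continuous.intervalIntegrable (by fun_prop) _ _)]
  have := intervalIntegral.norm_integral_le_of_norm_le_const (a := (-(1 / 2) : ℝ)) (b := 1 / 2)
    (C := M) (f := fun x => f x - (a + b * x + c * x ^ 2)) (fun x hx => by
      rw [uIoc_of_le (by norm_num)] at hx
      exact h x (abs_le.2 ⟨hx.1.le, hx.2⟩))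
  norm_num at this ⊢
  exact this

theorem ee_cont (t : ℝ) : Continuous (ee t) := by unfold ee; fun_prop

/-- single average -/
def S1 (t u : ℝ) : ℝ := ∫ x in (-(1 / 2) : ℝ)..(1 / 2), ee t (u + x)

/-- double average -/
def S2 (t u : ℝ) : ℝ :=
  ∫ x in (-(1 / 2) : ℝ)..(1 / 2), ∫ y in (-(1 / 2) : ℝ)..(1 / 2), ee t (u + (x - y))

theorem S1_le {t : ℝ} (ht : 0 < t) (ht1 : t ≤ 1) (u : ℝ) :
    |S1 t u - (ee t u + c2 t u / 12)| ≤ K * t ^ 3 * Real.exp (-|t * u|) :=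
  avg (f := fun x => ee t (u + x)) ((ee_cont t).comp (by fun_prop))
    (fun x hx => taylor ht ht1 u x (by linarith))

theorem S2_le {t : ℝ} (ht : 0 < t) (ht1 : t ≤ 1) (u : ℝ) :
    |S2 t u - (ee t u + c2 t u / 12 + c2 t u / 12)| ≤ K * t ^ 3 * Real.exp (-|t * u|) := by
  have hc := ee_cont t
  refine avg (f := fun x => ∫ y in (-(1 / 2) : ℝ)..(1 / 2), ee t (u + (x - y))) (b := c1 t u)
    (intervalIntegral.continuous_parametric_intervalIntegral_of_continuous'
      (f := fun x y => ee t (u + (x - y))) (hc.comp (by fun_prop)) _ _) (fun x hx => ?_)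
  have := avg (f := fun y => ee t (u + (x - y))) (hc.comp (by fun_prop))
    (a := ee t u + c1 t u * x + c2 t u * x ^ 2) (b := -c1 t u - 2 * c2 t u * x) (c := c2 t u)
    (M := K * t ^ 3 * Real.exp (-|t * u|)) (fun y hy => by
      have := taylor ht ht1 u (x - y) ((abs_sub x y).trans (by linarith))
      convert this using 3
      ring)
  convert this using 3
  ring

theorem cells {f : ℝ → ℝ} (hf : Continuous f) (n : ℕ) : ∫ x in (0 : ℝ)..n, f x =
    ∑ j : Fin n, ∫ x in (-(1 / 2) : ℝ)..(1 / 2), f (((j : ℕ) : ℝ) + 1 / 2 + x) := by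
  have h := intervalIntegral.sum_integral_adjacent_intervals (f := f) (μ := volume)
    (a := fun k : ℕ => (k : ℝ)) (n := n) (fun k _ => hf.intervalIntegrable _ _)
  simp only [Nat.cast_zero] at h
  rw [← h, Finset.sum_range]
  refine Finset.sum_congr rfl fun j _ => ?_
  rw [intervalIntegral.integral_comp_add_left]
  congr 1 <;> push_cast <;> ring

theorem BB_eq (n : ℕ) (t : ℝ) :
    BB n t = ∑ i : Fin n, ∑ j : Fin n, S1 t (((i : ℕ) : ℝ) - ((j : ℕ) : ℝ)) := by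
  unfold BB
  rw [Finset.sum_comm]
  refine Finset.sum_congr rfl fun i _ => ?_
  rw [cells (f := fun x => ee t (x - (((i : ℕ) : ℝ) + 1 / 2))) ((ee_cont t).comp (by fun_prop))]
  refine Finset.sum_congr rfl fun j _ => ?_
  unfold S1
  congr 1; ext x; congr 1; ring

theorem DD_eq (n : ℕ) (t : ℝ) :
    DD n t = ∑ i : Fin n, ∑ j : Fin n, S2 t (((i : ℕ) : ℝ) - ((j : ℕ) : ℝ)) := by
  have hc := ee_cont t
  unfold DD
  rw [cells (f := fun x => ∫ y in (0 : ℝ)..n, ee t (x - y))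
    (intervalIntegral.continuous_parametric_intervalIntegral_of_continuous'
      (f := fun x y => ee t (x - y)) (hc.comp (by fun_prop)) _ _)]
  refine Finset.sum_congr rfl fun i _ => ?_
  unfold S2
  rw [← intervalIntegral.integral_finsetSum (fun (j : Fin n) _ => Continuous.intervalIntegrable
    (intervalIntegral.continuous_parametric_intervalIntegral_of_continuous'
      (f := fun x y => ee t (((i : ℕ) : ℝ) - ((j : ℕ) : ℝ) + (x - y))) (hc.comp (by fun_prop)) _ _) _ _)]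
  congr 1; ext x
  rw [cells (f := fun y => ee t (((i : ℕ) : ℝ) + 1 / 2 + x - y)) (hc.comp (by fun_prop))]
  refine Finset.sum_congr rfl fun j _ => ?_
  congr 1; ext y; congr 1; ring

theorem step {t : ℝ} (ht : 0 < t) (ht1 : t ≤ 1) (y : ℝ) :
    t / 8 * Real.exp (-|y|) ≤ (1 + Real.exp (-(y + t)))⁻¹ - (1 + Real.exp (-y))⁻¹ := by
  have hw := Real.exp_pos (-y)
  have hr := Real.exp_pos (-t)
  have e1 : Real.exp (-(y + t)) = Real.exp (-y) * Real.exp (-t) := by
    rw [← Real.exp_add]; congr 1; ring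
  have hr1 : Real.exp (-t) ≤ 1 - t / 2 := by
    have h1 := Real.add_one_le_exp t
    have h2 : Real.exp (-t) * Real.exp t = 1 := by rw [← Real.exp_add]; simp
    nlinarith
  have hm : Real.exp (-|y|) * (1 + Real.exp (-y)) ^ 2 ≤ 4 * Real.exp (-y) := by
    rcases le_total 0 y with h | h
    · rw [abs_of_nonneg h]
      have : Real.exp (-y) ≤ 1 := Real.exp_le_one_iff.2 (by linarith)
      have : (1 + Real.exp (-y)) ^ 2 ≤ 4 := by nlinarith
      nlinarith
    · rw [abs_of_nonpos h, neg_neg]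
      have h2 : Real.exp y * Real.exp (-y) = 1 := by rw [← Real.exp_add]; simp
      have h3 : Real.exp y ≤ 1 := Real.exp_le_one_iff.2 h
      have h4 : 1 ≤ Real.exp (-y) := Real.one_le_exp (by linarith)
      have : Real.exp y * (1 + Real.exp (-y)) ^ 2 = Real.exp y + 2 + Real.exp (-y) := by
        linear_combination (2 + Real.exp (-y)) * h2
      linarith
  rw [e1]
  set w := Real.exp (-y)
  set r := Real.exp (-t)
  set m := Real.exp (-|y|)
  have hm0 : 0 < m := Real.exp_pos _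
  have e2 : (1 + w * r)⁻¹ - (1 + w)⁻¹ = w * (1 - r) / ((1 + w * r) * (1 + w)) := by
    field_simp; ring
  rw [e2, le_div_iff₀ (by positivity)]
  have h5 : (1 + w * r) * (1 + w) ≤ (1 + w) ^ 2 := by
    have : w * r ≤ w := mul_le_of_le_one_right hw.le (by linarith)
    nlinarith
  calc t / 8 * m * ((1 + w * r) * (1 + w)) ≤ t / 8 * m * (1 + w) ^ 2 := by gcongr
    _ = t / 8 * (m * (1 + w) ^ 2) := by ring
    _ ≤ t / 8 * (4 * w) := by gcongr
    _ = w * (t / 2) := by ring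
    _ ≤ w * (1 - r) := by gcongr; linarith

theorem row {t : ℝ} (ht : 0 < t) (ht1 : t ≤ 1) (a : ℝ) (n : ℕ) :
    ∑ j : Fin n, Real.exp (-|t * (a - ((j : ℕ) : ℝ))|) ≤ 8 / t := by
  have h1 := Finset.sum_range_sub (fun j : ℕ => (1 + Real.exp (-(t * ((j : ℝ) - a))))⁻¹) n
  have h2 : ∑ j ∈ Finset.range n, t / 8 * Real.exp (-|t * (a - (j : ℝ))|) ≤ 1 := by
    refine (Finset.sum_le_sum fun j _ => ?_).trans (h1.le.trans ?_)
    · have := step ht ht1 (t * ((j : ℝ) - a))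
      have e : |t * (a - (j : ℝ))| = |t * ((j : ℝ) - a)| := by
        rw [← abs_neg]; congr 1; ring
      have e' : t * (((j + 1 : ℕ) : ℝ) - a) = t * ((j : ℝ) - a) + t := by push_cast; ring
      rw [e, e']
      exact this
    · have h3 : (1 + Real.exp (-(t * ((n : ℝ) - a))))⁻¹ ≤ 1 :=
        inv_le_one_of_one_le₀ (by have := Real.exp_pos (-(t * ((n : ℝ) - a))); linarith)
      have h4 : 0 ≤ (1 + Real.exp (-(t * (((0 : ℕ) : ℝ) - a))))⁻¹ := by positivity
      linarith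
  rw [← Finset.mul_sum, Finset.sum_range (fun j : ℕ => Real.exp (-|t * (a - (j : ℝ))|))] at h2
  rw [le_div_iff₀ ht]
  linarith

theorem dbl {t : ℝ} (ht : 0 < t) (ht1 : t ≤ 1) (n : ℕ) {g : ℝ → ℝ} {M : ℝ} (hM : 0 ≤ M)
    (h : ∀ u, |g u| ≤ M * Real.exp (-|t * u|)) :
    |∑ i : Fin n, ∑ j : Fin n, g (((i : ℕ) : ℝ) - ((j : ℕ) : ℝ))| ≤ n * (M * (8 / t)) := by
  refine (Finset.abs_sum_le_sum_abs _ _).trans ?_
  have : ∀ i : Fin n, |∑ j : Fin n, g (((i : ℕ) : ℝ) - ((j : ℕ) : ℝ))| ≤ M * (8 / t) := fun i => by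
    refine (Finset.abs_sum_le_sum_abs _ _).trans ((Finset.sum_le_sum fun j _ => h _).trans ?_)
    rw [← Finset.mul_sum]
    exact mul_le_mul_of_nonneg_left (row ht ht1 _ n) hM
  refine (Finset.sum_le_sum fun i _ => this i).trans ?_
  simp

theorem fin {B al ga L n t g : ℝ} (ht : 0 < t) (ht1 : t ≤ 1) (hn : 0 ≤ n) (hL : 0 ≤ L) (hg : 0 ≤ g)
    (hB0 : 0 ≤ B) (hB : B ≤ n * (g / t)) (h1 : |al| ≤ L * n * t) (h2 : |ga| ≤ L * n * t)
    (h3 : |al + ga| ≤ L * n * t ^ 2) :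
    (B + al) ^ 3 - 2 * B ^ 3 + (B + ga) ^ 3 ≤ (3 * g ^ 2 * L + 6 * g * L ^ 2 + 2 * L ^ 3) * n ^ 3 := by
  have e : (B + al) ^ 3 - 2 * B ^ 3 + (B + ga) ^ 3 =
    3 * (B ^ 2 * (al + ga)) + 3 * (B * al ^ 2) + 3 * (B * ga ^ 2) + al ^ 3 + ga ^ 3 := by ring
  have hx : L * n * t ≤ L * n := mul_le_of_le_one_right (by positivity) ht1
  have a1 : B ^ 2 * (al + ga) ≤ g ^ 2 * L * n ^ 3 :=
    calc B ^ 2 * (al + ga) ≤ B ^ 2 * |al + ga| := by gcongr; exact le_abs_self _
      _ ≤ (n * (g / t)) ^ 2 * (L * n * t ^ 2) := by gcongr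
      _ = _ := by field_simp
  have a2 : ∀ x : ℝ, |x| ≤ L * n * t → B * x ^ 2 ≤ g * L ^ 2 * n ^ 3 ∧ x ^ 3 ≤ L ^ 3 * n ^ 3 := by
    intro x hx1
    have hx2 := hx1.trans hx
    constructor
    · calc B * x ^ 2 = B * (|x| * |x|) := by rw [← sq, sq_abs]
        _ ≤ (n * (g / t)) * ((L * n * t) * (L * n)) := by gcongr
        _ = _ := by field_simp
    · calc x ^ 3 ≤ |x ^ 3| := le_abs_self _
        _ = |x| ^ 3 := abs_pow _ _
        _ ≤ (L * n) ^ 3 := by gcongr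
        _ = _ := by ring
  have b1 := a2 al h1
  have b2 := a2 ga h2
  rw [e]
  linarith [b1.1, b1.2, b2.1, b2.2]

end SMALL

open SMALL in
theorem st_SMALL (hL : St_LARGE) : St_SMALL := by
  obtain ⟨_, _, hL⟩ := hL
  have hK := K_pos
  refine ⟨3 * √Real.pi ^ 2 * (40 * K) + 6 * √Real.pi * (40 * K) ^ 2 + 2 * (40 * K) ^ 3,
    by positivity, fun n t ht ht1 => ?_⟩
  obtain ⟨_, _, hB0, hB, _⟩ := hL n t ht
  have ht3 : t ^ 3 ≤ t ^ 2 := pow_le_pow_of_le_one ht.le ht1 (by norm_num)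
  have h1 := dbl ht ht1 n (g := fun u => ee t u - S1 t u) (M := 2 * K * t ^ 2) (by positivity)
    (fun u => by
      have a1 := abs_le.1 (S1_le ht ht1 u)
      have a2 := abs_le.1 (c2_le t u)
      have a3 : K * t ^ 3 * Real.exp (-|t * u|) ≤ K * t ^ 2 * Real.exp (-|t * u|) := by gcongr
      have a4 : 0 ≤ K * t ^ 2 * Real.exp (-|t * u|) := by positivity
      rw [abs_le]; constructor <;> linarith [a1.1, a1.2, a2.1, a2.2])
  have h2 := dbl ht ht1 n (g := fun u => ee t u - 2 * S1 t u + S2 t u) (M := 3 * K * t ^ 3)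
    (by positivity) (fun u => by
      have a1 := abs_le.1 (S1_le ht ht1 u)
      have a2 := abs_le.1 (S2_le ht ht1 u)
      rw [abs_le]; constructor <;> linarith [a1.1, a1.2, a2.1, a2.2])
  simp only [Finset.sum_add_distrib, Finset.sum_sub_distrib, ← Finset.mul_sum] at h1 h2
  rw [← BB_eq] at h1 h2
  rw [← DD_eq] at h2
  change |AA n t - BB n t| ≤ _ at h1
  change |AA n t - 2 * BB n t + DD n t| ≤ _ at h2
  have e1 : (n : ℝ) * (2 * K * t ^ 2 * (8 / t)) = 16 * (K * n * t) := by field_simp; ring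
  have e2 : (n : ℝ) * (3 * K * t ^ 3 * (8 / t)) = 24 * (K * n * t ^ 2) := by field_simp; ring
  rw [e1] at h1
  rw [e2] at h2
  have p1 : 0 ≤ K * n * t ^ 2 := by positivity
  have p2 : K * n * t ^ 2 ≤ K * n * t := by
    have : t ^ 2 ≤ t := by nlinarith
    gcongr
  have b1 := abs_le.1 h1
  have b2 := abs_le.1 h2
  have := SMALL.fin (al := AA n t - BB n t) (ga := DD n t - BB n t) (L := 40 * K) ht ht1
    (Nat.cast_nonneg n) (by positivity) (Real.sqrt_nonneg _) hB0 hB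
    (by rw [abs_le]; constructor <;> linarith [b1.1, b1.2])
    (by rw [abs_le]; constructor <;> linarith [b1.1, b1.2, b2.1, b2.2])
    (by rw [abs_le]; constructor <;> linarith [b2.1, b2.2])
  convert this using 3 <;> ring

end Pool.Agent.Lib.HY
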