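import Pool.Agent.Lib.HY.Blue

/-! Lower bound for the Thomas-Fermi functional of the lattice with explicit constants. -/

open MeasureTheory Set Metric

noncomputable section

namespace Pool.Agent.Lib.HY

open Pool.Agent.Lib.MP_f7be6d_mp Pool.Agent.Lib.MP_f7be6d_mp.Unit

namespace TFL

lemma young {σ r y Y : ℝ} (hσ : 0 < σ) (hr : 0 ≤ r) (hY : 0 ≤ Y) (hy : y ≤ Y) :
    -(2 / (15 * Real.pi ^ 2 * σ ^ 3) * Y ^ (5 / 2 : ℝ))
      ≤ σ ^ 2 * (gam * r ^ (5 / 3 : ℝ)) - r * y := by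
  have hg : 0 < gF := lt_of_lt_of_le (by norm_num) gF_ge
  obtain ⟨b, hb, rfl⟩ : ∃ b : ℝ, 0 ≤ b ∧ r = b ^ 3 :=
    ⟨r ^ (1 / 3 : ℝ), Real.rpow_nonneg hr _, by
      rw [← Real.rpow_natCast, ← Real.rpow_mul hr]; norm_num⟩
  obtain ⟨c, hc, rfl⟩ : ∃ c : ℝ, 0 ≤ c ∧ Y = c ^ 2 :=
    ⟨√Y, Real.sqrt_nonneg _, (Real.sq_sqrt hY).symm⟩
  have e1 : (b ^ 3) ^ (5 / 3 : ℝ) = b ^ 5 := by
    rw [← Real.rpow_natCast, ← Real.rpow_mul hb, ← Real.rpow_natCast]; norm_num
  have e2 : (c ^ 2) ^ (5 / 2 : ℝ) = c ^ 5 := by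
    rw [← Real.rpow_natCast, ← Real.rpow_mul hc, ← Real.rpow_natCast]; norm_num
  have e3 : 15 * Real.pi ^ 2 = 5 * gF ^ 3 := by rw [gF_cube]; ring
  rw [e1, e2, e3, gam_eq]
  set p := σ * gF * b with hp
  have hp0 : 0 ≤ p := by positivity
  have key : 0 ≤ 3 * p ^ 5 - 5 * p ^ 3 * c ^ 2 + 2 * c ^ 5 := by
    have : 3 * p ^ 5 - 5 * p ^ 3 * c ^ 2 + 2 * c ^ 5
        = (p - c) ^ 2 * (3 * p ^ 3 + 6 * p ^ 2 * c + 4 * p * c ^ 2 + 2 * c ^ 3) := by ring
    rw [this]; positivity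
  have e4 : σ ^ 2 * (3 / 5 * gF ^ 2 * b ^ 5) - b ^ 3 * c ^ 2 + 2 / (5 * gF ^ 3 * σ ^ 3) * c ^ 5
      = (3 * p ^ 5 - 5 * p ^ 3 * c ^ 2 + 2 * c ^ 5) / (5 * gF ^ 3 * σ ^ 3) := by
    rw [hp]; field_simp
  have h5 : 0 ≤ (3 * p ^ 5 - 5 * p ^ 3 * c ^ 2 + 2 * c ^ 5) / (5 * gF ^ 3 * σ ^ 3) := by positivity
  have h6 := mul_le_mul_of_nonneg_left hy (pow_nonneg hb 3)
  linarith

lemma sum_near {n : ℕ} {F : E3 → ℝ} (hF : ∀ v, 1 / 2 ≤ ‖v‖ → F v = 0) {x : E3}
    {j : Fin 3 → Fin n} (hj : ‖x - cc j‖ < 1 / 2) :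
    ∑ i : Fin 3 → Fin n, F (x - cc i) = F (x - cc j) := by
  refine Finset.sum_eq_single j (fun i _ hne => hF _ ?_) (by simp)
  have h1 := le_dist_ctr one_pos (idx_injective.ne hne)
  have h2 := norm_sub_le (x - cc j) (x - cc i)
  have e : x - cc j - (x - cc i) = cc i - cc j := by abel
  rw [e] at h2
  unfold cc at *
  linarith

lemma sum_far {n : ℕ} {F : E3 → ℝ} (hF : ∀ v, 1 / 2 ≤ ‖v‖ → F v = 0) {x : E3}
    (h : ¬∃ j : Fin 3 → Fin n, ‖x - cc j‖ < 1 / 2) :
    ∑ i : Fin 3 → Fin n, F (x - cc i) = 0 :=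
  Finset.sum_eq_zero fun i _ => hF _ (not_lt.1 fun hi => h ⟨i, hi⟩)

lemma near_mem {n : ℕ} {x : E3} {j : Fin 3 → Fin n} (hj : ‖x - cc j‖ < 1 / 2) :
    x ∈ cube 0 (n : ℝ) := by
  intro i
  have h3 := abs_lt.1 ((abs_apply_le (x - cc j) i).trans_lt hj)
  unfold cc at h3
  rw [PiLp.sub_apply, ctr_apply] at h3
  simp only [idx, Int.cast_natCast] at h3
  have h4 : ((j i : ℕ) : ℝ) + 1 ≤ n := by exact_mod_cast (j i).2
  have h5 : (0 : ℝ) ≤ (j i : ℕ) := Nat.cast_nonneg _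
  constructor <;> linarith [h3.1, h3.2]

lemma mu_far (v : E3) (h : 1 / 2 ≤ ‖v‖) : mu v = 0 := if_neg (not_lt.2 h)
lemma WW_far (v : E3) (h : 1 / 2 ≤ ‖v‖) : WW v = 0 := if_neg (not_lt.2 h)
lemma RR_far (v : E3) (h : 1 / 2 ≤ ‖v‖) : RR v = 0 := if_neg (not_lt.2 h)

lemma three_rpow : (3 : ℝ) ^ (5 / 2 : ℝ) ≤ 155885 / 10000 := by
  have e : (3 : ℝ) ^ (5 / 2 : ℝ) = 9 * √3 := by
    rw [show (5 / 2 : ℝ) = 2 + 1 / 2 by norm_num, Real.rpow_add (by norm_num), Real.sqrt_eq_rpow]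
    norm_num
  have h : √3 ≤ 173205081 / 100000000 := by
    rw [Real.sqrt_le_iff]; constructor <;> norm_num
  rw [e]; linarith

lemma num {σ : ℝ} (hσ : 0 < σ) :
    2 / (15 * Real.pi ^ 2 * σ ^ 3) * ((3 : ℝ) ^ (5 / 2 : ℝ) * (1 - Real.pi / 6) + 216224 / 10000)
      ≤ 39244 / 100000 / σ ^ 3 := by
  have h1 := Real.pi_gt_d6
  have h2 := Real.pi_lt_d6
  have h3 : (3 : ℝ) ^ (5 / 2 : ℝ) * (1 - Real.pi / 6) ≤ 155885 / 10000 * (4764014 / 10000000) :=
    mul_le_mul three_rpow (by linarith) (by linarith) (by norm_num)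
  have h4 : 98696 / 10000 ≤ Real.pi ^ 2 := by nlinarith
  have e : 2 / (15 * Real.pi ^ 2 * σ ^ 3)
      * ((3 : ℝ) ^ (5 / 2 : ℝ) * (1 - Real.pi / 6) + 216224 / 10000)
      = 2 * ((3 : ℝ) ^ (5 / 2 : ℝ) * (1 - Real.pi / 6) + 216224 / 10000) / (15 * Real.pi ^ 2)
        / σ ^ 3 := by
    field_simp
  rw [e]
  refine div_le_div_of_nonneg_right ?_ (by positivity)
  rw [div_le_iff₀ (by positivity)]
  linarith

end TFL

open TFL

theorem st_TFL (hB : St_BALL) (hO : St_ONS) (hR : St_RAD) : St_TFL := by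
  intro σ δ hσ hδ
  obtain ⟨Cp, hCp, hplat⟩ := plateau
  obtain ⟨hmc, hm1, -, -⟩ := hB
  obtain ⟨hRi, hRv⟩ := hR
  have hpi := Real.pi_gt_three
  set κ := 2 / (15 * Real.pi ^ 2 * σ ^ 3) with hκ
  have hκ0 : 0 < κ := by positivity
  set T : ℝ := (3 : ℝ) ^ (5 / 2 : ℝ) with hT
  have hT0 : 0 ≤ T := Real.rpow_nonneg (by norm_num) _
  have hT1 : T ≤ 16 := three_rpow.trans (by norm_num)
  set s0 := min 1 (δ / (36 * Cp)) with hs0
  have hs00 : 0 < s0 := lt_min one_pos (by positivity)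
  have hs01 : 9 * Cp * s0 ^ 2 ≤ δ / 4 := by
    have a1 : s0 ≤ 1 := min_le_left _ _
    have a2 : s0 ≤ δ / (36 * Cp) := min_le_right _ _
    rw [le_div_iff₀ (by positivity)] at a2
    have a3 : s0 ^ 2 ≤ s0 := by nlinarith
    nlinarith
  set t := max 1 (24 * Cp / (δ * s0 ^ 2)) with ht
  have ht1 : 1 ≤ t := le_max_left _ _
  have ht0 : 0 < t := by linarith
  set ε := Cp * 3 / (s0 * t) ^ 2 with hε
  have hε0 : 0 ≤ ε := by positivity
  have hε1 : ε ≤ δ / 8 := by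
    have a2 : 24 * Cp / (δ * s0 ^ 2) ≤ t := le_max_right _ _
    rw [div_le_iff₀ (by positivity)] at a2
    rw [hε, div_le_iff₀ (by positivity)]
    have a3 : t * (δ * s0 ^ 2) ≤ t ^ 2 * (δ * s0 ^ 2) :=
      mul_le_mul_of_nonneg_right (by nlinarith) (by positivity)
    nlinarith
  obtain ⟨n₀, hn₀⟩ := exists_nat_ge (max (2 * t) (2 * (224 * κ + 48) * t / δ))
  refine ⟨n₀, fun n hn ρ hρ => ?_⟩
  have hnn : (n₀ : ℝ) ≤ n := by exact_mod_cast hn
  have hn1 : 2 * t ≤ n := ((le_max_left _ _).trans hn₀).trans hnn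
  have hn2 : 2 * (224 * κ + 48) * t ≤ n * δ := by
    have := ((le_max_right _ _).trans hn₀).trans hnn
    rwa [div_le_iff₀ hδ] at this
  have hn0 : (0 : ℝ) < n := by linarith
  have hρc := Coul.of_tf hρ
  obtain ⟨hνc, hWi, hons⟩ := hO n ρ hρc
  obtain ⟨φ, hφm, hφb, hφin, hφout, hφI⟩ := hplat _ (hρc.sub hνc) s0 3 hs00 (by norm_num)
    (cube 0 n) (measurableSet_cube _ _) (volume_cube_ne_top _ _)
  rw [volume_real_cube hn0.le, sub_zero] at hφI
  have hpt : ∀ x, (3 - ε + κ * T * (Real.pi / 6)) * nu n x - κ * T * ind (-t) (n + t) x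
      - κ * ∑ j : Fin 3 → Fin n, RR (x - cc j) - 6 * (ind 0 n x - ind t (n - t) x) - ε * ρ x
      ≤ σ ^ 2 * (gam * ρ x ^ (5 / 3 : ℝ)) - ρ x * WS n x - (ρ x - nu n x) * φ x := by
    intro x
    have hρx := hρ.nonneg x
    have hερ : 0 ≤ ε * ρ x := mul_nonneg hε0 hρx
    have hsub0 : cube t ((n : ℝ) - t) ⊆ cube 0 n := cube_mono ht0.le (by linarith)
    by_cases h : ∃ j : Fin 3 → Fin n, ‖x - cc j‖ < 1 / 2
    · obtain ⟨j, hj⟩ := h
      have hx := near_mem hj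
      have e1 : nu n x = 6 / Real.pi := (sum_near mu_far hj).trans (if_pos hj)
      have e2 : WS n x = WW (x - cc j) := sum_near WW_far hj
      have e3 : ∑ j : Fin 3 → Fin n, RR (x - cc j) = (3 + WW (x - cc j)) ^ (5 / 2 : ℝ) :=
        (sum_near RR_far hj).trans (if_pos hj)
      have hY : 0 ≤ 3 + WW (x - cc j) := by
        unfold WW
        rw [if_pos hj]
        have : 0 ≤ 1 / ‖x - cc j‖ + 4 * ‖x - cc j‖ ^ 2 := by positivity
        linarith
      have h1 := young hσ hρx hY (y := WW (x - cc j) + φ x) (by linarith [(hφb x).2])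
      have h6 : 6 / Real.pi ≤ 2 := by rw [div_le_iff₀ (by linarith)]; linarith
      have h7 : 0 ≤ 6 / Real.pi := by positivity
      have e4 : κ * T * (Real.pi / 6) * (6 / Real.pi) = κ * T := by field_simp
      have h2 : (3 - ε) * (6 / Real.pi) - 6 * (1 - ind t (n - t) x) ≤ 6 / Real.pi * φ x := by
        by_cases h3 : x ∈ cube t ((n : ℝ) - t)
        · have h4 := hφin x t ht0 (ball_subset_cube (by simpa using h3))
          rw [ind_of_mem h3]
          have h5 : 3 - ε ≤ φ x := by rw [hε]; linarith only [h4]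
          have h8 := mul_le_mul_of_nonneg_left h5 h7
          linarith only [h8]
        · rw [ind_of_notMem h3]
          have h8 := mul_nonneg h7 (hφb x).1
          have h9 := mul_nonneg hε0 h7
          linarith only [h8, h9, h6]
      rw [e1, e2, e3, ind_of_mem hx,
        ind_of_mem (cube_mono (by linarith) (by linarith) hx : x ∈ cube (-t) ((n : ℝ) + t))]
      rw [← hκ] at h1
      linarith only [h1, h2, e4, hερ]
    · have e1 : nu n x = 0 := sum_far mu_far h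
      have e2 : WS n x = 0 := sum_far WW_far h
      have e3 : ∑ j : Fin 3 → Fin n, RR (x - cc j) = 0 := sum_far RR_far h
      have h2 : 0 ≤ ind 0 n x - ind t (n - t) x := by
        by_cases h3 : x ∈ cube t ((n : ℝ) - t)
        · rw [ind_of_mem h3, ind_of_mem (hsub0 h3), sub_self]
        · rw [ind_of_notMem h3, sub_zero]; exact ind_nonneg _ _ _
      rw [e1, e2, e3]
      by_cases h3 : x ∈ cube (-t) ((n : ℝ) + t)
      · have h1 := young hσ hρx (Y := 3) (by norm_num) (hφb x).2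
        rw [← hκ, ← hT] at h1
        rw [ind_of_mem h3]
        linarith
      · have h4 := hφout x t ht0 (disjoint_ball_cube (by simpa using h3))
        have h5 : 0 ≤ σ ^ 2 * (gam * ρ x ^ (5 / 3 : ℝ)) :=
          mul_nonneg (sq_nonneg _) (mul_nonneg (le_trans (by norm_num) gam_ge)
            (Real.rpow_nonneg hρx _))
        have h6 := mul_le_mul_of_nonneg_left h4 hρx
        rw [ind_of_notMem h3]
        linarith
  have iR : Integrable (fun x => ∑ j : Fin 3 → Fin n, RR (x - cc j)) :=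
    integrable_finsetSum _ fun _ _ => hRi.comp_sub_right _
  have i1 : Integrable (fun x => (3 - ε + κ * T * (Real.pi / 6)) * nu n x) := hνc.int.const_mul _
  have i2 : Integrable (fun x => κ * T * ind (-t) (n + t) x) := (integrable_ind _ _).const_mul _
  have i3 : Integrable (fun x => κ * ∑ j : Fin 3 → Fin n, RR (x - cc j)) := iR.const_mul _
  have i4' : Integrable (fun x => ind 0 n x - ind t (n - t) x) :=
    (integrable_ind _ _).sub (integrable_ind _ _)
  have i4 : Integrable (fun x => 6 * (ind 0 n x - ind t (n - t) x)) := i4'.const_mul _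
  have i5 : Integrable (fun x => ε * ρ x) := hρ.memL1.const_mul _
  have j1 : Integrable (fun x => σ ^ 2 * (gam * ρ x ^ (5 / 3 : ℝ))) :=
    (hρ.integrable_rpow.const_mul _).const_mul _
  have j3 : Integrable (fun x => (ρ x - nu n x) * φ x) :=
    (hρc.sub hνc).int.mul_bdd (c := 3) hφm (Filter.Eventually.of_forall fun x => by
      rw [Real.norm_of_nonneg (hφb x).1]; exact (hφb x).2)
  have i12 := i1.sub i2
  have i13 := i12.sub i3
  have i14 := i13.sub i4
  have j12 := j1.sub hWi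
  have hint := integral_mono (i14.sub i5) (j12.sub j3) hpt
  simp only [Pi.sub_apply] at hint
  have i12' : Integrable (fun x => (3 - ε + κ * T * (Real.pi / 6)) * nu n x
      - κ * T * ind (-t) (n + t) x) := i12
  have i13' : Integrable (fun x => (3 - ε + κ * T * (Real.pi / 6)) * nu n x
      - κ * T * ind (-t) (n + t) x - κ * ∑ j : Fin 3 → Fin n, RR (x - cc j)) := i13
  have i14' : Integrable (fun x => (3 - ε + κ * T * (Real.pi / 6)) * nu n x
      - κ * T * ind (-t) (n + t) x - κ * ∑ j : Fin 3 → Fin n, RR (x - cc j)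
      - 6 * (ind 0 n x - ind t (n - t) x)) := i14
  have j12' : Integrable (fun x => σ ^ 2 * (gam * ρ x ^ (5 / 3 : ℝ)) - ρ x * WS n x) := j12
  have eν : ∫ x, nu n x = n ^ 3 := by
    unfold nu
    rw [integral_finsetSum _ fun _ _ => hmc.int.comp_sub_right _]
    simp only [integral_sub_right_eq_self mu, hm1, Finset.sum_const, Finset.card_univ,
      Fintype.card_fun, Fintype.card_fin, nsmul_eq_mul]
    push_cast; ring
  have eR : ∫ x, ∑ j : Fin 3 → Fin n, RR (x - cc j) = n ^ 3 * ∫ x, RR x := by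
    rw [integral_finsetSum _ fun _ _ => hRi.comp_sub_right _]
    simp only [integral_sub_right_eq_self RR, Finset.sum_const, Finset.card_univ,
      Fintype.card_fun, Fintype.card_fin, nsmul_eq_mul]
    push_cast; ring
  rw [integral_sub i14' i5, integral_sub i13' i4, integral_sub i12' i3, integral_sub i1 i2,
    integral_sub j12' j3, integral_sub j1 hWi, integral_const_mul, integral_const_mul,
    integral_const_mul, integral_const_mul, integral_const_mul, integral_const_mul,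
    integral_const_mul, integral_sub (integrable_ind _ _) (integrable_ind _ _),
    integral_ind (by linarith), integral_ind hn0.le, integral_ind (by linarith), eν, eR] at hint
  have hmass : ∫ x, ρ x ≤ (n : ℝ) ^ 3 := by simpa using hρ.mass
  have k1 := mul_le_mul_of_nonneg_left hmass hε0
  have hn3 : (0 : ℝ) ≤ n ^ 3 := by positivity
  have k2 : κ * (n ^ 3 * ∫ x, RR x) ≤ κ * (n ^ 3 * (216224 / 10000)) := by gcongr
  have k3 : ((n : ℝ) + t - -t) ^ 3 ≤ n ^ 3 + 14 * (t * n ^ 2) := by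
    have a1 : t * (2 * t) * n ≤ t * n * n := by gcongr
    have a2 : t * (2 * t) ^ 2 ≤ t * n ^ 2 := by gcongr
    nlinarith
  have k4 : ((n : ℝ) - 0) ^ 3 - (n - t - t) ^ 3 ≤ 8 * (t * n ^ 2) := by
    have a1 : 0 ≤ t ^ 2 * n := by positivity
    have a2 : t * (2 * t) ^ 2 ≤ t * n ^ 2 := by gcongr
    nlinarith
  have k5 : κ * T * ((n : ℝ) + t - -t) ^ 3 ≤ κ * T * n ^ 3 + 224 * κ * (t * n ^ 2) := by
    have a1 := mul_le_mul_of_nonneg_left k3 (mul_nonneg hκ0.le hT0)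
    have a2 : κ * T * (t * n ^ 2) ≤ κ * 16 * (t * n ^ 2) := by gcongr
    linarith
  have k6 := mul_le_mul_of_nonneg_right (num hσ) hn3
  rw [← hκ, ← hT] at k6
  have k7 := mul_le_mul_of_nonneg_right hn2 (sq_nonneg (n : ℝ))
  have k8 := mul_le_mul_of_nonneg_right hs01 hn3
  have k9 := mul_le_mul_of_nonneg_right hε1 hn3
  unfold KT
  linarith

end Pool.Agent.Lib.HY
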