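import Pool.Agent.Lib.HY.Blue

/-! Theta function bounds for the lattice sum. -/

open MeasureTheory Set Metric

noncomputable section

namespace Pool.Agent.Lib.HY

namespace THETA

lemma term_le (v : ℝ) (hv : 0 < v) (n : ℕ) :
    Real.exp (-Real.pi * v * ((n : ℝ) + 1) ^ 2) ≤
      Real.exp (-(Real.pi * v)) * (Real.exp (-(Real.pi * v)) ^ 3) ^ n := by
  rw [← pow_mul, ← Real.exp_nat_mul, ← Real.exp_add]
  apply Real.exp_le_exp.2
  have h1 : (0 : ℝ) < Real.pi * v := mul_pos Real.pi_pos hv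
  have h2 : (3 * n + 1 : ℝ) ≤ ((n : ℝ) + 1) ^ 2 := by
    rcases Nat.eq_zero_or_pos n with h | h
    · subst h; norm_num
    · have : (1 : ℝ) ≤ n := by exact_mod_cast h
      nlinarith
  push_cast
  nlinarith [mul_le_mul_of_nonneg_left h2 h1.le]

lemma q_lt (v : ℝ) (hv : 0 < v) : Real.exp (-(Real.pi * v)) ^ 3 < 1 := by
  apply pow_lt_one₀ (Real.exp_pos _).le _ (by norm_num)
  exact Real.exp_lt_one_iff.2 (by have := mul_pos Real.pi_pos hv; linarith)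

lemma tail_sum (v : ℝ) (hv : 0 < v) :
    Summable (fun n : ℕ => Real.exp (-Real.pi * v * ((n : ℝ) + 1) ^ 2)) :=
  Summable.of_nonneg_of_le (fun _ => (Real.exp_pos _).le) (term_le v hv)
    ((summable_geometric_of_lt_one (by positivity) (q_lt v hv)).mul_left _)

lemma tail_le (v : ℝ) (hv : 0 < v) :
    ∑' n : ℕ, Real.exp (-Real.pi * v * ((n : ℝ) + 1) ^ 2) ≤
      Real.exp (-(Real.pi * v)) * (1 - Real.exp (-(Real.pi * v)) ^ 3)⁻¹ := by
  rw [← tsum_geometric_of_lt_one (by positivity) (q_lt v hv), ← tsum_mul_left]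
  exact (tail_sum v hv).tsum_le_tsum (term_le v hv)
    ((summable_geometric_of_lt_one (by positivity) (q_lt v hv)).mul_left _)

lemma hs (v : ℝ) (hv : 0 < v) :
    HasSum (fun m : ℤ => Real.exp (-Real.pi * v * (m : ℝ) ^ 2))
      (1 + ∑' n : ℕ, Real.exp (-Real.pi * v * ((n : ℝ) + 1) ^ 2)
        + ∑' n : ℕ, Real.exp (-Real.pi * v * ((n : ℝ) + 1) ^ 2)) := by
  apply HasSum.of_nat_of_neg_add_one
  · have h := (tail_sum v hv).hasSum
    rw [add_comm]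
    have := (hasSum_nat_add_iff (f := fun n : ℕ => Real.exp (-Real.pi * v * (((n : ℤ) : ℝ)) ^ 2)) 1
      (g := ∑' n : ℕ, Real.exp (-Real.pi * v * ((n : ℝ) + 1) ^ 2))).1 (by simpa using h)
    simpa using this
  · have h := (tail_sum v hv).hasSum
    have e : (fun n : ℕ => Real.exp (-Real.pi * v * (((-((n : ℤ) + 1) : ℤ) : ℝ)) ^ 2)) =
        fun n : ℕ => Real.exp (-Real.pi * v * ((n : ℝ) + 1) ^ 2) := by
      funext n
      push_cast
      rw [neg_sq]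
    rw [e]
    exact h

lemma exp_pi : Real.exp (-Real.pi) ≤ 433 / 10000 := by
  have h1 : (27182818 / 10000000 : ℝ) ≤ Real.exp 1 := by
    have := Real.exp_one_gt_d9; linarith
  have h2 : (1415 / 10000 : ℝ) ≤ Real.pi - 3 := by
    have := Real.pi_gt_d4; linarith
  have h3 : (1 + 1415 / 10000 + (1415 / 10000) ^ 2 / 2 : ℝ) ≤ Real.exp (Real.pi - 3) :=
    (Real.quadratic_le_exp_of_nonneg (by norm_num)).trans (Real.exp_le_exp.2 h2)
  have h4 : Real.exp Real.pi = Real.exp 1 ^ 3 * Real.exp (Real.pi - 3) := by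
    rw [← Real.exp_nat_mul, ← Real.exp_add]; congr 1; push_cast; ring
  have h5 : (27182818 / 10000000 : ℝ) ^ 3 ≤ Real.exp 1 ^ 3 := pow_le_pow_left₀ (by norm_num) h1 3
  have h6 : (231 / 10 : ℝ) ≤ Real.exp Real.pi := by
    rw [h4]
    calc (231 / 10 : ℝ) ≤ (27182818 / 10000000 : ℝ) ^ 3 *
          (1 + 1415 / 10000 + (1415 / 10000) ^ 2 / 2 : ℝ) := by norm_num
      _ ≤ _ := mul_le_mul h5 h3 (by norm_num) (by positivity)
  rw [Real.exp_neg]
  calc (Real.exp Real.pi)⁻¹ ≤ (231 / 10 : ℝ)⁻¹ := inv_anti₀ (by norm_num) h6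
    _ ≤ _ := by norm_num

lemma th_nn (v : ℝ) : 0 ≤ ∑' m : ℤ, Real.exp (-Real.pi * v * (m : ℝ) ^ 2) :=
  tsum_nonneg fun _ => (Real.exp_pos _).le

lemma th_cube (v : ℝ) (hv : 1 ≤ v) :
    (∑' m : ℤ, Real.exp (-Real.pi * v * (m : ℝ) ^ 2)) ^ 3 ≤
      1 + 654 / 100 * Real.exp (-(Real.pi * v)) := by
  have hv0 : 0 < v := by linarith
  have hq : Real.exp (-(Real.pi * v)) ≤ 433 / 10000 :=
    (Real.exp_le_exp.2 (by nlinarith [Real.pi_pos])).trans exp_pi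
  have hq0 : 0 < Real.exp (-(Real.pi * v)) := Real.exp_pos _
  have ht := tail_le v hv0
  have hn := th_nn v
  rw [(hs v hv0).tsum_eq] at hn ⊢
  set q := Real.exp (-(Real.pi * v)) with hqd
  set T := ∑' n : ℕ, Real.exp (-Real.pi * v * ((n : ℝ) + 1) ^ 2)
  have h3 : q ^ 3 ≤ (433 / 10000 : ℝ) ^ 3 := pow_le_pow_left₀ hq0.le hq 3
  have h4 : (1 - q ^ 3)⁻¹ ≤ 10005 / 10000 := by
    calc (1 - q ^ 3)⁻¹ ≤ (1 - (433 / 10000 : ℝ) ^ 3)⁻¹ := inv_anti₀ (by norm_num) (by linarith)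
      _ ≤ _ := by norm_num
  have h5 : T ≤ q * (10005 / 10000) := ht.trans (mul_le_mul_of_nonneg_left h4 hq0.le)
  have h6 : (1 + T + T) ^ 3 ≤ (1 + 2001 / 1000 * q) ^ 3 := pow_le_pow_left₀ hn (by linarith) 3
  have h7 : q ^ 2 ≤ 433 / 10000 * q := by nlinarith
  have h8 : q ^ 3 ≤ (433 / 10000) ^ 2 * q := by nlinarith
  nlinarith

lemma row_le (n : ℕ) (t : ℝ) (ht : 0 < t) (i : Fin n) :
    ∑ j : Fin n, ee t (((i : ℕ) : ℝ) - ((j : ℕ) : ℝ)) ≤
      ∑' m : ℤ, Real.exp (-Real.pi * (t ^ 2 / Real.pi) * (m : ℝ) ^ 2) := by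
  have hv : 0 < t ^ 2 / Real.pi := div_pos (by positivity) Real.pi_pos
  have hinj : Function.Injective (fun j : Fin n => ((i : ℕ) : ℤ) - ((j : ℕ) : ℤ)) := by
    intro a b hab
    apply Fin.ext
    simp only at hab
    omega
  have e : ∑ j : Fin n, ee t (((i : ℕ) : ℝ) - ((j : ℕ) : ℝ)) =
      ∑ m ∈ Finset.univ.image (fun j : Fin n => ((i : ℕ) : ℤ) - ((j : ℕ) : ℤ)),
        Real.exp (-Real.pi * (t ^ 2 / Real.pi) * (m : ℝ) ^ 2) := by
    rw [Finset.sum_image (fun a _ b _ hab => hinj hab)]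
    refine Finset.sum_congr rfl fun j _ => ?_
    unfold ee
    congr 1
    push_cast
    field_simp
  rw [e]
  exact (hs _ hv).summable.sum_le_tsum _ fun _ _ => (Real.exp_pos _).le

lemma AA_nn (n : ℕ) (t : ℝ) : 0 ≤ AA n t :=
  Finset.sum_nonneg fun _ _ => Finset.sum_nonneg fun _ _ => (Real.exp_pos _).le

lemma AA_le (n : ℕ) (t : ℝ) (ht : 0 < t) :
    AA n t ^ 3 ≤ n ^ 3 * (∑' m : ℤ, Real.exp (-Real.pi * (t ^ 2 / Real.pi) * (m : ℝ) ^ 2)) ^ 3 := by
  rw [← mul_pow]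
  refine pow_le_pow_left₀ (AA_nn n t) ?_ 3
  calc AA n t ≤ ∑ _i : Fin n, ∑' m : ℤ, Real.exp (-Real.pi * (t ^ 2 / Real.pi) * (m : ℝ) ^ 2) :=
        Finset.sum_le_sum fun i _ => row_le n t ht i
    _ = _ := by simp

end THETA

open THETA in
theorem st_THETA : St_THETA := by
  intro n t ht
  have hp := Real.pi_pos
  have hv : 0 < t ^ 2 / Real.pi := div_pos (by positivity) hp
  have hsq : √Real.pi ^ 2 = Real.pi := Real.sq_sqrt hp.le
  have hs0 : 0 < √Real.pi := Real.sqrt_pos.2 hp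
  have hn : (0 : ℝ) ≤ (n : ℝ) ^ 3 := by positivity
  refine ⟨fun h => ?_, fun h => ?_⟩
  · have h1 : 1 ≤ t ^ 2 / Real.pi := by
      rw [le_div_iff₀ hp]; nlinarith
    have h2 := th_cube _ h1
    have e : -(Real.pi * (t ^ 2 / Real.pi)) = -t ^ 2 := by field_simp
    rw [e] at h2
    exact (AA_le n t ht).trans (mul_le_mul_of_nonneg_left h2 hn)
  · have h1 : 1 ≤ Real.pi / t ^ 2 := by
      rw [le_div_iff₀ (by positivity)]; nlinarith
    have h2 := th_cube _ h1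
    have e : -(Real.pi * (Real.pi / t ^ 2)) = -(Real.pi ^ 2 / t ^ 2) := by field_simp
    rw [e] at h2
    have h3 := AA_le n t ht
    rw [Real.tsum_exp_neg_mul_int_sq hv] at h3
    have e1 : (1 : ℝ) / (t ^ 2 / Real.pi) ^ (1 / 2 : ℝ) = √Real.pi / t := by
      rw [← Real.sqrt_eq_rpow, Real.sqrt_div (by positivity), Real.sqrt_sq ht.le]
      field_simp
    have e2 : -Real.pi / (t ^ 2 / Real.pi) = -Real.pi * (Real.pi / t ^ 2) := by field_simp
    rw [e1, e2, mul_pow, ← mul_assoc] at h3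
    exact h3.trans (mul_le_mul_of_nonneg_left h2 (by positivity))

end Pool.Agent.Lib.HY
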