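import Pool.Agent.Lib.HY.Blue

/-! The windowed density has almost the Coulomb energy of the cube. -/

open MeasureTheory Set Metric

noncomputable section

namespace Pool.Agent.Lib.HY

open Pool.Agent.Lib.MP_f7be6d_mp Pool.Agent.Lib.MP_f7be6d_mp.Unit

namespace WIN

lemma cont_chi3 (L w : ℝ) : Continuous (chi3 L w) := by
  unfold chi3
  refine continuous_finsetProd _ fun i _ => Continuous.pow ?_ 2
  exact (contDiff_chi L w).continuous.comp (EuclideanSpace.proj (𝕜 := ℝ) i).continuous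

lemma coul_chi3 {L w : ℝ} (hw : 0 < w) : Coul (chi3 L w) := by
  refine Coul.of_bdd ?_ (A := 1) fun x => by
    rw [abs_of_nonneg (chi3_nonneg _ _ _)]; exact chi3_le_one _ _ _
  refine (integrable_ind 0 (L + w)).mono' (cont_chi3 L w).aestronglyMeasurable
    (Filter.Eventually.of_forall fun x => ?_)
  rw [Real.norm_of_nonneg (chi3_nonneg _ _ _)]
  by_cases h : x ∈ cube 0 (L + w)
  · rw [ind_of_mem h]; exact chi3_le_one _ _ _
  · rw [ind_of_notMem h, chi3_zero hw h]

lemma far {n : ℕ} {w : ℝ} (hw : w ≤ 1 / 4) {x : E3} (hx : x ∉ cube w n) (j : Fin 3 → Fin n) :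
    1 / 4 ≤ ‖x - ctr 1 (idx j)‖ := by
  rw [mem_cube, not_forall] at hx
  obtain ⟨i, hi⟩ := hx
  have h1 : |(x - ctr 1 (idx j)) i| ≤ ‖x - ctr 1 (idx j)‖ := by
    have := PiLp.norm_apply_le (x - ctr 1 (idx j)) i
    rwa [Real.norm_eq_abs] at this
  refine le_trans ?_ h1
  have h2 : (x - ctr 1 (idx j)) i = x i - (((j i : ℕ) : ℝ) + 1 / 2) := by
    rw [PiLp.sub_apply, ctr_apply, one_mul]
    simp [idx]
  rw [h2]
  have h3 : (0 : ℝ) ≤ ((j i : ℕ) : ℝ) := Nat.cast_nonneg _
  have h4 : ((j i : ℕ) : ℝ) + 1 ≤ n := by exact_mod_cast (j i).2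
  rw [not_and_or, not_le, not_lt] at hi
  rcases hi with h | h
  · exact le_abs.2 (Or.inr (by linarith))
  · exact le_abs.2 (Or.inl (by linarith))

lemma dlt_layer {n : ℕ} {w : ℝ} (hw : w ≤ 1 / 4) {x : E3} (hx : x ∉ cube w n) :
    |dlt 1 n x| ≤ (20 + 72 * Ione) * (4 * (2 + Real.log n)) ^ 3 := by
  have hI := Ione_nonneg
  have h1 := abs_dlt_le one_pos n x
  have h2 := sum_reg_le one_pos n x
  rw [div_one] at h2
  have h3 : hs 1 n x ≤ 4 * ∑ j : Fin 3 → Fin n, 1 ^ 2 / max ‖x - ctr 1 (idx j)‖ 1 ^ 3 := by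
    unfold hs
    rw [Finset.mul_sum]
    refine Finset.sum_le_sum fun j _ => ?_
    unfold hcell
    split_ifs with h
    · have h5 := far hw hx j
      rw [max_eq_right (by linarith), div_le_iff₀ (by linarith)]
      norm_num
      linarith
    · positivity
  have h4 : (20 + 72 * Ione) * ∑ j : Fin 3 → Fin n, (1 : ℝ) ^ 2 / max ‖x - ctr 1 (idx j)‖ 1 ^ 3
      ≤ (20 + 72 * Ione) * (4 * (2 + Real.log n)) ^ 3 :=
    mul_le_mul_of_nonneg_left h2 (by positivity)
  linarith

lemma bg_eq (n : ℕ) : bg 1 1 n = ind 0 n := by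
  funext x; simp [bg]

end WIN

theorem st_WIN : St_WIN := by
  have hI := Ione_nonneg
  refine ⟨512 * (20 + 72 * Ione) + 4 * (Ione + 8), by positivity, fun n w hn hw hw4 => ?_⟩
  have hn1 : (1 : ℝ) ≤ n := by exact_mod_cast hn
  have hwn : w ≤ n := by linarith
  have hlog : 0 ≤ Real.log n := Real.log_nonneg hn1
  have hc := WIN.coul_chi3 (L := n) hw
  have hd := coul_ind 0 (n : ℝ)
  have e1 := energy_split hc 1 1 n
  have e2 := energy_split hd 1 1 n
  have e3 := direct_err (z := 1) (a := 1) (b := 1) (L := n) (n := n) hw hwn one_pos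
    (mul_one _).symm (by norm_num) (by
      have : (0 : ℝ) ≤ 1 / (n : ℝ) ^ 3 := by positivity
      simp only [one_pow, div_one]; linarith)
    ((hc.int.const_mul _).sub (coul_bg 1 1 n).int)
  have i1 := integrable_dlt_mul hc 1 1 n
  have i2 := integrable_dlt_mul hd 1 1 n
  simp only [one_pow, one_mul, div_one, mul_one, WIN.bg_eq, sub_self] at e1 e2 e3 i1 i2
  have e4 : cI (fun _ : E3 => (0 : ℝ)) (fun _ : E3 => (0 : ℝ)) = 0 := by simp [cI]
  rw [e4] at e2
  set M := (20 + 72 * Ione) * (4 * (2 + Real.log n)) ^ 3 with hM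
  have hM0 : 0 ≤ M := by positivity
  have i3 : Integrable (fun x => M * (ind 0 (n + w) x - ind w n x)) :=
    ((integrable_ind _ _).sub (integrable_ind _ _)).const_mul _
  have hpt : ∀ x, dlt 1 n x * ind 0 n x - dlt 1 n x * chi3 n w x
      ≤ M * (ind 0 (n + w) x - ind w n x) := by
    intro x
    by_cases k1 : x ∈ cube w n
    · have k2 : x ∈ cube 0 n := cube_mono hw.le le_rfl k1
      have k3 : x ∈ cube 0 (n + w) := cube_mono hw.le (by linarith) k1
      rw [chi3_one hw k1, ind_of_mem k1, ind_of_mem k2, ind_of_mem k3]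
      simp
    · rw [ind_of_notMem k1]
      by_cases k3 : x ∈ cube 0 (n + w)
      · rw [ind_of_mem k3, sub_zero, mul_one, ← mul_sub]
        have a0 := WIN.dlt_layer hw4 k1
        have a1 := chi3_nonneg n w x
        have a2 := chi3_le_one n w x
        have a3 := ind_nonneg 0 n x
        have a4 := ind_le_one 0 n x
        have a5 : |ind 0 n x - chi3 n w x| ≤ 1 := abs_le.2 ⟨by linarith, by linarith⟩
        refine (le_abs_self _).trans ?_
        rw [abs_mul]
        exact (mul_le_of_le_one_right (abs_nonneg _) a5).trans a0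
      · have k2 : x ∉ cube 0 n := fun h => k3 (cube_mono le_rfl (by linarith) h)
        rw [chi3_zero hw k3, ind_of_notMem k2, ind_of_notMem k3]
        simp
  have h5 := integral_mono (i2.sub i1) i3 hpt
  simp only [Pi.sub_apply] at h5
  rw [integral_sub i2 i1, integral_const_mul,
    integral_sub (integrable_ind _ _) (integrable_ind _ _), integral_ind (by linarith),
    integral_ind hwn] at h5
  have e5 : ((n : ℝ) + w - 0) ^ 3 - (n - w) ^ 3 ≤ 8 * w * n ^ 2 := by
    have : w ^ 2 ≤ (n : ℝ) ^ 2 := by gcongr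
    nlinarith
  have h6 := mul_le_mul_of_nonneg_left e5 hM0
  set P := w * (n : ℝ) ^ 2 with hP
  have hP0 : 0 ≤ P := by positivity
  set Q := (2 + Real.log n) ^ 3 with hQ
  have hQ0 : 0 ≤ Q := by positivity
  have h7 : M * (8 * w * n ^ 2) = 512 * (20 + 72 * Ione) * (P * Q) := by
    rw [hM, hP, hQ]; ring
  have h8 : (8 * w * (n : ℝ) ^ 2 + 1) * (Ione + (8 * w * n ^ 2 + 1))
      ≤ 8 * (Ione + 8) * (P + 1) ^ 2 := by
    have b1 : 8 * w * (n : ℝ) ^ 2 + 1 ≤ 8 * (P + 1) := by rw [hP]; linarith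
    have b2 : Ione + (8 * w * (n : ℝ) ^ 2 + 1) ≤ (Ione + 8) * (P + 1) := by
      nlinarith [mul_nonneg hI hP0]
    calc _ ≤ 8 * (P + 1) * ((Ione + 8) * (P + 1)) :=
          mul_le_mul b1 b2 (by positivity) (by positivity)
      _ = _ := by ring
  have h9 : 0 ≤ 512 * (20 + 72 * Ione) * (P + 1) ^ 2 := by positivity
  have h10 : 0 ≤ 4 * (Ione + 8) * (P * Q) := by positivity
  unfold CC
  nlinarith

end Pool.Agent.Lib.HY
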