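import Pool.Agent.Lib.MP_f7be6d_mp.Unit.HF

/-! Hydrogen at physical density: definitions and statements of the blocks. -/

open MeasureTheory Set Metric

noncomputable section

namespace Pool.Agent.Lib.HY

open Pool.Agent.Lib.MP_f7be6d_mp Pool.Agent.Lib.MP_f7be6d_mp.Unit

/-- centres of the unit cells -/
def cc {n : ℕ} (j : Fin 3 → Fin n) : E3 := ctr 1 (idx j)

/-- kinetic part of the Thomas-Fermi functional -/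
def KT (ρ : E3 → ℝ) : ℝ := gam * ∫ x, ρ x ^ (5 / 3 : ℝ)

/-- Coulomb part for unit charges at `R` -/
def Cg {k : ℕ} (R : Fin k → E3) (ρ : E3 → ℝ) : ℝ :=
  -(∫ x, nucV (fun _ => 1) R x * ρ x) + 1 / 2 * cI ρ ρ + nucU (fun _ => 1) R

/-- nuclear repulsion of the lattice -/
def UU (n : ℕ) : ℝ := 1 / 2 * ∑ i : Fin 3 → Fin n, ∑ j : Fin 3 → Fin n, 1 / ‖cc i - cc j‖

/-- Coulomb part for the lattice -/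
def CC (n : ℕ) (ρ : E3 → ℝ) : ℝ := -(∫ x, Vl 1 n x * ρ x) + 1 / 2 * cI ρ ρ + UU n

/-- unit charge smeared over the ball of radius one half -/
def mu (x : E3) : ℝ := if ‖x‖ < 1 / 2 then 6 / Real.pi else 0

/-- its potential -/
def PP (r : ℝ) : ℝ := if r < 1 / 2 then 3 - 4 * r ^ 2 else 1 / r

/-- the screened potential -/
def WW (x : E3) : ℝ := if ‖x‖ < 1 / 2 then 1 / ‖x‖ - 3 + 4 * ‖x‖ ^ 2 else 0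

/-- the smeared lattice -/
def nu (n : ℕ) (x : E3) : ℝ := ∑ j : Fin 3 → Fin n, mu (x - cc j)

/-- sum of the screened potentials -/
def WS (n : ℕ) (x : E3) : ℝ := ∑ j : Fin 3 → Fin n, WW (x - cc j)

/-- the integrand of the cell integral -/
def RR (x : E3) : ℝ := if ‖x‖ < 1 / 2 then (3 + WW x) ^ (5 / 2 : ℝ) else 0

/-- one-dimensional Gaussian -/
def ee (t u : ℝ) : ℝ := Real.exp (-(t ^ 2 * u ^ 2))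

def AA (n : ℕ) (t : ℝ) : ℝ := ∑ i : Fin n, ∑ j : Fin n, ee t (((i : ℕ) : ℝ) - ((j : ℕ) : ℝ))

def BB (n : ℕ) (t : ℝ) : ℝ := ∑ i : Fin n, ∫ x in (0 : ℝ)..n, ee t (x - (((i : ℕ) : ℝ) + 1 / 2))

def DD (n : ℕ) (t : ℝ) : ℝ := ∫ x in (0 : ℝ)..n, ∫ y in (0 : ℝ)..n, ee t (x - y)

def HT (n : ℕ) (t : ℝ) : ℝ := AA n t ^ 3 - n ^ 3 - 2 * BB n t ^ 3 + DD n t ^ 3

def St_SCT : Prop := ∀ (N k : ℕ) (R : Fin k → E3) (s : ℝ), 0 < s →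
  tfEnergy N (fun _ => 1) (fun j => s⁻¹ • R j) =
    ⨅ ρ : {ρ : E3 → ℝ // IsTFDensity N ρ}, ((s ^ 2 * KT ρ.1 + s * Cg R ρ.1 : ℝ) : EReal)

def St_SCQ : Prop := ∀ (N k : ℕ) (R : Fin k → E3) (u : Fin N → E3 → Fin 2 → ℂ) (s : ℝ), Orb u →
  0 < s → quantumEnergy N (fun _ => 1) (fun j => s⁻¹ • R j) ≤
    ((s ^ 2 * kin u + s * (Cg R (dens u) - 1 / 2 * ∫ w, exk u w ∂(volume.prod volume)) : ℝ) : EReal)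

def St_CG : Prop := ∀ (n k : ℕ) (e : Fin k ≃ (Fin 3 → Fin n)) (ρ : E3 → ℝ),
  Cg (fun j => cc (e j)) ρ = CC n ρ

def St_BALL : Prop := Coul mu ∧ ∫ x, mu x = 1 ∧ (∀ x, pot mu x = PP ‖x‖) ∧
  ∫ x, mu x * PP ‖x‖ = 12 / 5

def St_ONS : Prop := ∀ (n : ℕ) (ρ : E3 → ℝ), Coul ρ →
  Coul (nu n) ∧ Integrable (fun x => ρ x * WS n x) ∧
    -(∫ x, ρ x * WS n x) + 1 / 2 * cI (fun x => ρ x - nu n x) (fun x => ρ x - nu n x)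
      - 6 / 5 * n ^ 3 ≤ CC n ρ

def St_RAD : Prop := Integrable RR ∧ ∫ x, RR x ≤ 216224 / 10000

def St_TFL : Prop := ∀ σ δ : ℝ, 0 < σ → 0 < δ → ∃ n₀ : ℕ, ∀ n : ℕ, n₀ ≤ n →
  ∀ ρ : E3 → ℝ, IsTFDensity (n ^ 3) ρ →
    (9 / 5 - 39244 / 100000 / σ ^ 3 - δ) * n ^ 3 ≤ σ ^ 2 * KT ρ + CC n ρ

def St_REP : Prop := ∀ n : ℕ, IntegrableOn (HT n) (Ioi 0) ∧
  √Real.pi * CC n (ind 0 n) = ∫ t in Ioi (0 : ℝ), HT n t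

def St_SMALL : Prop := ∃ c : ℝ, 0 < c ∧ ∀ (n : ℕ) (t : ℝ), 0 < t → t ≤ 1 →
  AA n t ^ 3 - 2 * BB n t ^ 3 + DD n t ^ 3 ≤ c * n ^ 3

def St_LARGE : Prop := ∃ c : ℝ, 0 < c ∧ ∀ (n : ℕ) (t : ℝ), 0 < t →
  0 ≤ DD n t ∧ DD n t ≤ n * (√Real.pi / t) ∧ 0 ≤ BB n t ∧ BB n t ≤ n * (√Real.pi / t) ∧
    n * (√Real.pi / t) - c * (1 + 1 / t) / t ≤ BB n t

def St_THETA : Prop := ∀ (n : ℕ) (t : ℝ), 0 < t →
  (√Real.pi ≤ t → AA n t ^ 3 ≤ n ^ 3 * (1 + 654 / 100 * Real.exp (-t ^ 2))) ∧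
  (t ≤ √Real.pi → AA n t ^ 3 ≤
    n ^ 3 * (√Real.pi / t) ^ 3 * (1 + 654 / 100 * Real.exp (-(Real.pi ^ 2 / t ^ 2))))

def St_MAD : Prop := ∃ n₀ : ℕ, ∀ n : ℕ, n₀ ≤ n → CC n (ind 0 n) ≤ -(1409 / 1000) * n ^ 3

def St_WIN : Prop := ∃ c : ℝ, 0 < c ∧ ∀ (n : ℕ) (w : ℝ), 1 ≤ n → 0 < w → w ≤ 1 / 4 →
  CC n (chi3 n w) ≤ CC n (ind 0 n)
    + c * (w * n ^ 2 * (2 + Real.log n) ^ 3 + (w * n ^ 2 + 1) ^ 2)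

def St_MODES : Prop := ∀ (N : ℕ) (K : ℝ), 0 < K → (N : ℝ) ≤ 2 * (4 * Real.pi / 3 * K ^ 3) →
  ∃ md : Fin N → (Fin 3 → ℤ) × Fin 2, Function.Injective md ∧
    ∀ f : ℝ → ℝ, Continuous f → MonotoneOn f (Ici 0) → (∀ y, 0 ≤ y → 0 ≤ f y) →
      ∑ p, f ‖zv (md p).1‖ ≤ 8 * Real.pi * ∫ y in (0 : ℝ)..(K + 6), y ^ 2 * f y

def St_ANG : Prop := ∀ (k : E3) (r : ℝ) (j q : ℕ), 0 < r →
  IntegrableOn (fun v : E3 => inner ℝ k v ^ (2 * j) * (‖v‖ ^ q / ‖v‖)) (ball 0 r) ∧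
    ∫ v in ball (0 : E3) r, inner ℝ k v ^ (2 * j) * (‖v‖ ^ q / ‖v‖) =
      4 * Real.pi * ‖k‖ ^ (2 * j) * r ^ (2 * j + q + 2) / ((2 * j + 1) * (2 * j + q + 2))

def St_COS : Prop := ∀ y : ℝ, 1 - y ^ 2 / 2 + y ^ 4 / 24 - y ^ 6 / 720 ≤ Real.cos y

def St_EXC : Prop := ∃ n₀ : ℕ, ∀ n : ℕ, n₀ ≤ n → ∀ w : ℝ, 0 < w → w ≤ 1 →
  ∃ md : Fin (n ^ 3) → (Fin 3 → ℤ) × Fin 2, Function.Injective md ∧
    ∑ p, ‖zv (md p).1‖ ^ 2 ≤ 2 * (4 * Real.pi / 5 * (gF * 1 * n / (2 * Real.pi) + 6) ^ 5) ∧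
    688 / 1000 * n ^ 3 ≤ 1 / 2 * ∫ q, exk (orb n w md) q ∂(volume.prod volume)

/-- the trial state of the base lattice -/
def St_QU : Prop := ∀ n₀ : ℕ, ∃ n : ℕ, n₀ ≤ n ∧ ∃ u : Fin (n ^ 3) → E3 → Fin 2 → ℂ, Orb u ∧
  kin u ≤ 57436 / 10000 * n ^ 3 ∧
  CC n (dens u) - 1 / 2 * ∫ q, exk u q ∂(volume.prod volume) ≤ -(2096 / 1000) * n ^ 3

def Goal : Prop := ∀ e B : ℝ, ∃ (k : ℕ) (R : Fin k → E3), 1 ≤ k ∧ Function.Injective R ∧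
  tfEnergy k (fun _ => 1) R = (e : EReal) ∧ quantumEnergy k (fun _ => 1) R < (B : EReal)

end Pool.Agent.Lib.HY
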